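import Mathlib

/-!
# MP_83ee93_co: the inequality for nested pentagons, algebraic part

`E₁, …, E₅` are the areas of the ears of the inner pentagon, `A` is its area, the vertices of the
outer pentagon are `b_j + a_j (b_j - b_{j-1}) - b_j (b_{j+1} - b_j)`.
-/

set_option autoImplicit false

namespace Pool.Agent.MP_83ee93_co

/-- The region beyond one side. -/
theorem side_facts {E E' a b a' b' w : ℝ} (hE : 1 ≤ E) (hE' : 1 ≤ E') (hw : 0 ≤ w)
    (hab : 0 ≤ a + b) (hab' : 0 ≤ a' + b')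
    (hp : 0 ≤ a * E + (a * a' * E - a * b' * w + b * b' * E'))
    (hr : 0 ≤ b' * E' + (a * a' * E - a * b' * w + b * b' * E')) :
    0 ≤ a * E + b' * E' + (a * a' * E - a * b' * w + b * b' * E') ∧
    a ≤ a * E + b' * E' + (a * a' * E - a * b' * w + b * b' * E') ∧
    b' ≤ a * E + b' * E' + (a * a' * E - a * b' * w + b * b' * E') := by
  have hc : 0 ≤ a * E + b' * E' + (a * a' * E - a * b' * w + b * b' * E') := by
    rcases le_or_gt 0 a with ha | ha
    · have := mul_nonneg ha (by linarith : (0 : ℝ) ≤ E)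
      linarith
    rcases le_or_gt 0 b' with hb | hb
    · have := mul_nonneg hb (by linarith : (0 : ℝ) ≤ E')
      linarith
    exfalso
    have h1 : 0 < a' := by linarith
    have h2 : 0 < b := by linarith
    have h3 : a * a' * E < 0 := by
      have := mul_pos (mul_pos (neg_pos.mpr ha) h1) (by linarith : (0 : ℝ) < E)
      linarith
    have h4 : 0 ≤ a * b' * w := mul_nonneg (mul_pos_of_neg_of_neg ha hb).le hw
    have h5 : b * b' * E' < 0 := by
      have := mul_pos (mul_pos h2 (neg_pos.mpr hb)) (by linarith : (0 : ℝ) < E')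
      linarith
    have h6 : a * E < 0 := mul_neg_of_neg_of_pos ha (by linarith)
    linarith
  refine ⟨hc, ?_, ?_⟩
  · rcases le_or_gt 0 a with ha | ha
    · nlinarith
    · linarith
  · rcases le_or_gt 0 b' with hb | hb
    · nlinarith
    · linarith

/-- `c - w x (1 + y)` is bounded below. -/
theorem T_bound {τ s c w x y : ℝ} (hτ : 0 < τ) (hτ1 : τ < 1) (hs : 0 ≤ s)
    (hc : 0 ≤ c) (hw : 0 ≤ w) (hw1 : w ≤ 1 - τ) (hx : x ≤ c) (hy0 : 0 ≤ 1 + y) (hy : y ≤ s) :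
    (τ - s + τ * s) * c ≤ c - w * x * (1 + y) := by
  have e : (τ - s + τ * s) * c = c - (1 - τ) * c * (1 + s) := by ring
  rw [e]
  rcases le_or_gt 0 x with h | h
  · have h1 : w * x ≤ (1 - τ) * c := mul_le_mul hw1 hx h (by linarith)
    have h2 : w * x * (1 + y) ≤ (1 - τ) * c * (1 + s) :=
      mul_le_mul h1 (by linarith) hy0 (mul_nonneg (by linarith) hc)
    linarith
  · have h1 : w * x * (1 + y) ≤ 0 := by
      have := mul_nonneg (mul_nonneg hw (neg_pos.mpr h).le) hy0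
      linarith
    have h2 : 0 ≤ (1 - τ) * c * (1 + s) :=
      mul_nonneg (mul_nonneg (by linarith) hc) (by linarith)
    linarith

/-- The size of a small negative coordinate. -/
theorem key_bound {τ z x y v a : ℝ} (hτ : 0 < τ) (hτ1 : τ < 1) (hg : 0 ≤ τ ^ 2 - 3 * τ + 1)
    (hz : 0 ≤ z) (hx : 0 ≤ x) (hy : 0 ≤ y) (hv : 0 ≤ v)
    (hxy : x + y ≤ τ) (ha : a * (1 - (2 - τ) * y) ≤ x * y) :
    a * (1 + v + 2 * z) ≤ y * x + v * x + y * z * (1 + τ) + y ^ 2 := by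
  have hyτ : y ≤ τ := by linarith
  have hk1 : (2 - τ) * x ≤ 1 - (2 - τ) * y := by nlinarith
  have hk2 : y ≤ 1 - (2 - τ) * y := by nlinarith
  have hk0 : 0 < 1 - (2 - τ) * y := by nlinarith
  have hk3 : 2 * x ≤ (1 - (2 - τ) * y) * (1 + τ) := by nlinarith
  have h3 : a * (1 - (2 - τ) * y) * (1 + v + 2 * z) ≤ x * y * (1 + v + 2 * z) :=
    mul_le_mul_of_nonneg_right ha (by linarith)
  have h4 : x * y * (1 + v + 2 * z) ≤ (1 - (2 - τ) * y) *
      (y * x + v * x + y * z * (1 + τ) + y ^ 2) := by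
    have i1 : (2 - τ) * x * y ^ 2 ≤ (1 - (2 - τ) * y) * y ^ 2 :=
      mul_le_mul_of_nonneg_right hk1 (by positivity)
    have i2 : y * (x * v) ≤ (1 - (2 - τ) * y) * (x * v) :=
      mul_le_mul_of_nonneg_right hk2 (by positivity)
    have i3 : 2 * x * (y * z) ≤ (1 - (2 - τ) * y) * (1 + τ) * (y * z) :=
      mul_le_mul_of_nonneg_right hk3 (by positivity)
    nlinarith [i1, i2, i3]
  have h5 : (1 - (2 - τ) * y) * (a * (1 + v + 2 * z)) ≤ (1 - (2 - τ) * y) *
      (y * x + v * x + y * z * (1 + τ) + y ^ 2) := by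
    calc (1 - (2 - τ) * y) * (a * (1 + v + 2 * z))
        = a * (1 - (2 - τ) * y) * (1 + v + 2 * z) := by ring
      _ ≤ _ := h3.trans h4
  exact le_of_mul_le_mul_left h5 hk0

/-- The main estimate in the critical case. -/
theorem F_bound {τ s z x y v a t u b : ℝ} (hτ : 0 < τ) (hτ1 : τ < 1)
    (hg : 0 ≤ τ ^ 2 - 3 * τ + 1)
    (hs : s ≤ τ) (hz : 0 ≤ z) (hx : 0 ≤ x) (hy : 0 ≤ y) (hv : 0 ≤ v) (ht : 0 ≤ t) (hu : 0 ≤ u)
    (h1 : z + y + v + t + u ≤ s) (h2 : x + y + v + t + u ≤ s)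
    (ha : a * (1 - (2 - τ) * y) ≤ x * y) (hb : b * (1 - (2 - τ) * t) ≤ z * t) :
    (τ - s) * (z + x + y + t) ≤
      τ * (z + x) - 2 * (1 - τ) * z * x - 2 * z * a - 2 * x * b - a * (1 + v) - b * (1 + u) +
        y * (τ - (1 - τ) * (z + v)) + t * (τ - (1 - τ) * (x + u)) := by
  have key1 := key_bound hτ hτ1 hg hz hx hy hv (by linarith) ha
  have key2 := key_bound hτ hτ1 hg hx hz ht hu (by linarith) hb
  have j1 : (y + v + t + u) * (z + x) + 2 * z * x ≤ s * (z + x) := by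
    rcases le_total z x with h | h
    · nlinarith [mul_nonneg (sub_nonneg.mpr h) hx, mul_nonneg (sub_nonneg.mpr h2) (add_nonneg hz hx)]
    · nlinarith [mul_nonneg (sub_nonneg.mpr h) hz, mul_nonneg (sub_nonneg.mpr h1) (add_nonneg hz hx)]
  have j2 : y ^ 2 + y * (z + v) + y * t + y * u ≤ s * y := by
    have := mul_nonneg (sub_nonneg.mpr h1) hy
    nlinarith
  have j3 : t ^ 2 + t * (x + u) + t * y + t * v ≤ s * t := by
    have := mul_nonneg (sub_nonneg.mpr h2) ht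
    nlinarith
  have j4 : 0 ≤ τ * (z * x) := by positivity
  have j5 : 0 ≤ τ * (y * v) := by positivity
  have j6 : 0 ≤ τ * (t * u) := by positivity
  have j7 : 0 ≤ y * t := by positivity
  have j8 : 0 ≤ y * u := by positivity
  have j9 : 0 ≤ t * v := by positivity
  nlinarith [key1, key2, j1, j2, j3]

theorem side_sign {E E' a b a' b' w : ℝ} (hE : 1 ≤ E) (hE' : 1 ≤ E') (hw : 0 ≤ w)
    (hab : 0 ≤ a + b) (hab' : 0 ≤ a' + b')
    (hp : 0 ≤ a * E + (a * a' * E - a * b' * w + b * b' * E')) (ha : a < 0) : 0 < b' := by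
  by_contra hb
  push Not at hb
  have h1 : 0 ≤ a' := by linarith
  have h2 : 0 < b := by linarith
  have h3 : a * a' * E ≤ 0 := by
    have := mul_nonneg (mul_nonneg (neg_pos.mpr ha).le h1) (by linarith : (0 : ℝ) ≤ E)
    linarith
  have h4 : 0 ≤ a * b' * w := mul_nonneg (mul_nonneg_of_nonpos_of_nonpos ha.le hb) hw
  have h5 : b * b' * E' ≤ 0 := by
    have := mul_nonneg (mul_nonneg h2.le (neg_nonneg.mpr hb)) (by linarith : (0 : ℝ) ≤ E')
    linarith
  have h6 : a * E < 0 := mul_neg_of_neg_of_pos ha (by linarith)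
  linarith

theorem side_sign' {E E' a b a' b' w : ℝ} (hE : 1 ≤ E) (hE' : 1 ≤ E') (hw : 0 ≤ w)
    (hab : 0 ≤ a + b) (hab' : 0 ≤ a' + b')
    (hr : 0 ≤ b' * E' + (a * a' * E - a * b' * w + b * b' * E')) (hb : b' < 0) : 0 < a := by
  have := side_sign (a := b') (b := a') (a' := b) (b' := a) hE' hE hw (by linarith) (by linarith)
    (by linarith) hb
  exact this

/-- The size of a negative coordinate `a`. -/
theorem neg_bound {τ E E' a b a' b' w : ℝ} (hτ : 0 < τ) (hτ1 : τ < 1) (hE : 1 ≤ E)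
    (hE' : 1 ≤ E') (hw1 : w ≤ 1 - τ) (hb1 : b' ≤ 1)
    (hab' : 0 ≤ a' + b')
    (hp : 0 ≤ a * E + (a * a' * E - a * b' * w + b * b' * E')) (ha : a < 0) (hb' : 0 < b') :
    (-a) * (1 - (2 - τ) * (b' * E')) ≤ b * (b' * E') := by
  have h1 : 1 - (2 - τ) * (b' * E') ≤ E * (1 + a') - b' * w := by
    have i1 : b' ≤ b' * E' := by nlinarith
    have i2 : (2 - τ) * b' ≤ (2 - τ) * (b' * E') := mul_le_mul_of_nonneg_left i1 (by linarith)
    have i3 : 1 + a' ≤ E * (1 + a') := by nlinarith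
    have i4 : b' * w ≤ b' * (1 - τ) := mul_le_mul_of_nonneg_left hw1 hb'.le
    nlinarith
  have h2 : (-a) * (1 - (2 - τ) * (b' * E')) ≤ (-a) * (E * (1 + a') - b' * w) :=
    mul_le_mul_of_nonneg_left h1 (neg_pos.mpr ha).le
  nlinarith

/-- The size of a negative coordinate `b'`. -/
theorem neg_bound' {τ E E' a b a' b' w : ℝ} (hτ : 0 < τ) (hτ1 : τ < 1) (hE : 1 ≤ E)
    (hE' : 1 ≤ E') (hw1 : w ≤ 1 - τ) (ha1 : a ≤ 1)
    (hab : 0 ≤ a + b)
    (hr : 0 ≤ b' * E' + (a * a' * E - a * b' * w + b * b' * E')) (hb : b' < 0) (ha : 0 < a) :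
    (-b') * (1 - (2 - τ) * (a * E)) ≤ a' * (a * E) :=
  neg_bound (a := b') (b := a') (a' := b) (b' := a) hτ hτ1 hE' hE hw1 ha1 (by linarith)
    (by linarith) hb ha

/-- Compensation of a second order term: `n` is a small negative coordinate. -/
theorem comp_bound {τ s n m g G e K : ℝ} (hτ1 : τ ≤ 191 / 500) (hτ0 : 0 < τ)
    (hg : 0 ≤ g) (he : 0 ≤ e) (hG : g ≤ G)
    (hnb : n * (1 - (2 - τ) * G) ≤ m * G)
    (hs : s ≤ τ) (hsum : G + e ≤ s)
    (hK : m * K * G ≤ (3 / 10) * g) (hK0 : 0 ≤ K) :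
    n * K ≤ g * (1 - (2 - τ) * e) := by
  have h1 : (2 - τ) * (G + e) ≤ 31 / 50 := by nlinarith
  have h2 : 0 < 1 - (2 - τ) * G := by nlinarith
  have h3 : (3 : ℝ) / 10 ≤ (1 - (2 - τ) * G) * (1 - (2 - τ) * e) := by
    have : 0 ≤ ((2 - τ) * G) * ((2 - τ) * e) := by
      have : 0 ≤ G := hg.trans hG
      have : 0 ≤ 2 - τ := by linarith
      positivity
    nlinarith
  have h4 : n * (1 - (2 - τ) * G) * K ≤ m * G * K := mul_le_mul_of_nonneg_right hnb hK0
  have h5 : (3 / 10) * g ≤ (1 - (2 - τ) * G) * (1 - (2 - τ) * e) * g :=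
    mul_le_mul_of_nonneg_right h3 hg
  have h6 : (1 - (2 - τ) * G) * (n * K) ≤ (1 - (2 - τ) * G) * (g * (1 - (2 - τ) * e)) := by
    nlinarith
  exact le_of_mul_le_mul_left h6 h2

/-- The bound for the rest terms, one half: the contribution of `b₁` against a negative `a₅`. -/
theorem half_bound {τ s E1 E2 E3 E4 w5 w2 a3 a5 b1 b3 b5 c1 c2 c3 c4 c5 n : ℝ}
    (hτ0 : 0 < τ) (hτ1 : τ ≤ 191 / 500) (hE1 : 1 ≤ E1) (hE2 : 1 ≤ E2) (hE3 : 1 ≤ E3)
    (hE4 : 1 ≤ E4) (hE14 : E1 + E4 ≤ 3)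
    (hw5 : 0 ≤ w5) (hw51 : w5 ≤ 1 - τ) (hw2 : 0 ≤ w2) (hw21 : w2 ≤ 1 - τ)
    (hn : 0 ≤ n) (hn1 : n ≤ c1) (hb3 : b3 * E3 ≤ c2) (ha3 : 0 ≤ a3 + b3) (ha3' : 0 ≤ 1 + a3)
    (hb5 : b5 ≤ c4) (hb1 : b1 * E1 ≤ c5) (hb10 : 0 ≤ b1) (hc2 : 0 ≤ c2) (hc3 : 0 ≤ c3)
    (hc4 : 0 ≤ c4) (hc5 : 0 ≤ c5)
    (hsum : c1 + c2 + c3 + c4 + c5 ≤ s) (hs : s ≤ τ)
    (h5 : a5 < 0 → (-a5) * (1 - (2 - τ) * (b1 * E1)) ≤ b5 * (b1 * E1) ∧ 0 ≤ b5) :
    0 ≤ a5 * n * w5 + b1 * (E2 * (1 + a3) - b3 * w2) + min a5 0 * max b3 0 * E4 := by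
  -- the coefficient of b₁
  have hρ : b1 * (1 - (2 - τ) * max b3 0) ≤ b1 * (E2 * (1 + a3) - b3 * w2) := by
    apply mul_le_mul_of_nonneg_left _ hb10
    rcases le_or_gt 0 b3 with h | h
    · rw [max_eq_left h]
      have i1 : 1 + a3 ≤ E2 * (1 + a3) := by nlinarith
      have i2 : b3 * w2 ≤ b3 * (1 - τ) := mul_le_mul_of_nonneg_left hw21 h
      nlinarith
    · rw [max_eq_right h.le]
      have i1 : 1 + a3 ≤ E2 * (1 + a3) := by nlinarith
      have i2 : b3 * w2 ≤ 0 := by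
        have := mul_nonneg (neg_pos.mpr h).le hw2
        linarith
      nlinarith
  have hm3 : max b3 0 ≤ c2 := by
    apply max_le _ hc2
    rcases le_or_gt 0 b3 with h | h
    · nlinarith
    · linarith
  have hm30 : 0 ≤ max b3 0 := le_max_right _ _
  rcases le_or_gt 0 a5 with h | h
  · rw [min_eq_right h]
    have i1 : 0 ≤ a5 * n * w5 := by positivity
    have i2 : 0 ≤ b1 * (1 - (2 - τ) * max b3 0) := by
      apply mul_nonneg hb10
      have : c2 ≤ τ := by linarith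
      nlinarith
    nlinarith
  · rw [min_eq_left h.le]
    obtain ⟨h5a, h5b⟩ := h5 h
    have hK0 : 0 ≤ n * w5 + max b3 0 * E4 := by positivity
    have hG : b1 ≤ b1 * E1 := by nlinarith
    have hE14' : E1 * E4 ≤ 9 / 4 := by nlinarith [sq_nonneg (E1 - E4)]
    have hE1' : E1 ≤ 2 := by linarith
    have hK : b5 * (n * w5 + max b3 0 * E4) * (b1 * E1) ≤ (3 / 10) * b1 := by
      have k1 : E1 * (n * w5 + max b3 0 * E4) ≤ 9 / 4 * (n + max b3 0) := by
        have k2 : E1 * (n * w5) ≤ 2 * n := by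
          have : n * w5 ≤ n * 1 := mul_le_mul_of_nonneg_left (by linarith) hn
          nlinarith
        have k3 : E1 * E4 * max b3 0 ≤ 9 / 4 * max b3 0 := mul_le_mul_of_nonneg_right hE14' hm30
        nlinarith
      have k4 : b5 * (n + max b3 0) ≤ 1 / 10 := by
        have k5 : b5 * (n + max b3 0) ≤ c4 * (c1 + c2) := by
          apply mul_le_mul hb5 (by linarith) (by linarith) hc4
        have k6 : c4 + (c1 + c2) ≤ 191 / 500 := by linarith
        nlinarith [sq_nonneg (c4 - (c1 + c2))]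
      have k7 : b5 * (E1 * (n * w5 + max b3 0 * E4)) ≤ 3 / 10 := by
        have := mul_le_mul_of_nonneg_left k1 h5b
        nlinarith
      have := mul_le_mul_of_nonneg_right k7 hb10
      nlinarith
    have := comp_bound (n := -a5) (m := b5) (g := b1) (G := b1 * E1) (e := max b3 0)
      (K := n * w5 + max b3 0 * E4) (s := s) hτ1 hτ0 hb10 hm30 hG h5a hs (by linarith) hK hK0
    nlinarith

end Pool.Agent.MP_83ee93_co
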