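import Pool.Agent.Lib.MP_83ee93_co.Defs

/-!
# MP_83ee93_co: areas of triangles, images under affine maps, separated triangles
-/

set_option autoImplicit false

open MeasureTheory

namespace Pool.Agent.MP_83ee93_co

/-- Twice the signed area of the triangle `p q r`. -/
def D (p q r : ℝ × ℝ) : ℝ := (q.1 - p.1) * (r.2 - p.2) - (r.1 - p.1) * (q.2 - p.2)

/-- The standard closed triangle. -/
def stdTri : Set (ℝ × ℝ) := {p | 0 ≤ p.1 ∧ 0 ≤ p.2 ∧ p.1 + p.2 ≤ 1}

theorem measurableSet_stdTri : MeasurableSet stdTri := by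
  have h1 : MeasurableSet {p : ℝ × ℝ | 0 ≤ p.1} := measurableSet_le measurable_const measurable_fst
  have h2 : MeasurableSet {p : ℝ × ℝ | 0 ≤ p.2} := measurableSet_le measurable_const measurable_snd
  have h3 : MeasurableSet {p : ℝ × ℝ | p.1 + p.2 ≤ 1} :=
    measurableSet_le (measurable_fst.add measurable_snd) measurable_const
  exact h1.inter (h2.inter h3)

theorem volume_stdTri : volume stdTri = ENNReal.ofReal (1 / 2) := by
  rw [Measure.volume_eq_prod, Measure.prod_apply measurableSet_stdTri]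
  have h : ∀ x : ℝ, volume (Prod.mk x ⁻¹' stdTri)
      = (Set.Icc (0 : ℝ) 1).indicator (fun x => ENNReal.ofReal (1 - x)) x := by
    intro x
    by_cases hx : x ∈ Set.Icc (0 : ℝ) 1
    · rw [Set.indicator_of_mem hx]
      have : Prod.mk x ⁻¹' stdTri = Set.Icc 0 (1 - x) := by
        ext y
        simp only [stdTri, Set.mem_preimage, Set.mem_ofPred_eq, Set.mem_Icc]
        constructor
        · rintro ⟨_, h2, h3⟩; exact ⟨h2, by linarith⟩
        · rintro ⟨h2, h3⟩; exact ⟨hx.1, h2, by linarith⟩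
      rw [this, Real.volume_Icc, sub_zero]
    · rw [Set.indicator_of_notMem hx]
      have : Prod.mk x ⁻¹' stdTri = ∅ := by
        ext y
        simp only [stdTri, Set.mem_preimage, Set.mem_ofPred_eq, Set.mem_empty_iff_false, iff_false]
        rintro ⟨h1, h2, h3⟩
        exact hx ⟨h1, by linarith⟩
      rw [this, measure_empty]
  simp_rw [h]
  rw [lintegral_indicator measurableSet_Icc]
  rw [← ofReal_integral_eq_lintegral_ofReal]
  · congr 1
    rw [integral_Icc_eq_integral_Ioc, ← intervalIntegral.integral_of_le (by norm_num)]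
    rw [intervalIntegral.integral_sub (by simp) (by simp)]
    simp
    norm_num
  · exact (continuous_const.sub continuous_id).integrableOn_Icc
  · rw [Filter.EventuallyLE, ae_restrict_iff' measurableSet_Icc]
    exact Filter.Eventually.of_forall (fun x hx => by simpa using hx.2)

theorem area_stdTri : area stdTri = 1 / 2 := by
  unfold area
  rw [volume_stdTri, ENNReal.toReal_ofReal (by norm_num)]

/-- The linear map with matrix rows `(α, β)`, `(γ, δ)`. -/
def lin (α β γ δ : ℝ) : (ℝ × ℝ) →ₗ[ℝ] (ℝ × ℝ) where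
  toFun p := (α * p.1 + β * p.2, γ * p.1 + δ * p.2)
  map_add' p q := by ext <;> simp <;> ring
  map_smul' t p := by ext <;> simp <;> ring

theorem det_lin (α β γ δ : ℝ) : LinearMap.det (lin α β γ δ) = α * δ - β * γ := by
  rw [← LinearMap.det_toMatrix (Module.Basis.finTwoProd ℝ), Matrix.det_fin_two]
  simp [LinearMap.toMatrix_apply, lin]

theorem area_image_add (X : Set (ℝ × ℝ)) (v : ℝ × ℝ) : area ((fun p => v + p) '' X) = area X := by
  unfold area
  rw [Set.image_add_left, measure_preimage_add]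

theorem area_image_lin (α β γ δ : ℝ) (X : Set (ℝ × ℝ)) :
    area (lin α β γ δ '' X) = |α * δ - β * γ| * area X := by
  unfold area
  rw [Measure.addHaar_image_linearMap, det_lin, ENNReal.toReal_mul,
    ENNReal.toReal_ofReal (abs_nonneg _)]

theorem mem_of_three {C : Set (ℝ × ℝ)} (hC : Convex ℝ C) {a b c : ℝ × ℝ} (ha : a ∈ C) (hb : b ∈ C)
    (hc : c ∈ C) {x y z : ℝ} (hx : 0 ≤ x) (hy : 0 ≤ y) (hz : 0 ≤ z) (h : x + y + z = 1) :
    x • a + y • b + z • c ∈ C := by
  have := hC.sum_mem (t := (Finset.univ : Finset (Fin 3))) (w := ![x, y, z]) (z := ![a, b, c])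
    (by intro i _; fin_cases i <;> simpa) (by simp [Fin.sum_univ_three, h])
    (by intro i _; fin_cases i <;> simpa)
  simpa [Fin.sum_univ_three] using this

/-- The triangle `a b c` is an affine image of the standard triangle. -/
theorem convexHull_triangle (a b c : ℝ × ℝ) :
    convexHull ℝ {a, b, c} =
      (fun p => a + p) '' (lin (b.1 - a.1) (c.1 - a.1) (b.2 - a.2) (c.2 - a.2) '' stdTri) := by
  ext p
  rw [Set.image_image]
  simp only [Set.mem_image]
  constructor
  · intro hp
    rw [convexHull_insert (by simp)] at hp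
    simp only [convexJoin_singleton_left, Set.mem_iUnion, convexHull_pair, exists_prop] at hp
    obtain ⟨x, hx, hp⟩ := hp
    rw [segment_eq_image] at hx hp
    obtain ⟨s, ⟨hs0, hs1⟩, rfl⟩ := hx
    obtain ⟨t, ⟨ht0, ht1⟩, rfl⟩ := hp
    refine ⟨(t * (1 - s), t * s), ?_, ?_⟩
    · refine ⟨mul_nonneg ht0 (by linarith), mul_nonneg ht0 hs0, ?_⟩
      simp only
      nlinarith
    · ext <;> simp [lin] <;> ring
  · rintro ⟨⟨x, y⟩, ⟨hx, hy, hxy⟩, rfl⟩
    simp only at hx hy hxy
    have : a + (lin (b.1 - a.1) (c.1 - a.1) (b.2 - a.2) (c.2 - a.2)) (x, y)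
        = (1 - x - y) • a + x • b + y • c := by
      ext <;> simp [lin] <;> ring
    rw [this]
    have hc := convex_convexHull ℝ ({a, b, c} : Set (ℝ × ℝ))
    have ha : a ∈ convexHull ℝ ({a, b, c} : Set (ℝ × ℝ)) := subset_convexHull _ _ (by simp)
    have hb : b ∈ convexHull ℝ ({a, b, c} : Set (ℝ × ℝ)) := subset_convexHull _ _ (by simp)
    have hcc : c ∈ convexHull ℝ ({a, b, c} : Set (ℝ × ℝ)) := subset_convexHull _ _ (by simp)
    exact mem_of_three hc ha hb hcc (by linarith) hx hy (by ring)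

/-- The area of a triangle. -/
theorem area_triangle (a b c : ℝ × ℝ) : area (convexHull ℝ {a, b, c}) = |D a b c| / 2 := by
  rw [convexHull_triangle, area_image_add, area_image_lin, area_stdTri]
  unfold D
  ring

/-- Affine maps scale areas by a positive constant. -/
theorem exists_area_scale (T : (ℝ × ℝ) ≃ᵃ[ℝ] (ℝ × ℝ)) :
    ∃ κ : ℝ, 0 < κ ∧ ∀ X : Set (ℝ × ℝ), area (T '' X) = κ * area X := by
  refine ⟨|LinearMap.det (T.linear : (ℝ × ℝ) →ₗ[ℝ] (ℝ × ℝ))|, ?_, ?_⟩
  · exact abs_pos.mpr (LinearEquiv.isUnit_det' T.linear).ne_zero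
  · intro X
    have h : T '' X = (fun p => T 0 + p) '' ((T.linear : (ℝ × ℝ) →ₗ[ℝ] (ℝ × ℝ)) '' X) := by
      rw [Set.image_image]
      apply Set.image_congr
      intro p _
      have := T.map_vadd 0 p
      simp only [vadd_eq_add, add_zero] at this
      rw [this]
      simp [add_comm]
    rw [h, area_image_add]
    unfold area
    rw [Measure.addHaar_image_linearMap, ENNReal.toReal_mul, ENNReal.toReal_ofReal (abs_nonneg _)]

end Pool.Agent.MP_83ee93_co
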