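import Pool.Agent.Lib.MP_83ee93_co.Sep

/-!
# MP_83ee93_co: five points without small triangles form a convex pentagon, six points always
have a small triangle
-/

set_option autoImplicit false

open MeasureTheory

namespace Pool.Agent.MP_83ee93_co

theorem D_rot (p q r : ℝ × ℝ) : D q r p = D p q r := by unfold D; ring

theorem D_swap (p q r : ℝ × ℝ) : D q p r = -D p q r := by unfold D; ring

theorem D_swap' (p q r : ℝ × ℝ) : D p r q = -D p q r := by unfold D; ring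

theorem D_self_left (p q : ℝ × ℝ) : D p p q = 0 := by unfold D; ring

theorem D_self_right (p q : ℝ × ℝ) : D p q q = 0 := by unfold D; ring

theorem D_self_mid (p q : ℝ × ℝ) : D p q p = 0 := by unfold D; ring

theorem D_add (a b c d : ℝ × ℝ) : D a b c = D a b d + D b c d + D c a d := by unfold D; ring

theorem ne_of_D {a b c : ℝ × ℝ} (h : D a b c ≠ 0) : a ≠ b ∧ a ≠ c ∧ b ≠ c := by
  refine ⟨?_, ?_, ?_⟩ <;> rintro rfl <;> apply h
  · exact D_self_left _ _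
  · exact D_self_mid _ _
  · exact D_self_right _ _

section Four

variable {F : Set (ℝ × ℝ)}

/-- There are no four pairwise separated triangles in `F`, each of area more than `|F| / 4`. -/
theorem four_tri (hF : IsCompact F) (hc : Convex ℝ F)
    {a0 b0 c0 a1 b1 c1 a2 b2 c2 a3 b3 c3 : ℝ × ℝ}
    (ha0 : a0 ∈ F) (hb0 : b0 ∈ F) (hc0 : c0 ∈ F) (ha1 : a1 ∈ F) (hb1 : b1 ∈ F) (hc1 : c1 ∈ F)
    (ha2 : a2 ∈ F) (hb2 : b2 ∈ F) (hc2 : c2 ∈ F) (ha3 : a3 ∈ F) (hb3 : b3 ∈ F) (hc3 : c3 ∈ F)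
    (s01 : SepT a0 b0 c0 a1 b1 c1) (s02 : SepT a0 b0 c0 a2 b2 c2) (s03 : SepT a0 b0 c0 a3 b3 c3)
    (s12 : SepT a1 b1 c1 a2 b2 c2) (s13 : SepT a1 b1 c1 a3 b3 c3) (s23 : SepT a2 b2 c2 a3 b3 c3)
    (g0 : area F / 2 < |D a0 b0 c0|) (g1 : area F / 2 < |D a1 b1 c1|)
    (g2 : area F / 2 < |D a2 b2 c2|) (g3 : area F / 2 < |D a3 b3 c3|) : False := by
  have h := sum_le_area hF hc ![a0, a1, a2, a3] ![b0, b1, b2, b3] ![c0, c1, c2, c3]
    (by intro i; fin_cases i <;> simpa) (by intro i; fin_cases i <;> simpa)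
    (by intro i; fin_cases i <;> simpa)
    (by intro i j hij; fin_cases i <;> fin_cases j <;> simp at hij ⊢ <;> assumption)
  simp [Fin.sum_univ_four] at h
  linarith

/-- The total area of three pairwise separated triangles in `F` is at most `|F|`. -/
theorem three_tri (hF : IsCompact F) (hc : Convex ℝ F)
    {a0 b0 c0 a1 b1 c1 a2 b2 c2 : ℝ × ℝ}
    (ha0 : a0 ∈ F) (hb0 : b0 ∈ F) (hc0 : c0 ∈ F) (ha1 : a1 ∈ F) (hb1 : b1 ∈ F) (hc1 : c1 ∈ F)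
    (ha2 : a2 ∈ F) (hb2 : b2 ∈ F) (hc2 : c2 ∈ F)
    (s01 : SepT a0 b0 c0 a1 b1 c1) (s02 : SepT a0 b0 c0 a2 b2 c2)
    (s12 : SepT a1 b1 c1 a2 b2 c2) :
    |D a0 b0 c0| + |D a1 b1 c1| + |D a2 b2 c2| ≤ 2 * area F := by
  have h := sum_le_area hF hc ![a0, a1, a2] ![b0, b1, b2] ![c0, c1, c2]
    (by intro i; fin_cases i <;> simpa) (by intro i; fin_cases i <;> simpa)
    (by intro i; fin_cases i <;> simpa)
    (by intro i j hij; fin_cases i <;> fin_cases j <;> simp at hij ⊢ <;> assumption)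
  simp [Fin.sum_univ_three] at h
  linarith

end Four

/-- All triangles with vertices in `X` have area more than `|F| / 4`. -/
def AllBig (F : Set (ℝ × ℝ)) (X : Set (ℝ × ℝ)) : Prop :=
  ∀ a ∈ X, ∀ b ∈ X, ∀ c ∈ X, a ≠ b → a ≠ c → b ≠ c → area F / 2 < |D a b c|

/-- No point of `X` is in a triangle of three other points of `X`. -/
def NoIn (X : Set (ℝ × ℝ)) : Prop :=
  ∀ a ∈ X, ∀ b ∈ X, ∀ c ∈ X, ∀ d ∈ X,
    0 < D a b c → 0 < D a b d → 0 < D b c d → 0 < D c a d → False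

theorem area_nonneg (F : Set (ℝ × ℝ)) : 0 ≤ area F := ENNReal.toReal_nonneg

theorem AllBig.ne_zero {F X : Set (ℝ × ℝ)} (h : AllBig F X) {a b c : ℝ × ℝ} (ha : a ∈ X)
    (hb : b ∈ X) (hc : c ∈ X) (h1 : a ≠ b) (h2 : a ≠ c) (h3 : b ≠ c) : D a b c ≠ 0 := by
  have := h a ha b hb c hc h1 h2 h3
  have h0 := area_nonneg F
  intro h4
  rw [h4, abs_zero] at this
  linarith

section Inside

variable {F X : Set (ℝ × ℝ)}

/-- A point `e` beyond the side `b c` of a triangle containing `d`. -/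
theorem outside_contra (hF : IsCompact F) (hc : Convex ℝ F) (hX : X ⊆ F) (hbig : AllBig F X)
    {a b c d e : ℝ × ℝ} (ha : a ∈ X) (hb : b ∈ X) (hcx : c ∈ X) (hd : d ∈ X) (he : e ∈ X)
    (h1 : 0 < D a b c) (h2 : 0 < D a b d) (h3 : 0 < D b c d) (h4 : 0 < D c a d)
    (h5 : D b c e < 0) : False := by
  have n1 := ne_of_D h1.ne'
  have n2 := ne_of_D h2.ne'
  have n3 := ne_of_D h3.ne'
  have n4 := ne_of_D h4.ne'
  have n5 := ne_of_D h5.ne
  have z := D_self_left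
  refine four_tri hF hc (hX hd) (hX ha) (hX hb) (hX hd) (hX hb) (hX hcx) (hX hd) (hX hcx) (hX ha)
    (hX he) (hX hb) (hX hcx) ⟨b, d, n2.2.2, ?_, ?_⟩ ⟨d, a, n2.2.1.symm, ?_, ?_⟩
    ⟨b, c, n5.1, ?_, ?_⟩ ⟨c, d, n3.2.2, ?_, ?_⟩ ⟨b, c, n5.1, ?_, ?_⟩ ⟨b, c, n5.1, ?_, ?_⟩
    (hbig d hd a ha b hb n2.2.1.symm n2.2.2.symm n2.1)
    (hbig d hd b hb c hcx n3.2.1.symm n3.2.2.symm n3.1)
    (hbig d hd c hcx a ha n4.2.1.symm n4.2.2.symm n4.1)
    (hbig e he b hb c hcx n5.2.1.symm n5.2.2.symm n5.1)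
  all_goals
    simp only [D] at h1 h2 h3 h4 h5 ⊢
    refine ⟨?_, ?_, ?_⟩ <;> nlinarith only [h1, h2, h3, h4, h5]

/-- A point `e` in the angle `b d c` of a triangle `a b c` containing `d`, and in the triangle. -/
theorem inside_contra (hF : IsCompact F) (hc : Convex ℝ F) (hX : X ⊆ F) (hbig : AllBig F X)
    {a b c d e : ℝ × ℝ} (ha : a ∈ X) (hb : b ∈ X) (hcx : c ∈ X) (hd : d ∈ X) (he : e ∈ X)
    (h1 : 0 < D a b c) (h2 : 0 < D a b d) (h3 : 0 < D b c d) (h4 : 0 < D c a d)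
    (h5 : 0 < D b c e) (h6 : 0 < D d b e) (h7 : 0 < D c d e) : False := by
  have n1 := ne_of_D h1.ne'
  have n2 := ne_of_D h2.ne'
  have n3 := ne_of_D h3.ne'
  have n4 := ne_of_D h4.ne'
  have n5 := ne_of_D h5.ne'
  have n6 := ne_of_D h6.ne'
  refine four_tri hF hc (hX hd) (hX ha) (hX hb) (hX hd) (hX hcx) (hX ha) (hX he) (hX hd) (hX hb)
    (hX he) (hX hb) (hX hcx) ⟨d, a, n2.2.1.symm, ?_, ?_⟩ ⟨b, d, n2.2.2, ?_, ?_⟩
    ⟨b, d, n2.2.2, ?_, ?_⟩ ⟨d, c, n3.2.2.symm, ?_, ?_⟩ ⟨d, c, n3.2.2.symm, ?_, ?_⟩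
    ⟨b, e, n5.2.1, ?_, ?_⟩
    (hbig d hd a ha b hb n2.2.1.symm n2.2.2.symm n2.1)
    (hbig d hd c hcx a ha n4.2.1.symm n4.2.2.symm n4.1)
    (hbig e he d hd b hb n6.2.1.symm n6.2.2.symm n6.1)
    (hbig e he b hb c hcx n5.2.1.symm n5.2.2.symm n5.1)
  all_goals
    simp only [D] at h1 h2 h3 h4 h5 h6 h7 ⊢
    refine ⟨?_, ?_, ?_⟩ <;> nlinarith only [h1, h2, h3, h4, h5, h6, h7]

end Inside

end Pool.Agent.MP_83ee93_co
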