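import Pool.Agent.Lib.MP_83ee93_co.Final

/-!
# MP_83ee93_co: the critical pentagons force `S(F) = 6`
-/

set_option autoImplicit false

open MeasureTheory

namespace Pool.Agent.MP_83ee93_co

/-- The vertices of the pentagon. -/
noncomputable def vert (q t : ℝ) : Fin 5 → ℝ × ℝ :=
  ![(-1, 0), (1, 0), (q / 2, 1), (t, 1 + 2 / q), (-q / 2, 1)]

theorem vert_mem (q t : ℝ) (i : Fin 5) : vert q t i ∈ pentagon q t := by
  apply subset_convexHull
  fin_cases i <;> simp [vert]

theorem D_vert_ordered {q t : ℝ} (hq : 1 + √5 ≤ q) (ht : |t| ≤ q / 2 - 2 / q - 1) :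
    ∀ i j k : Fin 5, i < j → j < k → 2 ≤ D (vert q t i) (vert q t j) (vert q t k) := by
  have h5 : (1 : ℝ) ≤ √5 := by
    rw [Real.one_le_sqrt]; norm_num
  have hq0 : 0 < q := by linarith
  have hqq : q * q⁻¹ = 1 := mul_inv_cancel₀ hq0.ne'
  have hqi : 0 < q⁻¹ := inv_pos.mpr hq0
  obtain ⟨ht1, ht2⟩ := abs_le.mp ht
  rw [div_eq_mul_inv 2 q] at ht1 ht2
  intro i j k hij hjk
  fin_cases i <;> fin_cases j <;> simp at hij <;> fin_cases k <;> simp at hjk <;>
    simp [vert, D] <;> simp only [div_eq_mul_inv] at * <;> nlinarith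

theorem D_vert {q t : ℝ} (hq : 1 + √5 ≤ q) (ht : |t| ≤ q / 2 - 2 / q - 1) :
    ∀ i j k : Fin 5, i ≠ j → i ≠ k → j ≠ k →
      2 ≤ |D (vert q t i) (vert q t j) (vert q t k)| := by
  intro i j k hij hik hjk
  have h := D_vert_ordered hq ht
  rcases lt_or_gt_of_ne hij with h1 | h1 <;> rcases lt_or_gt_of_ne hik with h2 | h2 <;>
    rcases lt_or_gt_of_ne hjk with h3 | h3
  · exact (h i j k h1 h3).trans (le_abs_self _)
  · rw [D_swap', abs_neg]
    exact (h i k j h2 h3).trans (le_abs_self _)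
  · omega
  · rw [D_rot]
    exact (h k i j h2 h1).trans (le_abs_self _)
  · rw [D_swap, abs_neg]
    exact (h j i k h1 h2).trans (le_abs_self _)
  · omega
  · rw [← D_rot]
    exact (h j k i h3 h2).trans (le_abs_self _)
  · rw [D_swap, abs_neg, D_rot]
    exact (h k j i h3 h1).trans (le_abs_self _)

theorem HasSmallTriangle.mono {F : Set (ℝ × ℝ)} {n m : ℕ} (h : HasSmallTriangle F n)
    (hnm : n ≤ m) : HasSmallTriangle F m := by
  intro X hX hcard
  obtain ⟨Y, hY, hYc⟩ := Finset.exists_subset_card_eq (hcard ▸ hnm : n ≤ X.card)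
  obtain ⟨a, ha, b, hb, c, hc, h1⟩ := h Y (fun p hp => hX (hY hp)) hYc
  exact ⟨a, hY ha, b, hY hb, c, hY hc, h1⟩

theorem S_eq_six_iff {F : Set (ℝ × ℝ)} (hF : IsCompact F) (hc : Convex ℝ F) :
    S F = 6 ↔ ¬ HasSmallTriangle F 5 := by
  have h6 := hasSmallTriangle_six hF hc
  have hne : {n | 0 < n ∧ HasSmallTriangle F n}.Nonempty := ⟨6, by norm_num, h6⟩
  constructor
  · intro hS h5
    have : S F ≤ 5 := Nat.sInf_le ⟨by norm_num, h5⟩
    omega
  · intro h5
    apply le_antisymm
    · exact Nat.sInf_le ⟨by norm_num, h6⟩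
    · have hmem := Nat.sInf_mem hne
      by_contra hcon
      push Not at hcon
      have : S F ≤ 5 := by omega
      exact h5 (hmem.2.mono this)

/-- A convex figure with an affine image of area less than four that contains a critical pentagon
has five points without small triangles. -/
theorem not_hasSmallTriangle_five {F : Set (ℝ × ℝ)} (T : (ℝ × ℝ) ≃ᵃ[ℝ] (ℝ × ℝ)) {q t : ℝ}
    (hq : 1 + √5 ≤ q) (ht : |t| ≤ q / 2 - 2 / q - 1) (hP : pentagon q t ⊆ T '' F)
    (hA : area (T '' F) < 4) : ¬ HasSmallTriangle F 5 := by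
  intro h5
  obtain ⟨κ, hκ, hs⟩ := exists_area_scale T
  have hmem : ∀ i, T.symm (vert q t i) ∈ F := by
    intro i
    obtain ⟨p, hp, hp'⟩ := hP (vert_mem q t i)
    rw [← hp', AffineEquiv.symm_apply_apply]
    exact hp
  have hinj : Function.Injective (fun i => T.symm (vert q t i)) := by
    intro i j hij
    have h1 : vert q t i = vert q t j := T.symm.injective hij
    by_contra hne
    have key : ∀ i j : Fin 5, ∃ k : Fin 5, i ≠ k ∧ j ≠ k := by decide
    obtain ⟨k, hk1, hk2⟩ := key i j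
    have := D_vert hq ht i j k hne hk1 hk2
    rw [h1, D_self_left] at this
    norm_num at this
  obtain ⟨a, ha, b, hb, c, hcx, n1, n2, n3, hsmall⟩ :=
    h5 (Finset.univ.image (fun i => T.symm (vert q t i)))
      (by
        intro p hp
        simp only [Finset.coe_image, Finset.coe_univ, Set.image_univ, Set.mem_range] at hp
        obtain ⟨i, rfl⟩ := hp
        exact hmem i)
      (by rw [Finset.card_image_of_injective _ hinj]; simp)
  simp only [Finset.mem_image, Finset.mem_univ, true_and] at ha hb hcx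
  obtain ⟨i, rfl⟩ := ha
  obtain ⟨j, rfl⟩ := hb
  obtain ⟨k, rfl⟩ := hcx
  have m1 : i ≠ j := fun h => n1 (by rw [h])
  have m2 : i ≠ k := fun h => n2 (by rw [h])
  have m3 : j ≠ k := fun h => n3 (by rw [h])
  have hbig := D_vert hq ht i j k m1 m2 m3
  have h6 := hs (convexHull ℝ {T.symm (vert q t i), T.symm (vert q t j), T.symm (vert q t k)})
  rw [image_convexHull_triple] at h6
  simp only [AffineEquiv.apply_symm_apply] at h6
  rw [area_triangle (vert q t i)] at h6
  have h7 := hs F
  have h8 : κ * area (convexHull ℝ {T.symm (vert q t i), T.symm (vert q t j),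
      T.symm (vert q t k)}) ≤ κ * (area F / 4) := mul_le_mul_of_nonneg_left hsmall hκ.le
  linarith

end Pool.Agent.MP_83ee93_co
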