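import Pool.Agent.Lib.MP_83ee93_co.Figures

/-!
# MP_83ee93_co: the minimal critical figures are the critical pentagons
-/

set_option autoImplicit false

open MeasureTheory

namespace Pool.Agent.MP_83ee93_co

/-- A convex figure of area less than four with five points, all of whose triangles have area
at least one. -/
def IsCritical (K : Set (ℝ × ℝ)) : Prop :=
  IsConvexFigure K ∧ area K < 4 ∧ ∃ X : Finset (ℝ × ℝ), (X : Set (ℝ × ℝ)) ⊆ K ∧ X.card = 5 ∧
    ∀ a ∈ X, ∀ b ∈ X, ∀ c ∈ X, a ≠ b → a ≠ c → b ≠ c → 1 ≤ area (convexHull ℝ {a, b, c})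

theorem isConvexFigure_of_area {K : Set (ℝ × ℝ)} (hK : IsCompact K) (hc : Convex ℝ K)
    (h : 0 < area K) : IsConvexFigure K := by
  refine ⟨hK, hc, ?_⟩
  by_contra hcon
  rw [Set.not_nonempty_iff_eq_empty] at hcon
  have h1 : K ⊆ frontier K := by
    intro x hx
    rw [frontier, hcon, Set.sdiff_empty]
    exact subset_closure hx
  have h2 : volume K = 0 := measure_mono_null h1 (hc.addHaar_frontier volume)
  unfold area at h
  rw [h2] at h
  simp at h

theorem affine_continuous (T : (ℝ × ℝ) ≃ᵃ[ℝ] (ℝ × ℝ)) : Continuous T :=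
  (T : (ℝ × ℝ) →ᵃ[ℝ] (ℝ × ℝ)).continuous_of_finiteDimensional

theorem image_compact (T : (ℝ × ℝ) ≃ᵃ[ℝ] (ℝ × ℝ)) {K : Set (ℝ × ℝ)} (hK : IsCompact K) :
    IsCompact (T '' K) := hK.image (affine_continuous T)

theorem image_convex (T : (ℝ × ℝ) ≃ᵃ[ℝ] (ℝ × ℝ)) {K : Set (ℝ × ℝ)} (hK : Convex ℝ K) :
    Convex ℝ (T '' K) := hK.affine_image (T : (ℝ × ℝ) →ᵃ[ℝ] (ℝ × ℝ))

theorem image_hull (T : (ℝ × ℝ) ≃ᵃ[ℝ] (ℝ × ℝ)) (s : Set (ℝ × ℝ)) :
    T '' (convexHull ℝ s) = convexHull ℝ (T '' s) :=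
  (T : (ℝ × ℝ) →ᵃ[ℝ] (ℝ × ℝ)).image_convexHull s

theorem symm_image_image (T : (ℝ × ℝ) ≃ᵃ[ℝ] (ℝ × ℝ)) (s : Set (ℝ × ℝ)) :
    T '' (T.symm '' s) = s := by
  rw [Set.image_image]
  simp

theorem image_symm_image (T : (ℝ × ℝ) ≃ᵃ[ℝ] (ℝ × ℝ)) (s : Set (ℝ × ℝ)) :
    T.symm '' (T '' s) = s := by
  rw [Set.image_image]
  simp

theorem area_symm {T : (ℝ × ℝ) ≃ᵃ[ℝ] (ℝ × ℝ)} (hT : ∀ X, area (T '' X) = area X)
    (X : Set (ℝ × ℝ)) : area (T.symm '' X) = area X := by
  rw [← hT, symm_image_image]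

/-- The image of a set of points with large triangles under a map that does not decrease areas. -/
theorem Large.image {X : Finset (ℝ × ℝ)} (h : Large X) (T : (ℝ × ℝ) ≃ᵃ[ℝ] (ℝ × ℝ))
    (hT : ∀ X, area X ≤ area (T '' X)) : Large (X.image T) := by
  intro a ha b hb c hc h1 h2 h3
  simp only [Finset.mem_image] at ha hb hc
  obtain ⟨a', ha', rfl⟩ := ha
  obtain ⟨b', hb', rfl⟩ := hb
  obtain ⟨c', hc', rfl⟩ := hc
  have h4 := h a' ha' b' hb' c' hc' (fun h => h1 (by rw [h])) (fun h => h2 (by rw [h]))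
    (fun h => h3 (by rw [h]))
  rw [← image_convexHull_triple]
  exact h4.trans (hT _)

theorem card_image_equiv (X : Finset (ℝ × ℝ)) (T : (ℝ × ℝ) ≃ᵃ[ℝ] (ℝ × ℝ)) :
    (X.image T).card = X.card := Finset.card_image_of_injective _ T.injective

theorem large_vert {q t : ℝ} (hq : 1 + √5 ≤ q) (ht : |t| ≤ q / 2 - 2 / q - 1) :
    Large (Finset.univ.image (vert q t)) := by
  intro a ha b hb c hc h1 h2 h3
  simp only [Finset.mem_image, Finset.mem_univ, true_and] at ha hb hc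
  obtain ⟨i, rfl⟩ := ha
  obtain ⟨j, rfl⟩ := hb
  obtain ⟨k, rfl⟩ := hc
  rw [area_triangle]
  have := D_vert hq ht i j k (fun h => h1 (by rw [h])) (fun h => h2 (by rw [h]))
    (fun h => h3 (by rw [h]))
  linarith

theorem card_vert {q t : ℝ} (hq : 1 + √5 ≤ q) (ht : |t| ≤ q / 2 - 2 / q - 1) :
    (Finset.univ.image (vert q t)).card = 5 := by
  have hv : Ordered (vert q t) := D_vert_ordered hq ht
  rw [Finset.card_image_of_injective _ hv.injective]
  simp

theorem coe_vert (q t : ℝ) : ((Finset.univ.image (vert q t) : Finset (ℝ × ℝ)) : Set (ℝ × ℝ))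
    = Set.range (vert q t) := by
  simp

/-- The images of the critical pentagons are critical. -/
theorem isCritical_image {q t : ℝ} (hq : 1 + √5 ≤ q) (hq4 : q < 4)
    (ht : |t| ≤ q / 2 - 2 / q - 1) {T : (ℝ × ℝ) ≃ᵃ[ℝ] (ℝ × ℝ)}
    (hT : ∀ X, area (T '' X) = area X) : IsCritical (T '' pentagon q t) := by
  have hA := area_pentagon hq ht
  have hq0 := q_pos hq
  refine ⟨?_, by rw [hT, hA]; linarith, (Finset.univ.image (vert q t)).image T, ?_, ?_, ?_⟩
  · apply isConvexFigure_of_area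
    · apply image_compact
      rw [pentagon_eq]
      exact Set.Finite.isCompact_convexHull (𝕜 := ℝ) (Set.finite_range _)
    · apply image_convex
      rw [pentagon_eq]
      exact convex_convexHull ℝ _
    · rw [hT, hA]; linarith
  · rw [Finset.coe_image, coe_vert]
    apply Set.image_mono
    rw [pentagon_eq]
    exact subset_convexHull ℝ _
  · rw [card_image_equiv, card_vert hq ht]
  · exact (large_vert hq ht).image T (fun X => (hT X).ge)

/-- Every critical figure contains the image of a critical pentagon under an affine map that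
preserves areas. -/
theorem IsCritical.exists_pentagon {K : Set (ℝ × ℝ)} (hK : IsCritical K) :
    ∃ (T : (ℝ × ℝ) ≃ᵃ[ℝ] (ℝ × ℝ)) (q t : ℝ), (∀ X, area (T '' X) = area X) ∧ 1 + √5 ≤ q ∧
      q < 4 ∧ |t| ≤ q / 2 - 2 / q - 1 ∧ T '' pentagon q t ⊆ K := by
  obtain ⟨⟨hF, hc, -⟩, hA, X, hX, hcard, hlarge⟩ := hK
  obtain ⟨p, hp, hbig⟩ := Large.exists_big hlarge hcard hF hc hX hA
  obtain ⟨a, b, c, d, e, hmin⟩ := exists_isMin hF (hbig.adm (fun i => hX (hp i)))
  have ht : total a b c d e < 4 * 2 := by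
    have := total_le hF hc (by norm_num) hmin.1
    linarith
  obtain ⟨a, b, c, d, e, hadm, h1, h2, h4⟩ := hmin.exists_tight hc (by norm_num) ht
  obtain ⟨T, q, t, ⟨hq, hq4, ht', hsub, -⟩, hs⟩ :=
    normal_form_scale hF hc (by norm_num) (by linarith) hadm h1 h2 h4
  have hT : ∀ X, area (T '' X) = area X := by
    intro X
    rw [hs X]
    norm_num
  refine ⟨T.symm, q, t, area_symm hT, hq, hq4, ht', ?_⟩
  have := Set.image_mono (f := T.symm) hsub
  rwa [image_symm_image] at this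

/-- Critical figures in a critical pentagon. -/
theorem isCritical_subset {K : Set (ℝ × ℝ)} (hK : IsCritical K) {q t : ℝ} (hq : 1 + √5 ≤ q)
    (hq4 : q < 4) (ht : |t| ≤ q / 2 - 2 / q - 1) {T : (ℝ × ℝ) ≃ᵃ[ℝ] (ℝ × ℝ)}
    (hT : ∀ X, area (T '' X) = area X) (hsub : K ⊆ T '' pentagon q t) :
    T '' pentagon q t ⊆ K := by
  obtain ⟨⟨hF, hc, -⟩, hA, X, hX, hcard, hlarge⟩ := hK
  have h1 : X.image T.symm = Finset.univ.image (vert q t) := by
    apply five_points hq hq4 ht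
    · rw [Finset.coe_image]
      have := Set.image_mono (f := T.symm) (hX.trans hsub)
      rwa [image_symm_image] at this
    · rw [card_image_equiv, hcard]
    · exact Large.image hlarge T.symm (fun X => (area_symm hT X).ge)
  have h2 : T '' (Set.range (vert q t)) ⊆ K := by
    rw [← coe_vert, ← h1, Finset.coe_image, symm_image_image]
    exact hX
  rw [pentagon_eq, image_hull]
  exact convexHull_min h2 hc

/-- The minimal critical figures. -/
theorem minimal_iff (K : Set (ℝ × ℝ)) : Minimal IsCritical K ↔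
    ∃ (T : (ℝ × ℝ) ≃ᵃ[ℝ] (ℝ × ℝ)) (q t : ℝ), (∀ X, area (T '' X) = area X) ∧ 1 + √5 ≤ q ∧
      q < 4 ∧ |t| ≤ q / 2 - 2 / q - 1 ∧ K = T '' pentagon q t := by
  constructor
  · intro h
    obtain ⟨T, q, t, hT, hq, hq4, ht, hsub⟩ := h.prop.exists_pentagon
    exact ⟨T, q, t, hT, hq, hq4, ht, le_antisymm (h.le_of_le (isCritical_image hq hq4 ht hT) hsub)
      hsub⟩
  · rintro ⟨T, q, t, hT, hq, hq4, ht, rfl⟩
    refine ⟨isCritical_image hq hq4 ht hT, ?_⟩
    intro K hK hsub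
    exact isCritical_subset hK hq hq4 ht hT hsub

/-- `S(F) = 6` if and only if some affine image of `F` of area less than four contains a minimal
critical figure. -/
theorem S_eq_six_iff_minimal {F : Set (ℝ × ℝ)} (hF : IsConvexFigure F) : S F = 6 ↔
    ∃ (T : (ℝ × ℝ) ≃ᵃ[ℝ] (ℝ × ℝ)) (K : Set (ℝ × ℝ)), Minimal IsCritical K ∧ K ⊆ T '' F ∧
      area (T '' F) < 4 := by
  rw [S_eq_six_iff hF.1 hF.2.1]
  constructor
  · intro h
    obtain ⟨T, q, t, hq, hq4, ht, hsub, hA⟩ := exists_normal_form hF.1 hF.2.1 h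
    refine ⟨T, pentagon q t, ?_, hsub, hA⟩
    rw [minimal_iff]
    refine ⟨AffineEquiv.refl ℝ _, q, t, ?_, hq, hq4, ht, ?_⟩
    · intro X; simp
    · simp
  · rintro ⟨T, K, hK, hsub, hA⟩
    obtain ⟨T', q, t, hT', hq, hq4, ht, rfl⟩ := (minimal_iff K).mp hK
    have h1 : pentagon q t ⊆ (T.trans T'.symm) '' F := by
      have := Set.image_mono (f := T'.symm) hsub
      rw [image_symm_image, Set.image_image] at this
      exact this
    refine not_hasSmallTriangle_five (T.trans T'.symm) hq ht h1 ?_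
    have h2 : (T.trans T'.symm) '' F = T'.symm '' (T '' F) := by
      rw [Set.image_image]; rfl
    rw [h2, area_symm hT']
    exact hA

end Pool.Agent.MP_83ee93_co
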