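import Pool.Agent.Lib.MP_83ee93_co.Nest

/-!
# MP_83ee93_co: the vertices of a pentagon beyond the vertices of an inner pentagon are in the
same cyclic order
-/

set_option autoImplicit false

open MeasureTheory

namespace Pool.Agent.MP_83ee93_co

variable {b : Fin 5 → ℝ × ℝ} {F : Set (ℝ × ℝ)}

theorem phi_combo (b : Fin 5 → ℝ × ℝ) (j : Fin 5) (x y : ℝ × ℝ) (s t : ℝ) (h : s + t = 1) :
    phi b j (s • x + t • y) = s * phi b j x + t * phi b j y := by
  unfold phi gf
  rw [D_combo _ _ _ _ _ _ h, D_combo _ _ _ _ _ _ h]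
  ring

theorem phi_self (b : Fin 5 → ℝ × ℝ) (j : Fin 5) : phi b j (b j) = 0 := by
  have h : j + 4 + 1 = j := by revert j; decide
  unfold phi gf
  rw [h, D_self_right, D_self_mid]
  ring

theorem exists_serve {v : Fin 5 → ℝ × ℝ} {j : Fin 5} (hb : b j ∈ convexHull ℝ (Set.range v)) :
    ∃ k, 0 ≤ phi b j (v k) := by
  by_contra hcon
  push Not at hcon
  have hconv : Convex ℝ {p | phi b j p < 0} := by
    intro x hx y hy s t hs ht hst
    simp only [Set.mem_ofPred_eq] at *
    rw [phi_combo _ _ _ _ _ _ hst]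
    rcases lt_or_eq_of_le hs with h | h
    · have h1 := mul_neg_of_pos_of_neg h hx
      have h2 := mul_nonpos_of_nonneg_of_nonpos ht hy.le
      linarith
    · have h1 : t = 1 := by linarith
      rw [← h, h1]
      linarith
  have hsub : convexHull ℝ (Set.range v) ⊆ {p | phi b j p < 0} := by
    apply convexHull_min _ hconv
    rintro _ ⟨k, rfl⟩
    exact hcon k
  have := hsub hb
  simp only [Set.mem_ofPred_eq, phi_self, lt_irrefl] at this

theorem serve_unique (h : Big b) (hF : IsCompact F) (hc : Convex ℝ F) (hb : ∀ i, b i ∈ F)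
    (hA : area F < 4) {x : ℝ × ℝ} (hx : x ∈ F) {i j : Fin 5} (hi : 0 ≤ phi b i x)
    (hj : 0 ≤ phi b j x) : i = j := by
  have adj : ∀ i : Fin 5, 0 ≤ phi b i x → 0 ≤ phi b (i + 1) x → False := by
    intro i h0 h1
    refine (h.rotb i).adjacent0 hF hc (fun k => hb _) hA hx ?_ ?_
    · rw [phi_rotb, zero_add]; exact h0
    · rw [phi_rotb, add_comm]; exact h1
  have opp : ∀ i : Fin 5, 0 ≤ phi b i x → 0 ≤ phi b (i + 2) x → False := by
    intro i h0 h1
    refine (h.rotb i).opposite0 hF hc (fun k => hb _) hA hx ?_ ?_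
    · rw [phi_rotb, zero_add]; exact h0
    · rw [phi_rotb, add_comm]; exact h1
  by_contra hne
  have key : ∀ i j : Fin 5, i ≠ j → j = i + 1 ∨ j = i + 2 ∨ i = j + 1 ∨ i = j + 2 := by decide
  rcases key i j hne with rfl | rfl | rfl | rfl
  · exact adj _ hi hj
  · exact opp _ hi hj
  · exact adj _ hj hi
  · exact opp _ hj hi

/-- The vertices `A j` are extreme in the direction of `phi j`. -/
def Ext (b A : Fin 5 → ℝ × ℝ) : Prop := ∀ i j, i ≠ j → phi b j (A i) < phi b j (A j)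

theorem Ext.rotb {A : Fin 5 → ℝ × ℝ} (h : Ext b A) (s : Fin 5) : Ext (rotb b s) (rotb A s) := by
  intro i j hij
  rw [phi_rotb, phi_rotb, rotb_apply, rotb_apply]
  exact h _ _ (fun h' => hij (add_right_cancel h'))

theorem Ext.ear0 (h : Big b) {A : Fin 5 → ℝ × ℝ} (hE : Ext b A) : 0 < D (A 0) (A 1) (A 2) := by
  obtain ⟨c0, c1, c2, c3, c4⟩ := h.cores
  obtain ⟨e0, e1, e2, e3, e4⟩ := h.ears
  have t1 : tot b - D (b 2) (b 3) (b 4) = D (b 0) (b 1) (b 2) + D (b 4) (b 0) (b 2) := by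
    unfold tot total D; ring
  have t2 : tot b - D (b 3) (b 4) (b 0) = D (b 1) (b 2) (b 3) + D (b 0) (b 1) (b 3) := by
    unfold tot total D; ring
  have x1 := hE 0 1 (by decide)
  have x2 := hE 1 2 (by decide)
  have x3 := hE 2 1 (by decide)
  have x4 := hE 1 0 (by decide)
  have i1 : (phi b 1 (A 1) - phi b 1 (A 0)) * D (b 3) (b 4) (b 1)
      = (tot b - D (b 3) (b 4) (b 0)) * (phi b 0 (A 1) - phi b 0 (A 0))
        + (tot b - D (b 2) (b 3) (b 4)) * (phi b 2 (A 1) - phi b 2 (A 0)) := by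
    rw [phi1, phi1, phi0, phi0, phi2, phi2]
    unfold tot total D; ring
  have i2 : (tot b - D (b 3) (b 4) (b 0)) * D (A 0) (A 1) (A 2)
      = (phi b 1 (A 1) - phi b 1 (A 0)) * (phi b 2 (A 2) - phi b 2 (A 1))
        - (phi b 1 (A 2) - phi b 1 (A 1)) * (phi b 2 (A 1) - phi b 2 (A 0)) := by
    rw [phi1, phi1, phi1, phi2, phi2, phi2]
    unfold tot total D; ring
  have p1 : 0 < (phi b 1 (A 1) - phi b 1 (A 0)) * D (b 3) (b 4) (b 1) :=
    mul_pos (by linarith) (by linarith)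
  have p2 : 0 < (tot b - D (b 3) (b 4) (b 0)) * (phi b 0 (A 0) - phi b 0 (A 1)) :=
    mul_pos (by linarith) (by linarith)
  have p3 : 0 < (tot b - D (b 2) (b 3) (b 4)) * (phi b 2 (A 1) - phi b 2 (A 0)) := by
    linarith
  have p4 : 0 < phi b 2 (A 1) - phi b 2 (A 0) :=
    (mul_pos_iff_of_pos_left (by linarith)).mp p3
  have p5 : 0 < (phi b 1 (A 1) - phi b 1 (A 0)) * (phi b 2 (A 2) - phi b 2 (A 1)) :=
    mul_pos (by linarith) (by linarith)
  have p6 : 0 < (phi b 1 (A 1) - phi b 1 (A 2)) * (phi b 2 (A 1) - phi b 2 (A 0)) :=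
    mul_pos (by linarith) p4
  have p7 : 0 < (tot b - D (b 3) (b 4) (b 0)) * D (A 0) (A 1) (A 2) := by
    rw [i2]; linarith
  exact (mul_pos_iff_of_pos_left (by linarith)).mp p7

theorem three_normals {x y a c k1 k3 : ℝ} (hk1 : 0 < k1) (hk3 : 0 < k3) (hx : 0 < x) (hy : 0 < y)
    (hax : a < x) (hcy : c < y) (h1 : 0 < k1 * x + k3 * c) (h2 : 0 < k1 * a + k3 * y) :
    0 < x * y - a * c := by
  rcases le_or_gt 0 a with ha | ha
  · rcases le_or_gt 0 c with hc | hc
    · have : a * c ≤ a * y := mul_le_mul_of_nonneg_left hcy.le ha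
      have : a * y < x * y := mul_lt_mul_of_pos_right hax hy
      linarith
    · have : a * c ≤ 0 := mul_nonpos_of_nonneg_of_nonpos ha hc.le
      have : 0 < x * y := mul_pos hx hy
      linarith
  · rcases le_or_gt 0 c with hc | hc
    · have : a * c ≤ 0 := mul_nonpos_of_nonpos_of_nonneg ha.le hc
      have : 0 < x * y := mul_pos hx hy
      linarith
    · have q1 : k3 * (-c) < k1 * x := by linarith
      have q2 : k1 * (-a) < k3 * y := by linarith
      have q3 : (k3 * (-c)) * (k1 * (-a)) < (k1 * x) * (k3 * y) :=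
        mul_lt_mul'' q1 q2 (by nlinarith) (by nlinarith)
      have q4 : 0 < (k1 * k3) * (x * y - a * c) := by nlinarith
      exact (mul_pos_iff_of_pos_left (mul_pos hk1 hk3)).mp q4

theorem Ext.core0 (h : Big b) {A : Fin 5 → ℝ × ℝ} (hE : Ext b A) : 0 < D (A 0) (A 1) (A 3) := by
  obtain ⟨c0, c1, c2, c3, c4⟩ := h.cores
  obtain ⟨e0, e1, e2, e3, e4⟩ := h.ears
  have t1 : tot b - D (b 2) (b 3) (b 4) = D (b 0) (b 1) (b 2) + D (b 4) (b 0) (b 2) := by
    unfold tot total D; ring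
  have x1 := hE 0 1 (by decide)
  have x2 := hE 0 3 (by decide)
  have x3 := hE 3 1 (by decide)
  have x4 := hE 1 3 (by decide)
  have x5 := hE 1 0 (by decide)
  have x6 := hE 3 0 (by decide)
  have i1 : D (b 4) (b 0) (b 2) * (phi b 0 (A 1) - phi b 0 (A 0))
      + D (b 1) (b 2) (b 4) * (phi b 1 (A 1) - phi b 1 (A 0))
      + (tot b - D (b 2) (b 3) (b 4)) * (phi b 3 (A 1) - phi b 3 (A 0)) = 0 := by
    rw [phi1, phi1, phi0, phi0, phi3, phi3]
    unfold tot total D; ring
  have i2 : D (b 4) (b 0) (b 2) * (phi b 0 (A 3) - phi b 0 (A 0))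
      + D (b 1) (b 2) (b 4) * (phi b 1 (A 3) - phi b 1 (A 0))
      + (tot b - D (b 2) (b 3) (b 4)) * (phi b 3 (A 3) - phi b 3 (A 0)) = 0 := by
    rw [phi1, phi1, phi0, phi0, phi3, phi3]
    unfold tot total D; ring
  have i3 : D (b 4) (b 0) (b 2) * D (A 0) (A 1) (A 3)
      = (phi b 1 (A 1) - phi b 1 (A 0)) * (phi b 3 (A 3) - phi b 3 (A 0))
        - (phi b 1 (A 3) - phi b 1 (A 0)) * (phi b 3 (A 1) - phi b 3 (A 0)) := by
    rw [phi1, phi1, phi1, phi3, phi3, phi3]
    unfold D; ring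
  have p1 : 0 < D (b 4) (b 0) (b 2) * (phi b 0 (A 0) - phi b 0 (A 1)) :=
    mul_pos (by linarith) (by linarith)
  have p2 : 0 < D (b 4) (b 0) (b 2) * (phi b 0 (A 0) - phi b 0 (A 3)) :=
    mul_pos (by linarith) (by linarith)
  have p3 := three_normals (x := phi b 1 (A 1) - phi b 1 (A 0)) (y := phi b 3 (A 3) - phi b 3 (A 0))
    (a := phi b 1 (A 3) - phi b 1 (A 0)) (c := phi b 3 (A 1) - phi b 3 (A 0))
    (k1 := D (b 1) (b 2) (b 4)) (k3 := tot b - D (b 2) (b 3) (b 4))
    (by linarith) (by linarith) (by linarith) (by linarith) (by linarith) (by linarith)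
    (by linarith) (by linarith)
  rw [← i3] at p3
  exact (mul_pos_iff_of_pos_left (by linarith)).mp p3

theorem Ext.signs (h : Big b) {A : Fin 5 → ℝ × ℝ} (hE : Ext b A) (j : Fin 5) :
    0 < D (A j) (A (j + 1)) (A (j + 2)) ∧ 0 < D (A j) (A (j + 1)) (A (j + 3)) := by
  have h1 := Ext.ear0 (h.rotb j) (hE.rotb j)
  have h2 := Ext.core0 (h.rotb j) (hE.rotb j)
  unfold MP_83ee93_co.rotb at h1 h2
  rw [zero_add, add_comm 1 j, add_comm 2 j] at h1
  rw [zero_add, add_comm 1 j, add_comm 3 j] at h2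
  exact ⟨h1, h2⟩

/-- Three indices in cyclic order. -/
def cycB (i j k : Fin 5) : Bool :=
  (decide (i < j) && decide (j < k)) || (decide (j < k) && decide (k < i)) ||
    (decide (k < i) && decide (i < j))

theorem cyclic_rotation : ∀ a0 a1 a2 a3 a4 : Fin 5, (cycB a0 a1 a2 && (cycB a1 a2 a3 &&
    (cycB a0 a1 a3 && (cycB a2 a3 a4 && (cycB a3 a4 a0 && (cycB a4 a0 a1 && (cycB a1 a2 a4 &&
    (cycB a2 a3 a0 && (cycB a3 a4 a1 && cycB a4 a0 a2))))))))) = true →
    a1 = a0 + 1 ∧ a2 = a0 + 2 ∧ a3 = a0 + 3 ∧ a4 = a0 + 4 := by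
  decide +kernel

/-- A convex pentagon in counterclockwise order. -/
def Ordered (v : Fin 5 → ℝ × ℝ) : Prop :=
  ∀ i j k : Fin 5, i < j → j < k → 2 ≤ D (v i) (v j) (v k)

theorem cycB_total : ∀ i j k : Fin 5, (cycB i j k || (cycB j i k || (decide (i = j) ||
    (decide (i = k) || decide (j = k))))) = true := by
  decide +kernel

theorem Ordered.of_cyc {v : Fin 5 → ℝ × ℝ} (hv : Ordered v) {i j k : Fin 5}
    (h : cycB i j k = true) : 2 ≤ D (v i) (v j) (v k) := by
  unfold cycB at h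
  simp only [Bool.or_eq_true, Bool.and_eq_true, decide_eq_true_eq] at h
  rcases h with (⟨h1, h2⟩ | ⟨h1, h2⟩) | ⟨h1, h2⟩
  · exact hv i j k h1 h2
  · rw [← D_rot]; exact hv j k i h1 h2
  · rw [D_rot]; exact hv k i j h1 h2

theorem Ordered.cyc {v : Fin 5 → ℝ × ℝ} (hv : Ordered v) {i j k : Fin 5}
    (h : 0 < D (v i) (v j) (v k)) : cycB i j k = true := by
  have hij : i ≠ j := by rintro rfl; rw [D_self_left] at h; exact lt_irrefl _ h
  have hik : i ≠ k := by rintro rfl; rw [D_self_mid] at h; exact lt_irrefl _ h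
  have hjk : j ≠ k := by rintro rfl; rw [D_self_right] at h; exact lt_irrefl _ h
  have key := cycB_total i j k
  simp only [Bool.or_eq_true, decide_eq_true_eq] at key
  rcases key with h1 | h1 | h1 | h1 | h1
  · exact h1
  · exfalso
    have h3 := hv.of_cyc h1
    have h4 := D_swap (v i) (v j) (v k)
    linarith
  · exact absurd h1 hij
  · exact absurd h1 hik
  · exact absurd h1 hjk

/-- **Rigidity.** A pentagon with large triangles in a critical pentagon is the critical
pentagon. -/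
theorem rigid {v b : Fin 5 → ℝ × ℝ} (hb : Big b) (hv : Ordered v)
    (hb' : ∀ i, b i ∈ convexHull ℝ (Set.range v)) (hA : area (convexHull ℝ (Set.range v)) < 4)
    (hvt : tot v < 8) (he0 : ear v 0 = 2) (he1 : ear v 1 = 2) (he3 : ear v 3 = 2)
    (hin : ∀ i, ∀ p ∈ convexHull ℝ (Set.range v), 0 ≤ D (v i) (v (i + 1)) p) :
    ∃ s : Fin 5, ∀ i, v (i + s) = b i := by
  have hF : IsCompact (convexHull ℝ (Set.range v)) :=
    Set.Finite.isCompact_convexHull (𝕜 := ℝ) (Set.finite_range v)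
  have hc : Convex ℝ (convexHull ℝ (Set.range v)) := convex_convexHull ℝ _
  have hvF : ∀ i, v i ∈ convexHull ℝ (Set.range v) := fun i => subset_convexHull ℝ _ ⟨i, rfl⟩
  have hbt : tot b < 8 := by
    have := total_le hF hc (by norm_num) (hb.adm hb')
    change tot b ≤ _ at this
    linarith
  have hex : ∀ j, ∃ k, 0 ≤ phi b j (v k) := fun j => exists_serve (hb' j)
  choose k hk using hex
  have hinj : ∀ i j, k i = k j → i = j := by
    intro i j hij
    exact serve_unique hb hF hc hb' hA (hvF (k i)) (hk i) (by rw [hij]; exact hk j)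
  have hExt : Ext b (fun i => v (k i)) := by
    intro i j hij
    have h1 := hk j
    have h2 : phi b j (v (k i)) < 0 := by
      by_contra hcon
      push Not at hcon
      exact hij (serve_unique hb hF hc hb' hA (hvF (k i)) (hk i) hcon)
    exact h2.trans_le h1
  have hsigns := hExt.signs hb
  have s0 := hsigns 0
  have s1 := hsigns 1
  have s2 := hsigns 2
  have s3 := hsigns 3
  have s4 := hsigns 4
  have q1 : cycB (k 0) (k 1) (k 2) = true := hv.cyc s0.1
  have q2 : cycB (k 1) (k 2) (k 3) = true := hv.cyc s1.1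
  have q3 : cycB (k 0) (k 1) (k 3) = true := hv.cyc s0.2
  have q4 : cycB (k 2) (k 3) (k 4) = true := hv.cyc s2.1
  have q5 : cycB (k 3) (k 4) (k 0) = true := hv.cyc s3.1
  have q6 : cycB (k 4) (k 0) (k 1) = true := hv.cyc s4.1
  have q7 : cycB (k 1) (k 2) (k 4) = true := hv.cyc s1.2
  have q8 : cycB (k 2) (k 3) (k 0) = true := hv.cyc s2.2
  have q9 : cycB (k 3) (k 4) (k 1) = true := hv.cyc s3.2
  have q10 : cycB (k 4) (k 0) (k 2) = true := hv.cyc s4.2
  obtain ⟨r1, r2, r3, r4⟩ := cyclic_rotation (k 0) (k 1) (k 2) (k 3) (k 4)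
    (by rw [q1, q2, q3, q4, q5, q6, q7, q8, q9, q10]; rfl)
  have hkj : ∀ j, k j = j + k 0 := by
    intro j
    fin_cases j
    · simp
    · simp only [Fin.mk_one]; rw [r1, add_comm]
    · change k 2 = 2 + k 0; rw [r2, add_comm]
    · change k 3 = 3 + k 0; rw [r3, add_comm]
    · change k 4 = 4 + k 0; rw [r4, add_comm]
  have hfin := nested_eq (v := v) (b := rotb b (-(k 0))) (hb.rotb _) (by rw [tot_rotb]; exact hbt)
    hvt he0 he1 he3 (fun i j => hin i _ (hb' _)) (by
      intro i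
      rw [phi_rotb]
      have h1 := hk (i + -(k 0))
      have h2 := hkj (i + -(k 0))
      rw [neg_add_cancel_right] at h2
      rw [h2] at h1
      exact h1)
  refine ⟨k 0, ?_⟩
  intro i
  have := congrFun hfin (i + k 0)
  rw [rotb_apply, add_neg_cancel_right] at this
  exact this

end Pool.Agent.MP_83ee93_co
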