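import Mathlib

/-!
# MP_83ee93_co: convex figures and small triangles, definitions
-/

set_option autoImplicit false

open MeasureTheory

namespace Pool.Agent.MP_83ee93_co

/-- The area (Lebesgue measure) of a subset of the plane. -/
noncomputable def area (X : Set (ℝ × ℝ)) : ℝ := (volume X).toReal

/-- A convex figure: a compact convex subset of the plane with nonempty interior. -/
def IsConvexFigure (F : Set (ℝ × ℝ)) : Prop :=
  IsCompact F ∧ Convex ℝ F ∧ (interior F).Nonempty

/-- Whenever `n` distinct points are chosen in `F`, some three of them are the vertices of a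
(possibly degenerate) triangle of area at most `|F| / 4`. -/
def HasSmallTriangle (F : Set (ℝ × ℝ)) (n : ℕ) : Prop :=
  ∀ X : Finset (ℝ × ℝ), (X : Set (ℝ × ℝ)) ⊆ F → X.card = n →
    ∃ a ∈ X, ∃ b ∈ X, ∃ c ∈ X, a ≠ b ∧ a ≠ c ∧ b ≠ c ∧
      area (convexHull ℝ {a, b, c}) ≤ area F / 4

/-- `S(F)`: the least positive `n` such that among any `n` points of `F` some three are the
vertices of a triangle of area at most `|F| / 4`. -/
noncomputable def S (F : Set (ℝ × ℝ)) : ℕ := sInf {n | 0 < n ∧ HasSmallTriangle F n}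

/-- The pentagon with vertices `(-1, 0)`, `(1, 0)`, `(q / 2, 1)`, `(c, 1 + 2 / q)` and
`(-q / 2, 1)`. -/
def pentagon (q c : ℝ) : Set (ℝ × ℝ) :=
  convexHull ℝ {(-1, 0), (1, 0), (q / 2, 1), (c, 1 + 2 / q), (-q / 2, 1)}

end Pool.Agent.MP_83ee93_co
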