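import Pool.Agent.Lib.MP_83ee93_co.Cyclic

/-!
# MP_83ee93_co: the minimal critical figures
-/

set_option autoImplicit false

open MeasureTheory

namespace Pool.Agent.MP_83ee93_co

theorem pentagon_eq (q t : ℝ) : pentagon q t = convexHull ℝ (Set.range (vert q t)) := by
  unfold pentagon
  congr 1
  ext p
  simp only [Set.mem_insert_iff, Set.mem_singleton_iff, Set.mem_range]
  constructor
  · rintro (rfl | rfl | rfl | rfl | rfl)
    · exact ⟨0, rfl⟩
    · exact ⟨1, rfl⟩
    · exact ⟨2, rfl⟩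
    · exact ⟨3, rfl⟩
    · exact ⟨4, rfl⟩
  · rintro ⟨i, rfl⟩
    fin_cases i <;> simp [vert]

theorem cycB_next : ∀ i k : Fin 5, (cycB i (i + 1) k || (decide (k = i) ||
    decide (k = i + 1))) = true := by
  decide +kernel

theorem Ordered.edge_nonneg {v : Fin 5 → ℝ × ℝ} (hv : Ordered v) (i : Fin 5) :
    ∀ p ∈ convexHull ℝ (Set.range v), 0 ≤ D (v i) (v (i + 1)) p := by
  have hsub : convexHull ℝ (Set.range v) ⊆ {p | 0 ≤ D (v i) (v (i + 1)) p} := by
    apply convexHull_min _ (convex_D_nonneg _ _)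
    rintro _ ⟨k, rfl⟩
    have key := cycB_next i k
    simp only [Bool.or_eq_true, decide_eq_true_eq] at key
    simp only [Set.mem_ofPred_eq]
    rcases key with h | h | h
    · have := hv.of_cyc h
      linarith
    · rw [h, D_self_mid]
    · rw [h, D_self_right]
  exact fun p hp => hsub hp

theorem mem_triangle {a b c p : ℝ × ℝ} (h : 0 < D a b c) (h1 : 0 ≤ D a b p) (h2 : 0 ≤ D b c p)
    (h3 : 0 ≤ D c a p) : p ∈ convexHull ℝ ({a, b, c} : Set (ℝ × ℝ)) := by
  have hp : p = (D b c p / D a b c) • a + (D c a p / D a b c) • b + (D a b p / D a b c) • c := by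
    have e1 : D b c p * a.1 + D c a p * b.1 + D a b p * c.1 = D a b c * p.1 := by unfold D; ring
    have e2 : D b c p * a.2 + D c a p * b.2 + D a b p * c.2 = D a b c * p.2 := by unfold D; ring
    ext
    · simp only [Prod.fst_add, Prod.smul_fst, smul_eq_mul]
      field_simp
      linarith
    · simp only [Prod.snd_add, Prod.smul_snd, smul_eq_mul]
      field_simp
      linarith
  rw [hp]
  apply mem_of_three (convex_convexHull ℝ _) (subset_convexHull ℝ _ (by simp))
    (subset_convexHull ℝ _ (by simp)) (subset_convexHull ℝ _ (by simp))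
    (div_nonneg h2 h.le) (div_nonneg h3 h.le) (div_nonneg h1 h.le)
  rw [← add_div, ← add_div, div_eq_one_iff_eq h.ne']
  unfold D
  ring

theorem Ordered.area_le {v : Fin 5 → ℝ × ℝ} (hv : Ordered v) :
    area (convexHull ℝ (Set.range v)) ≤ tot v / 2 := by
  have d1 : 0 < D (v 0) (v 1) (v 2) := by linarith [hv 0 1 2 (by decide) (by decide)]
  have d2 : 0 < D (v 0) (v 2) (v 3) := by linarith [hv 0 2 3 (by decide) (by decide)]
  have d3 : 0 < D (v 0) (v 3) (v 4) := by linarith [hv 0 3 4 (by decide) (by decide)]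
  have hsub : convexHull ℝ (Set.range v) ⊆ (convexHull ℝ {v 0, v 1, v 2} ∪
      convexHull ℝ {v 0, v 2, v 3}) ∪ convexHull ℝ {v 0, v 3, v 4} := by
    intro p hp
    have s0 : 0 ≤ D (v 0) (v 1) p := hv.edge_nonneg 0 p hp
    have s1 : 0 ≤ D (v 1) (v 2) p := hv.edge_nonneg 1 p hp
    have s2 : 0 ≤ D (v 2) (v 3) p := hv.edge_nonneg 2 p hp
    have s3 : 0 ≤ D (v 3) (v 4) p := hv.edge_nonneg 3 p hp
    have s4 : 0 ≤ D (v 4) (v 0) p := hv.edge_nonneg 4 p hp
    rcases le_or_gt (D (v 0) (v 2) p) 0 with h1 | h1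
    · left; left
      apply mem_triangle d1 s0 s1
      have : D (v 2) (v 0) p = - D (v 0) (v 2) p := D_swap _ _ _
      linarith
    rcases le_or_gt (D (v 0) (v 3) p) 0 with h2 | h2
    · left; right
      apply mem_triangle d2 h1.le s2
      have : D (v 3) (v 0) p = - D (v 0) (v 3) p := D_swap _ _ _
      linarith
    · right
      exact mem_triangle d3 h2.le s3 s4
  have hfin : ∀ a b c : ℝ × ℝ, volume (convexHull ℝ ({a, b, c} : Set (ℝ × ℝ))) ≠ ⊤ := by
    intro a b c
    exact (Set.Finite.isCompact_convexHull (𝕜 := ℝ) (Set.toFinite _)).measure_lt_top.ne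
  have h1 : area (convexHull ℝ (Set.range v)) ≤ area ((convexHull ℝ {v 0, v 1, v 2} ∪
      convexHull ℝ {v 0, v 2, v 3}) ∪ convexHull ℝ {v 0, v 3, v 4}) := by
    apply ENNReal.toReal_mono _ (measure_mono hsub)
    exact (measure_union_lt_top (measure_union_lt_top (lt_top_iff_ne_top.mpr (hfin _ _ _))
      (lt_top_iff_ne_top.mpr (hfin _ _ _))) (lt_top_iff_ne_top.mpr (hfin _ _ _))).ne
  have h2 := measureReal_union_le (μ := (volume : Measure (ℝ × ℝ)))
    (convexHull ℝ {v 0, v 1, v 2} ∪ convexHull ℝ {v 0, v 2, v 3}) (convexHull ℝ {v 0, v 3, v 4})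
  have h3 := measureReal_union_le (μ := (volume : Measure (ℝ × ℝ)))
    (convexHull ℝ {v 0, v 1, v 2}) (convexHull ℝ {v 0, v 2, v 3})
  have a1 := area_triangle (v 0) (v 1) (v 2)
  have a2 := area_triangle (v 0) (v 2) (v 3)
  have a3 := area_triangle (v 0) (v 3) (v 4)
  rw [abs_of_pos d1] at a1
  rw [abs_of_pos d2] at a2
  rw [abs_of_pos d3] at a3
  unfold area at h1 a1 a2 a3 ⊢
  unfold Measure.real at h2 h3
  have a4 : tot v = D (v 0) (v 1) (v 2) + D (v 0) (v 2) (v 3) + D (v 0) (v 3) (v 4) := rfl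
  linarith

theorem Ordered.big {v : Fin 5 → ℝ × ℝ} (hv : Ordered v) : Big v := by
  have k1 : ∀ j : Fin 5, cycB (j + 4) j (j + 1) = true := by decide
  have k2 : ∀ j : Fin 5, cycB j (j + 1) (j + 3) = true := by decide
  exact ⟨fun j => hv.of_cyc (k1 j), fun j => hv.of_cyc (k2 j)⟩

theorem Ordered.area_eq {v : Fin 5 → ℝ × ℝ} (hv : Ordered v) :
    area (convexHull ℝ (Set.range v)) = tot v / 2 := by
  apply le_antisymm hv.area_le
  have := total_le (F := convexHull ℝ (Set.range v))
    (Set.Finite.isCompact_convexHull (𝕜 := ℝ) (Set.finite_range v))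
    (convex_convexHull ℝ _) (by norm_num) (hv.big.adm
      (fun i => subset_convexHull ℝ _ (Set.mem_range_self i)))
  change tot v ≤ _ at this
  linarith

section Vert

variable {q t : ℝ}

theorem tot_vert (hq : q ≠ 0) : tot (vert q t) = 4 + q := by
  simp only [tot, total, D, vert, Matrix.cons_val_zero, Matrix.cons_val_one, Matrix.cons_val]
  field_simp
  ring

theorem ear0_vert : ear (vert q t) 0 = 2 := by
  rw [ear0]
  simp only [D, vert, Matrix.cons_val_zero, Matrix.cons_val_one, Matrix.cons_val]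
  ring

theorem ear1_vert : ear (vert q t) 1 = 2 := by
  rw [ear1]
  simp only [D, vert, Matrix.cons_val_zero, Matrix.cons_val_one, Matrix.cons_val]
  ring

theorem ear3_vert (hq : q ≠ 0) : ear (vert q t) 3 = 2 := by
  rw [ear3]
  simp only [D, vert, Matrix.cons_val]
  field_simp
  ring

theorem q_pos (hq : 1 + √5 ≤ q) : 0 < q := by
  have := Real.sqrt_nonneg 5
  linarith

theorem area_pentagon (hq : 1 + √5 ≤ q) (ht : |t| ≤ q / 2 - 2 / q - 1) :
    area (pentagon q t) = 2 + q / 2 := by
  rw [pentagon_eq, Ordered.area_eq (D_vert_ordered hq ht), tot_vert (q_pos hq).ne']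
  ring

/-- All triangles with vertices in `X` have area at least one. -/
def Large (X : Finset (ℝ × ℝ)) : Prop :=
  ∀ a ∈ X, ∀ b ∈ X, ∀ c ∈ X, a ≠ b → a ≠ c → b ≠ c → 1 ≤ area (convexHull ℝ {a, b, c})

theorem Large.allBig {X : Finset (ℝ × ℝ)} (h : Large X) {F : Set (ℝ × ℝ)} (hF : area F < 4) :
    AllBig F (X : Set (ℝ × ℝ)) := by
  intro a ha b hb c hc h1 h2 h3
  have := h a ha b hb c hc h1 h2 h3
  rw [area_triangle] at this
  linarith

theorem Large.big {X : Finset (ℝ × ℝ)} (h : Large X) {p : Fin 5 → ℝ × ℝ} (hp : ∀ i, p i ∈ X)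
    (hP : P5 (p 0) (p 1) (p 2) (p 3) (p 4)) : Big p := by
  obtain ⟨g1, g2, g3, g4, g5, g6, g7, g8, g9, g10⟩ := hP
  have big : ∀ x y z, x ∈ X → y ∈ X → z ∈ X → 0 < D x y z → 2 ≤ D x y z := by
    intro x y z hx hy hz h0
    obtain ⟨n1, n2, n3⟩ := ne_of_D h0.ne'
    have := h x hx y hy z hz n1 n2 n3
    rw [area_triangle, abs_of_pos h0] at this
    linarith
  constructor
  · intro j
    apply big _ _ _ (hp _) (hp _) (hp _)
    fin_cases j
    · change 0 < D (p 4) (p 0) (p 1); rw [← D_rot]; exact g3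
    · exact g1
    · exact g7
    · exact g10
    · change 0 < D (p 3) (p 4) (p 0); rw [D_rot]; exact g6
  · intro j
    apply big _ _ _ (hp _) (hp _) (hp _)
    fin_cases j
    · exact g2
    · exact g8
    · change 0 < D (p 2) (p 3) (p 0); rw [D_rot]; exact g4
    · change 0 < D (p 3) (p 4) (p 1); rw [D_rot]; exact g9
    · change 0 < D (p 4) (p 0) (p 2); rw [← D_rot]; exact g5

/-- Five points without small triangles in a figure of area less than four form a pentagon. -/
theorem Large.exists_big {X : Finset (ℝ × ℝ)} (h : Large X) (hcard : X.card = 5)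
    {F : Set (ℝ × ℝ)} (hF : IsCompact F) (hc : Convex ℝ F) (hX : (X : Set (ℝ × ℝ)) ⊆ F)
    (hA : area F < 4) : ∃ p : Fin 5 → ℝ × ℝ, (∀ i, p i ∈ X) ∧ Big p := by
  obtain ⟨a, b, c, d, e, ⟨ma, mb, mc, md, me⟩, hP⟩ :=
    exists_pentagon hF hc hX (h.allBig hA) (by omega)
  have hp : ∀ i, (![a, b, c, d, e] : Fin 5 → ℝ × ℝ) i ∈ X := by
    intro i; fin_cases i <;> simpa
  exact ⟨![a, b, c, d, e], hp, h.big hp hP⟩

theorem Ordered.injective {v : Fin 5 → ℝ × ℝ} (hv : Ordered v) : Function.Injective v := by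
  intro i j hij
  by_contra hne
  have key : ∀ i j : Fin 5, ∃ k : Fin 5, (decide (i = j) || (cycB i j k || cycB j i k)) = true := by
    decide
  obtain ⟨k, hk⟩ := key i j
  simp only [Bool.or_eq_true, decide_eq_true_eq] at hk
  rcases hk with h | h | h
  · exact hne h
  · have := hv.of_cyc h
    rw [hij, D_self_left] at this
    norm_num at this
  · have := hv.of_cyc h
    rw [hij, D_self_left] at this
    norm_num at this

/-- The only five points of a critical pentagon without small triangles are its vertices. -/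
theorem five_points (hq : 1 + √5 ≤ q) (hq4 : q < 4) (ht : |t| ≤ q / 2 - 2 / q - 1)
    {X : Finset (ℝ × ℝ)} (hX : (X : Set (ℝ × ℝ)) ⊆ pentagon q t) (hcard : X.card = 5)
    (h : Large X) : X = Finset.univ.image (vert q t) := by
  have hv : Ordered (vert q t) := D_vert_ordered hq ht
  have hA : area (pentagon q t) < 4 := by rw [area_pentagon hq ht]; linarith
  rw [pentagon_eq] at hX hA
  obtain ⟨p, hp, hbig⟩ := h.exists_big hcard
    (Set.Finite.isCompact_convexHull (𝕜 := ℝ) (Set.finite_range (vert q t)))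
    (convex_convexHull ℝ _) hX hA
  have hq0 := (q_pos hq).ne'
  obtain ⟨s, hs⟩ := rigid hbig hv (fun i => hX (hp i)) hA (by rw [tot_vert hq0]; linarith)
    ear0_vert ear1_vert (ear3_vert hq0) hv.edge_nonneg
  symm
  apply Finset.eq_of_subset_of_card_le
  · intro x hx
    simp only [Finset.mem_image, Finset.mem_univ, true_and] at hx
    obtain ⟨i, rfl⟩ := hx
    have := hs (i + -s)
    rw [neg_add_cancel_right] at this
    rw [this]
    exact hp _
  · rw [Finset.card_image_of_injective _ hv.injective, hcard]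
    simp

end Vert

end Pool.Agent.MP_83ee93_co
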