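import Pool.Agent.Lib.MP_83ee93_co.Minimal

/-!
# MP_83ee93_co: the characterisation of the convex figures with `S(F) = 6`
-/

set_option autoImplicit false

open MeasureTheory

namespace Pool.Agent.MP_83ee93_co

variable {F : Set (ℝ × ℝ)} {M : ℝ}

theorem continuous_D {α : Type} [TopologicalSpace α] {f g h : α → ℝ × ℝ} (hf : Continuous f)
    (hg : Continuous g) (hh : Continuous h) : Continuous (fun x => D (f x) (g x) (h x)) := by
  unfold D
  fun_prop

theorem exists_isMin (hF : IsCompact F) {a b c d e : ℝ × ℝ} (h : Adm F M a b c d e) :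
    ∃ a b c d e, IsMin F M a b c d e := by
  let T : Type := (ℝ × ℝ) × (ℝ × ℝ) × (ℝ × ℝ) × (ℝ × ℝ) × (ℝ × ℝ)
  let C : Set T := {x | (M ≤ D x.2.2.2.2 x.1 x.2.1 ∧ M ≤ D x.1 x.2.1 x.2.2.1 ∧
      M ≤ D x.2.1 x.2.2.1 x.2.2.2.1 ∧ M ≤ D x.2.2.1 x.2.2.2.1 x.2.2.2.2 ∧
      M ≤ D x.2.2.2.1 x.2.2.2.2 x.1) ∧
      (0 ≤ D x.1 x.2.1 x.2.2.2.1 ∧ 0 ≤ D x.2.1 x.2.2.1 x.2.2.2.2 ∧ 0 ≤ D x.2.2.1 x.2.2.2.1 x.1 ∧
      0 ≤ D x.2.2.2.1 x.2.2.2.2 x.2.1 ∧ 0 ≤ D x.2.2.2.2 x.1 x.2.2.1)}
  have hC : IsClosed C := by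
    have key : ∀ (r : ℝ) (f g k : T → ℝ × ℝ), Continuous f → Continuous g → Continuous k →
        IsClosed {x | r ≤ D (f x) (g x) (k x)} := by
      intro r f g k hf hg hk
      exact isClosed_le continuous_const (continuous_D hf hg hk)
    refine IsClosed.and ?_ ?_
    · refine (key _ _ _ _ ?_ ?_ ?_).and ((key _ _ _ _ ?_ ?_ ?_).and ((key _ _ _ _ ?_ ?_ ?_).and
        ((key _ _ _ _ ?_ ?_ ?_).and (key _ _ _ _ ?_ ?_ ?_)))) <;> fun_prop
    · refine (key _ _ _ _ ?_ ?_ ?_).and ((key _ _ _ _ ?_ ?_ ?_).and ((key _ _ _ _ ?_ ?_ ?_).and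
        ((key _ _ _ _ ?_ ?_ ?_).and (key _ _ _ _ ?_ ?_ ?_)))) <;> fun_prop
  have hK : IsCompact ((F ×ˢ F ×ˢ F ×ˢ F ×ˢ F : Set T) ∩ C) :=
    (hF.prod (hF.prod (hF.prod (hF.prod hF)))).inter_right hC
  have hne : ((F ×ˢ F ×ˢ F ×ˢ F ×ˢ F : Set T) ∩ C).Nonempty := by
    obtain ⟨⟨m1, m2, m3, m4, m5⟩, h2, h3⟩ := h
    exact ⟨(a, b, c, d, e), ⟨m1, m2, m3, m4, m5⟩, h2, h3⟩
  have hcont : Continuous (fun x : T => total x.1 x.2.1 x.2.2.1 x.2.2.2.1 x.2.2.2.2) := by
    unfold total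
    refine ((continuous_D ?_ ?_ ?_).add (continuous_D ?_ ?_ ?_)).add (continuous_D ?_ ?_ ?_) <;>
      fun_prop
  obtain ⟨x, hx, hmin⟩ := hK.exists_isMinOn hne hcont.continuousOn
  refine ⟨x.1, x.2.1, x.2.2.1, x.2.2.2.1, x.2.2.2.2, ?_, ?_⟩
  · exact ⟨⟨hx.1.1, hx.1.2.1, hx.1.2.2.1, hx.1.2.2.2.1, hx.1.2.2.2.2⟩, hx.2.1, hx.2.2⟩
  · rintro a' b' c' d' e' ⟨⟨m1, m2, m3, m4, m5⟩, h2, h3⟩
    exact hmin (show (a', b', c', d', e') ∈ (F ×ˢ F ×ˢ F ×ˢ F ×ˢ F : Set T) ∩ C from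
      ⟨⟨m1, m2, m3, m4, m5⟩, h2, h3⟩)

/-- The area of a convex pentagon in `F` is at most that of `F`. -/
theorem total_le (hF : IsCompact F) (hc : Convex ℝ F) (hM : 0 < M) {a b c d e : ℝ × ℝ}
    (h : Adm F M a b c d e) : total a b c d e ≤ 2 * area F := by
  obtain ⟨⟨m1, m2, m3, m4, m5⟩, ⟨e1, e2, e3, e4, e5⟩, ⟨f1, f2, f3, f4, f5⟩⟩ := h
  have p2 : 0 < D a b c := by linarith
  have p5 : 0 < D d e a := by linarith
  have n2 := ne_of_D p2.ne'
  have n5 := ne_of_D p5.ne'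
  have r1 : D c a b = D a b c := (D_rot _ _ _).symm
  have r3 : D a c d = D c d a := (D_rot _ _ _).symm
  have r4 : D a d e = D d e a := (D_rot _ _ _).symm
  have r5 : D c a d = - D c d a := by unfold D; ring
  have r6 : D c a e = - D e a c := by unfold D; ring
  have r7 : D d a c = D c d a := D_rot _ _ _
  have r8 : D d a e = - D d e a := by unfold D; ring
  have := three_tri hF hc m1 m2 m3 m1 m3 m4 m1 m4 m5
    ⟨c, a, n2.2.1.symm, ⟨by rw [D_self_right], by rw [r1]; exact p2.le, by rw [D_self_mid]⟩,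
      ⟨by rw [D_self_right], by rw [D_self_mid], by rw [r5]; linarith⟩⟩
    ⟨c, a, n2.2.1.symm, ⟨by rw [D_self_right], by rw [r1]; exact p2.le, by rw [D_self_mid]⟩,
      ⟨by rw [D_self_right], by rw [r5]; linarith, by rw [r6]; linarith⟩⟩
    ⟨d, a, n5.2.1, ⟨by rw [D_self_right], by rw [r7]; linarith, by rw [D_self_mid]⟩,
      ⟨by rw [D_self_right], by rw [D_self_mid], by rw [r8]; linarith⟩⟩
  rw [abs_of_pos p2, abs_of_nonneg (by rw [r3]; exact f3), abs_of_nonneg (by rw [r4]; exact p5.le)]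
    at this
  exact this

theorem image_convexHull_triple (T : (ℝ × ℝ) ≃ᵃ[ℝ] (ℝ × ℝ)) (a b c : ℝ × ℝ) :
    T '' (convexHull ℝ {a, b, c}) = convexHull ℝ {T a, T b, T c} := by
  have := (T : (ℝ × ℝ) →ᵃ[ℝ] (ℝ × ℝ)).image_convexHull ({a, b, c} : Set (ℝ × ℝ))
  simp only [AffineEquiv.coe_toAffineMap, Set.image_insert_eq, Set.image_singleton] at this
  exact this

/-- The normal form of a pentagon with three least ears. -/
theorem normal_form_scale (hF : IsCompact F) (hc : Convex ℝ F) (hM : 0 < M)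
    (hFM : area F < 2 * M) {a b c d e : ℝ × ℝ} (h : Adm F M a b c d e) (h1 : D e a b = M)
    (h2 : D a b c = M) (h4 : D c d e = M) :
    ∃ (T : (ℝ × ℝ) ≃ᵃ[ℝ] (ℝ × ℝ)) (q t : ℝ), (1 + √5 ≤ q ∧ q < 4 ∧ |t| ≤ q / 2 - 2 / q - 1 ∧
      pentagon q t ⊆ T '' F ∧ area (T '' F) < 4) ∧ ∀ X, area (T '' X) = 2 / M * area X := by
  have htot := total_le hF hc hM h
  obtain ⟨⟨m1, m2, m3, m4, m5⟩, ⟨-, -, e3, -, e5⟩, ⟨f1, f2, f3, f4, f5⟩⟩ := h
  have hM0 : M ≠ 0 := hM.ne'
  -- the parameter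
  obtain ⟨l, hl⟩ : ∃ l, l = D e a c / M := ⟨_, rfl⟩
  have hl' : D e a c = l * M := by rw [hl]; field_simp
  have hl0 : 0 < l := by
    have i3 := ident3 a b c d e
    rw [h1, h2, hl'] at i3
    have h5 : 0 < D d e a * M + D c d a * M := by nlinarith
    rw [← i3] at h5
    by_contra hcon
    push Not at hcon
    have : l * M * D a b d ≤ 0 := by
      have : l * M ≤ 0 := mul_nonpos_of_nonpos_of_nonneg hcon hM.le
      exact mul_nonpos_of_nonpos_of_nonneg this f1
    linarith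
  have hl2 : l < 2 := by
    have := total_eq3 a b c d e
    rw [h2, h4, hl'] at this
    have h5 : (2 + l) * M < 4 * M := by linarith
    have := lt_of_mul_lt_mul_right h5 hM.le
    linarith
  -- the affine map
  have hd : (2 * (e.2 - a.2) - (1 - l) * (b.2 - a.2)) / M * ((b.1 - a.1) / M)
      - (-2 * (e.1 - a.1) + (1 - l) * (b.1 - a.1)) / M * (-(b.2 - a.2) / M) = 2 / M := by
    have : 2 / M = 2 * D e a b / (M * M) := by rw [h1]; field_simp
    rw [this]
    unfold D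
    field_simp
    ring
  have hdet : LinearMap.det (lin ((2 * (e.2 - a.2) - (1 - l) * (b.2 - a.2)) / M)
      ((-2 * (e.1 - a.1) + (1 - l) * (b.1 - a.1)) / M) (-(b.2 - a.2) / M) ((b.1 - a.1) / M)) ≠ 0 := by
    rw [det_lin, hd]
    positivity
  let L := LinearMap.equivOfDetNeZero _ hdet
  have hL : ∀ p, L p = lin ((2 * (e.2 - a.2) - (1 - l) * (b.2 - a.2)) / M)
      ((-2 * (e.1 - a.1) + (1 - l) * (b.1 - a.1)) / M) (-(b.2 - a.2) / M) ((b.1 - a.1) / M) p :=
    fun p => rfl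
  let T : (ℝ × ℝ) ≃ᵃ[ℝ] (ℝ × ℝ) :=
    L.toAffineEquiv.trans (AffineEquiv.constVAdd ℝ (ℝ × ℝ) (((-1, 0) : ℝ × ℝ) - L a))
  have hT : ∀ p, T p = (-1 + 2 * D a p e / M + (1 - l) * D a b p / M, D a b p / M) := by
    intro p
    have : T p = (((-1, 0) : ℝ × ℝ) - L a) + L p := rfl
    rw [this, hL, hL]
    ext
    · simp only [lin, LinearMap.coe_mk, AddHom.coe_mk, Prod.fst_add, Prod.fst_sub, D]
      field_simp
      ring
    · simp only [lin, LinearMap.coe_mk, AddHom.coe_mk, Prod.snd_add, Prod.snd_sub, D]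
      field_simp
      ring
  have hDT : ∀ p q r, D (T p) (T q) (T r) = 2 / M * D p q r := by
    intro p q r
    have h5 : 2 / M * D p q r = 2 * D e a b / (M * M) * D p q r := by rw [h1]; field_simp
    rw [h5, hT, hT, hT]
    unfold D
    field_simp
    ring
  have hTa : T a = (-1, 0) := by
    rw [hT, D_self_left, D_self_mid]; simp
  have hTb : T b = (1, 0) := by
    have r1 : D a b e = M := by rw [D_rot]; exact h1
    rw [hT, D_self_right, r1]
    ext
    · simp; field_simp; norm_num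
    · simp
  have hTe : T e = (-l, 1) := by
    have r1 : D a b e = M := by rw [D_rot]; exact h1
    rw [hT, D_self_right, r1]
    ext
    · simp; field_simp; ring
    · simp [hM0]
  have hTc : T c = (l, 1) := by
    have r1 : D a c e = l * M := by rw [D_rot]; exact hl'
    rw [hT, h2, r1]
    ext
    · simp; field_simp; ring
    · simp [hM0]
  obtain ⟨x, hx⟩ : ∃ x, x = (T d).1 := ⟨_, rfl⟩
  obtain ⟨y, hy⟩ : ∃ y, y = (T d).2 := ⟨_, rfl⟩
  have hTd' : T d = (x, y) := by rw [hx, hy]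
  have hy1 : y = 1 + 1 / l := by
    have h5 := hDT c d e
    rw [hTc, hTd', hTe, h4] at h5
    have h6 : 2 / M * M = 2 := by field_simp
    rw [h6] at h5
    simp only [D] at h5
    have h7 : l * (y - 1) = 1 := by linarith
    field_simp
    linarith
  have hTd : T d = (x, 1 + 1 / l) := by rw [hTd', hy1]
  have hx1 : x ≤ l - 1 / l - 1 := by
    have h5 := hDT b c d
    rw [hTb, hTc, hTd] at h5
    have h6 : 2 ≤ 2 / M * D b c d := by
      rw [div_mul_eq_mul_div, le_div_iff₀ hM]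
      linarith
    rw [← h5] at h6
    simp only [D] at h6
    have h7 : (l - 1) * (1 + 1 / l - 0) = l - 1 / l := by field_simp; ring
    linarith
  have hx2 : -x ≤ l - 1 / l - 1 := by
    have h5 := hDT d e a
    rw [hTd, hTe, hTa] at h5
    have h6 : 2 ≤ 2 / M * D d e a := by
      rw [div_mul_eq_mul_div, le_div_iff₀ hM]
      linarith
    rw [← h5] at h6
    simp only [D] at h6
    have h7 : (-l - x) * (0 - (1 + 1 / l)) - (-1 - x) * (1 - (1 + 1 / l)) = l + 1 - 1 / l + x := by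
      field_simp; ring
    linarith
  have hll : 0 ≤ l - 1 / l - 1 := by linarith
  obtain ⟨κ, hκ, hs⟩ := exists_area_scale T
  have hκM : κ * M = 2 := by
    have h5 := hs (convexHull ℝ {e, a, b})
    rw [image_convexHull_triple, area_triangle, area_triangle, hDT, h1] at h5
    have h6 : 2 / M * M = 2 := by field_simp
    rw [h6, abs_of_pos hM] at h5
    norm_num at h5
    linarith
  refine ⟨T, 2 * l, x, ⟨?_, by linarith, ?_, ?_, ?_⟩, ?_⟩
  · -- 1 + √5 ≤ 2 l
    have h5 : 0 ≤ (l - 1 / l - 1) * l := mul_nonneg hll hl0.le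
    have h6 : (l - 1 / l - 1) * l = l ^ 2 - 1 - l := by field_simp
    rw [h6] at h5
    have h7 : √5 ≤ 2 * l - 1 := by
      apply Real.sqrt_le_iff.mpr
      constructor
      · nlinarith
      · nlinarith
    linarith
  · have h5 : 2 * l / 2 - 2 / (2 * l) - 1 = l - 1 / l - 1 := by field_simp
    rw [h5, abs_le]
    constructor <;> linarith
  · apply convexHull_min
    · intro p hp
      simp only [Set.mem_insert_iff, Set.mem_singleton_iff] at hp
      rcases hp with rfl | rfl | rfl | rfl | rfl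
      · exact ⟨a, m1, hTa⟩
      · exact ⟨b, m2, hTb⟩
      · exact ⟨c, m3, by rw [hTc]; ext <;> simp⟩
      · refine ⟨d, m4, ?_⟩
        rw [hTd]
        ext
        · simp
        · simp only
          field_simp
      · refine ⟨e, m5, ?_⟩
        rw [hTe]
        ext
        · simp only
          field_simp
        · simp
    · exact hc.affine_image (T : (ℝ × ℝ) →ᵃ[ℝ] (ℝ × ℝ))
  · rw [hs F]
    have : κ * area F < κ * (2 * M) := mul_lt_mul_of_pos_left hFM hκ
    linarith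
  · intro X
    rw [hs X]
    have : κ = 2 / M := by field_simp; exact hκM
    rw [this]

/-- The normal form of a pentagon with three least ears. -/
theorem normal_form (hF : IsCompact F) (hc : Convex ℝ F) (hM : 0 < M) (hFM : area F < 2 * M)
    {a b c d e : ℝ × ℝ} (h : Adm F M a b c d e) (h1 : D e a b = M) (h2 : D a b c = M)
    (h4 : D c d e = M) :
    ∃ (T : (ℝ × ℝ) ≃ᵃ[ℝ] (ℝ × ℝ)) (q t : ℝ), 1 + √5 ≤ q ∧ q < 4 ∧ |t| ≤ q / 2 - 2 / q - 1 ∧
      pentagon q t ⊆ T '' F ∧ area (T '' F) < 4 := by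
  obtain ⟨T, q, t, h5, -⟩ := normal_form_scale hF hc hM hFM h h1 h2 h4
  exact ⟨T, q, t, h5⟩

/-- If the small triangle property fails for five points, then some affine image of `F` of area
less than four contains one of the critical pentagons. -/
theorem exists_normal_form (hF : IsCompact F) (hc : Convex ℝ F) (h5 : ¬ HasSmallTriangle F 5) :
    ∃ (T : (ℝ × ℝ) ≃ᵃ[ℝ] (ℝ × ℝ)) (q t : ℝ), 1 + √5 ≤ q ∧ q < 4 ∧ |t| ≤ q / 2 - 2 / q - 1 ∧
      pentagon q t ⊆ T '' F ∧ area (T '' F) < 4 := by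
  unfold HasSmallTriangle at h5
  push Not at h5
  obtain ⟨X, hX, hcard, hcon⟩ := h5
  have hbig : AllBig F X := by
    intro a ha b hb c hcx h1 h2 h3
    have := hcon a ha b hb c hcx h1 h2 h3
    rw [area_triangle] at this
    linarith
  obtain ⟨a, b, c, d, e, ⟨ma, mb, mc, md, me⟩, hP⟩ :=
    exists_pentagon hF hc hX hbig (by omega)
  obtain ⟨g1, g2, g3, g4, g5, g6, g7, g8, g9, g10⟩ := hP
  have big : ∀ x y z, x ∈ X → y ∈ X → z ∈ X → 0 < D x y z → area F / 2 < D x y z := by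
    intro x y z hx hy hz h
    obtain ⟨n1, n2, n3⟩ := ne_of_D h.ne'
    have := hbig x hx y hy z hz n1 n2 n3
    rwa [abs_of_pos h] at this
  have p1 : area F / 2 < D e a b := by rw [← D_rot]; exact big _ _ _ ma mb me g3
  have p2 := big _ _ _ ma mb mc g1
  have p3 := big _ _ _ mb mc md g7
  have p4 := big _ _ _ mc md me g10
  have p5 : area F / 2 < D d e a := by rw [D_rot]; exact big _ _ _ ma md me g6
  obtain ⟨M, hMdef⟩ : ∃ M, M = min (D e a b) (min (D a b c) (min (D b c d)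
    (min (D c d e) (D d e a)))) := ⟨_, rfl⟩
  have hM : area F / 2 < M := by
    rw [hMdef]
    exact lt_min p1 (lt_min p2 (lt_min p3 (lt_min p4 p5)))
  have hA := area_nonneg F
  have hM0 : 0 < M := by linarith
  have hadm : Adm F M a b c d e := by
    refine ⟨⟨hX ma, hX mb, hX mc, hX md, hX me⟩, ⟨?_, ?_, ?_, ?_, ?_⟩, ⟨g2.le, g8.le, ?_, ?_, ?_⟩⟩
    · rw [hMdef]; exact min_le_left _ _
    · rw [hMdef]; exact (min_le_right _ _).trans (min_le_left _ _)
    · rw [hMdef]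
      exact (min_le_right _ _).trans ((min_le_right _ _).trans (min_le_left _ _))
    · rw [hMdef]
      exact (min_le_right _ _).trans ((min_le_right _ _).trans ((min_le_right _ _).trans
        (min_le_left _ _)))
    · rw [hMdef]
      exact (min_le_right _ _).trans ((min_le_right _ _).trans ((min_le_right _ _).trans
        (min_le_right _ _)))
    · rw [D_rot]; exact g4.le
    · rw [D_rot]; exact g9.le
    · rw [← D_rot]; exact g5.le
  obtain ⟨a, b, c, d, e, hmin⟩ := exists_isMin hF hadm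
  have ht : total a b c d e < 4 * M := by
    have := total_le hF hc hM0 hmin.1
    linarith
  obtain ⟨a, b, c, d, e, hadm, h1, h2, h4⟩ := hmin.exists_tight hc hM0 ht
  exact normal_form hF hc hM0 (by linarith) hadm h1 h2 h4

end Pool.Agent.MP_83ee93_co
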