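import Pool.Agent.Lib.MP_83ee93_co.Alg

/-!
# MP_83ee93_co: the inequality for nested pentagons
-/

set_option autoImplicit false

namespace Pool.Agent.MP_83ee93_co

/-- The term of the side `b₁ b₂`. -/
theorem T1_bound {τ E1 E2 E4 A w1 a1 b1 a2 b2 n1 n2 c1 : ℝ} (hτ : τ = 4 - A) (hτ0 : 0 < τ)
    (hτ1 : τ < 1)
    (hE1 : 1 ≤ E1) (hE2 : 1 ≤ E2) (hE4 : 1 ≤ E4) (hw : 0 ≤ w1) (hw1 : w1 ≤ 1 - τ)
    (hs3 : 0 ≤ A - E2 - E4) (hs5 : 0 ≤ A - E1 - E4)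
    (h1 : 0 ≤ a1 + b1) (h2 : 0 ≤ a2 + b2)
    (hn1 : 0 ≤ n1) (hn1' : -b1 ≤ n1) (hn2 : 0 ≤ n2) (hn2' : -a2 ≤ n2)
    (hc1 : c1 = a1 * E1 + b2 * E2 + (a1 * a2 * E1 - a1 * b2 * w1 + b1 * b2 * E2))
    (hp : 0 ≤ a1 * E1 + (a1 * a2 * E1 - a1 * b2 * w1 + b1 * b2 * E2))
    (hr : 0 ≤ b2 * E2 + (a1 * a2 * E1 - a1 * b2 * w1 + b1 * b2 * E2)) :
    τ * (max a1 0 + max b2 0) - 2 * (1 - τ) * max a1 0 * max b2 0
      + 2 * (E1 - 1) * max a1 0 + (E1 - 1) * max b2 0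
      + 2 * (E2 - 1) * max b2 0 + (E2 - 1) * max a1 0
      - 2 * max a1 0 * n2 * E1 - 2 * max b2 0 * n1 * E2
      ≤ 2 * c1 - (A - E2 - E4) * a1 - (A - E1 - E4) * b2 := by
  rcases lt_or_ge a1 0 with ha | ha
  · have hb := side_sign hE1 hE2 hw h1 h2 hp ha
    rw [max_eq_right ha.le, max_eq_left hb.le]
    have i1 : b2 * E2 ≤ c1 := by linarith
    have i2 : 0 ≤ b2 * n1 * E2 := by positivity
    have i3 : 0 ≤ (A - E2 - E4) * (-a1) := mul_nonneg hs3 (neg_pos.mpr ha).le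
    have i4 : 0 ≤ b2 * (E4 - 1) := mul_nonneg hb.le (by linarith)
    subst hτ
    nlinarith
  rcases lt_or_ge b2 0 with hb | hb
  · have ha' := side_sign' hE1 hE2 hw h1 h2 hr hb
    rw [max_eq_left ha, max_eq_right hb.le]
    have i1 : a1 * E1 ≤ c1 := by linarith
    have i2 : 0 ≤ a1 * n2 * E1 := by positivity
    have i3 : 0 ≤ (A - E1 - E4) * (-b2) := mul_nonneg hs5 (neg_pos.mpr hb).le
    have i4 : 0 ≤ a1 * (E4 - 1) := mul_nonneg ha (by linarith)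
    subst hτ
    nlinarith
  rw [max_eq_left ha, max_eq_left hb]
  have i1 : 0 ≤ a1 * E1 * (a2 + n2) := by
    apply mul_nonneg (by positivity); linarith
  have i2 : 0 ≤ b2 * E2 * (b1 + n1) := by
    apply mul_nonneg (by positivity); linarith
  have i3 : 0 ≤ a1 * b2 * (1 - τ - w1) := by
    apply mul_nonneg (by positivity); linarith
  have i4 : 0 ≤ a1 * (E4 - 1) := mul_nonneg ha (by linarith)
  have i5 : 0 ≤ b2 * (E4 - 1) := mul_nonneg hb (by linarith)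
  subst hτ
  rw [hc1]
  nlinarith

theorem prod_split (a b : ℝ) :
    min a 0 * max b 0 + min b 0 * max a 0 ≤ b * a := by
  rcases le_or_gt 0 a with ha | ha <;> rcases le_or_gt 0 b with hb | hb
  · rw [min_eq_right ha, min_eq_right hb]; nlinarith [mul_nonneg ha hb]
  · rw [min_eq_right ha, min_eq_left hb.le, max_eq_left ha]; nlinarith
  · rw [min_eq_left ha.le, min_eq_right hb, max_eq_left hb]; nlinarith
  · rw [max_eq_right ha.le, max_eq_right hb.le]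
    have := mul_pos_of_neg_of_neg ha hb
    nlinarith

/-- The lower bound for the remaining terms. -/
theorem R_bound {τ s E1 E2 E3 E4 E5 w5 w2 a2 a3 a5 b1 b3 b5 c1 c2 c3 c4 c5 n1 n2 u v : ℝ}
    (hτ0 : 0 < τ) (hτ1 : τ ≤ 191 / 500) (hE1 : 1 ≤ E1) (hE2 : 1 ≤ E2) (hE3 : 1 ≤ E3)
    (hE4 : 1 ≤ E4) (hE5 : 1 ≤ E5) (hE14 : E1 + E4 ≤ 3) (hE24 : E2 + E4 ≤ 3)
    (hw5 : 0 ≤ w5) (hw51 : w5 ≤ 1 - τ) (hw2 : 0 ≤ w2) (hw21 : w2 ≤ 1 - τ)
    (hn1 : n1 = max (-b1) 0) (hn2 : n2 = max (-a2) 0) (hn1c : n1 ≤ c1) (hn2c : n2 ≤ c1)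
    (hb3 : b3 * E3 ≤ c2) (ha5 : a5 * E5 ≤ c5) (hb1 : b1 * E1 ≤ c5) (ha2 : a2 * E2 ≤ c2)
    (hb5 : b5 ≤ c4) (ha3 : a3 ≤ c3) (ab3 : 0 ≤ a3 + b3) (ab5 : 0 ≤ a5 + b5)
    (ha3' : 0 ≤ 1 + a3) (hb5' : 0 ≤ 1 + b5)
    (hc1 : 0 ≤ c1) (hc2 : 0 ≤ c2) (hc3 : 0 ≤ c3) (hc4 : 0 ≤ c4) (hc5 : 0 ≤ c5)
    (hsum : c1 + c2 + c3 + c4 + c5 ≤ s) (hs : s ≤ τ)
    (h5 : a5 < 0 → (-a5) * (1 - (2 - τ) * (b1 * E1)) ≤ b5 * (b1 * E1) ∧ 0 ≤ b5)
    (h3 : b3 < 0 → (-b3) * (1 - (2 - τ) * (a2 * E2)) ≤ a3 * (a2 * E2) ∧ 0 ≤ a3)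
    (h2 : a2 < 0 → 0 < b3) (h1 : b1 < 0 → 0 < a5) (hu : a3 ≤ u) (hv : b5 ≤ v) :
    -(n2 * E1 * (1 + v)) - n1 * E2 * (1 + u) ≤
      E1 * a2 * (1 + b5) - a5 * a2 * w5 + E2 * b1 * (1 + a3) - b1 * b3 * w2 + b3 * a5 * E4 := by
  have hprod := mul_le_mul_of_nonneg_right (prod_split a5 b3) (by linarith only [hE4] : 0 ≤ E4)
  have n10 : 0 ≤ n1 := by rw [hn1]; exact le_max_right _ _
  have n20 : 0 ≤ n2 := by rw [hn2]; exact le_max_right _ _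
  have H1 : 0 ≤ b1 → 0 ≤ a5 * n2 * w5 + b1 * (E2 * (1 + a3) - b3 * w2)
      + min a5 0 * max b3 0 * E4 := fun hb =>
    half_bound hτ0 hτ1 hE1 hE2 hE3 hE4 hE14 hw5 hw51 hw2 hw21 n20 hn2c hb3 ab3 ha3' hb5 hb1 hb
      hc2 hc3 hc4 hc5 hsum hs h5
  have H2 : 0 ≤ a2 → 0 ≤ b3 * n1 * w2 + a2 * (E1 * (1 + b5) - a5 * w5)
      + min b3 0 * max a5 0 * E4 := fun hb =>
    half_bound (s := s) (E3 := E5) hτ0 hτ1 hE2 hE1 hE5 hE4 hE24 hw2 hw21 hw5 hw51 n10 hn1c ha5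
      (by linarith only [ab5]) hb5' ha3 ha2 hb hc5 hc4 hc3 hc2 (by linarith only [hsum]) hs h3
  have m1 : n2 * E1 * (1 + b5) ≤ n2 * E1 * (1 + v) :=
    mul_le_mul_of_nonneg_left (by linarith only [hv])
      (mul_nonneg n20 (by linarith only [hE1]))
  have m2 : n1 * E2 * (1 + a3) ≤ n1 * E2 * (1 + u) :=
    mul_le_mul_of_nonneg_left (by linarith only [hu])
      (mul_nonneg n10 (by linarith only [hE2]))
  rcases le_or_gt 0 b1 with hb | hb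
  · have n1e : n1 = 0 := by rw [hn1]; exact max_eq_right (by linarith only [hb])
    have H1' := H1 hb
    rcases le_or_gt 0 a2 with ha | ha
    · have n2e : n2 = 0 := by rw [hn2]; exact max_eq_right (by linarith only [ha])
      have H2' := H2 ha
      rw [n1e] at H2' ⊢
      rw [n2e] at H1' ⊢
      linarith only [H1', H2', hprod]
    · have n2e : n2 = -a2 := by rw [hn2]; exact max_eq_left (by linarith only [ha])
      have hb3' := h2 ha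
      rw [n1e]
      rw [n2e] at H1' m1 ⊢
      have e1 : min b3 0 = 0 := min_eq_right hb3'.le
      rw [e1] at hprod
      linarith only [H1', hprod, m1]
  · have n1e : n1 = -b1 := by rw [hn1]; exact max_eq_left (by linarith only [hb])
    have ha5' := h1 hb
    rcases le_or_gt 0 a2 with ha | ha
    · have n2e : n2 = 0 := by rw [hn2]; exact max_eq_right (by linarith only [ha])
      have H2' := H2 ha
      rw [n2e]
      rw [n1e] at H2' m2 ⊢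
      have e1 : min a5 0 = 0 := min_eq_right ha5'.le
      rw [e1] at hprod
      linarith only [H2', hprod, m2]
    · have n2e : n2 = -a2 := by rw [hn2]; exact max_eq_left (by linarith only [ha])
      have hb3' := h2 ha
      rw [n1e] at m2 ⊢
      rw [n2e] at m1 ⊢
      have i1 : 0 ≤ a5 * (-a2) * w5 :=
        mul_nonneg (mul_nonneg ha5'.le (neg_pos.mpr ha).le) hw5
      have i2 : 0 ≤ b3 * (-b1) * w2 :=
        mul_nonneg (mul_nonneg hb3'.le (neg_pos.mpr hb).le) hw2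
      have i3 : 0 ≤ b3 * a5 * E4 :=
        mul_nonneg (mul_nonneg hb3'.le ha5'.le) (by linarith only [hE4])
      linarith only [i1, i2, i3, m1, m2]

/-- The term `T2` in the critical case. -/
theorem T2_bound {τ c b E w a z v y : ℝ} (hτ1 : τ < 1) (hE : 1 ≤ E) (hb : 0 < b)
    (hy : y = b * E) (hyc : y ≤ c) (hw : 0 ≤ w) (hw1 : w ≤ 1 - τ) (ha : a ≤ z + v)
    (ha0 : 0 ≤ 1 + a) :
    y * (τ - (1 - τ) * (z + v)) ≤ c - w * b * (1 + a) := by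
  have h1 : b ≤ y := by rw [hy]; nlinarith
  have h2 : w * b ≤ (1 - τ) * y := mul_le_mul hw1 h1 hb.le (by linarith)
  have h3 : w * b * (1 + a) ≤ (1 - τ) * y * (1 + (z + v)) :=
    mul_le_mul h2 (by linarith) ha0 (mul_nonneg (by linarith) (hb.le.trans h1))
  nlinarith

/-- The negative coordinate is small with respect to `x`. -/
theorem n_le {τ n x y v : ℝ} (hτ0 : 0 < τ) (hτ1 : τ < 1) (hg : 0 ≤ τ ^ 2 - 3 * τ + 1)
    (hx : 0 ≤ x) (hy : 0 ≤ y) (hv : 0 ≤ v) (hyv : y + v ≤ τ)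
    (hn : n * (1 - (2 - τ) * y) ≤ x * y) : n * (1 + v) ≤ x := by
  have h1 : y * (1 + v) ≤ 1 - (2 - τ) * y := by nlinarith
  have h2 : 0 < 1 - (2 - τ) * y := by nlinarith
  have h3 : (1 - (2 - τ) * y) * (n * (1 + v)) ≤ (1 - (2 - τ) * y) * x := by
    have i1 := mul_le_mul_of_nonneg_right hn (by linarith : 0 ≤ 1 + v)
    have i2 := mul_le_mul_of_nonneg_left h1 hx
    nlinarith
  exact le_of_mul_le_mul_left h3 h2

/-- The combination of the estimates. -/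
theorem combine {τ s z x y v n2 t u n1 E1 E2 T1 T2 T3 T4 T5 R k2 k5 : ℝ} (hτ0 : 0 < τ)
    (hτ1 : τ < 1) (hg : 0 ≤ τ ^ 2 - 3 * τ + 1)
    (hs : s < τ) (hE1 : 1 ≤ E1) (hE2 : 1 ≤ E2)
    (hz : 0 ≤ z) (hx : 0 ≤ x) (hy : 0 ≤ y) (hv : 0 ≤ v) (ht : 0 ≤ t) (hu : 0 ≤ u)
    (hn1 : 0 ≤ n1) (hn2 : 0 ≤ n2)
    (h1 : z + y + v + t + u ≤ s) (h2 : x + y + v + t + u ≤ s)
    (ha : n2 * (1 - (2 - τ) * y) ≤ x * y) (hb : n1 * (1 - (2 - τ) * t) ≤ z * t)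
    (hT1 : τ * (z + x) - 2 * (1 - τ) * z * x + 2 * (E1 - 1) * z + (E1 - 1) * x
      + 2 * (E2 - 1) * x + (E2 - 1) * z - 2 * z * n2 * E1 - 2 * x * n1 * E2 ≤ T1)
    (hR : -(n2 * E1 * (1 + v)) - n1 * E2 * (1 + u) ≤ R)
    (hT2 : y * (τ - (1 - τ) * (z + v)) + k2 ≤ T2) (hT5 : t * (τ - (1 - τ) * (x + u)) + k5 ≤ T5) :
    (τ - s) * (z + x + y + t) + k2 + k5 + T3 + T4 ≤ T1 + T2 + T3 + T4 + T5 + R := by
  have F := F_bound hτ0 hτ1 hg hs.le hz hx hy hv ht hu h1 h2 ha hb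
  have g1 := n_le hτ0 hτ1 hg hx hy hv (by linarith) ha
  have g2 := n_le hτ0 hτ1 hg hz ht hu (by linarith) hb
  have n2x : n2 ≤ x := by nlinarith
  have n1z : n1 ≤ z := by nlinarith
  have e1 : 0 ≤ (E1 - 1) * (2 * z * (1 - n2) + (x - n2 * (1 + v))) := by
    apply mul_nonneg (by linarith)
    have : 0 ≤ 2 * z * (1 - n2) := mul_nonneg (by linarith) (by linarith)
    linarith
  have e2 : 0 ≤ (E2 - 1) * (2 * x * (1 - n1) + (z - n1 * (1 + u))) := by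
    apply mul_nonneg (by linarith)
    have : 0 ≤ 2 * x * (1 - n1) := mul_nonneg (by linarith) (by linarith)
    linarith
  nlinarith [F, e1, e2]

/-- **Nested pentagons.** If the sum of three ears does not increase, then the areas beyond the
sides vanish. -/
theorem nested_gain {E1 E2 E3 E4 E5 A a1 a2 a3 a4 a5 b1 b2 b3 b4 b5 w1 w2 w3 w4 w5
    c1 c2 c3 c4 c5 : ℝ}
    (hE1 : 1 ≤ E1) (hE2 : 1 ≤ E2) (hE3 : 1 ≤ E3) (hE4 : 1 ≤ E4) (hE5 : 1 ≤ E5)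
    (hA3 : 3 < A) (hgold : 0 ≤ A ^ 2 - 5 * A + 5)
    (hw1 : w1 = A - E1 - E2 - E4) (hw2 : w2 = A - E2 - E3 - E5) (hw3 : w3 = A - E3 - E4 - E1)
    (hw4 : w4 = A - E4 - E5 - E2) (hw5 : w5 = A - E5 - E1 - E3)
    (pw1 : 0 ≤ w1) (pw2 : 0 ≤ w2) (pw3 : 0 ≤ w3) (pw4 : 0 ≤ w4) (pw5 : 0 ≤ w5)
    (hc1 : c1 = a1 * E1 + b2 * E2 + (a1 * a2 * E1 - a1 * b2 * w1 + b1 * b2 * E2))
    (hc2 : c2 = a2 * E2 + b3 * E3 + (a2 * a3 * E2 - a2 * b3 * w2 + b2 * b3 * E3))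
    (hc3 : c3 = a3 * E3 + b4 * E4 + (a3 * a4 * E3 - a3 * b4 * w3 + b3 * b4 * E4))
    (hc4 : c4 = a4 * E4 + b5 * E5 + (a4 * a5 * E4 - a4 * b5 * w4 + b4 * b5 * E5))
    (hc5 : c5 = a5 * E5 + b1 * E1 + (a5 * a1 * E5 - a5 * b1 * w5 + b5 * b1 * E1))
    (ab1 : 0 ≤ a1 + b1) (ab2 : 0 ≤ a2 + b2) (ab3 : 0 ≤ a3 + b3) (ab4 : 0 ≤ a4 + b4)
    (ab5 : 0 ≤ a5 + b5)
    (p1 : 0 ≤ a1 * E1 + (a1 * a2 * E1 - a1 * b2 * w1 + b1 * b2 * E2))
    (p2 : 0 ≤ a2 * E2 + (a2 * a3 * E2 - a2 * b3 * w2 + b2 * b3 * E3))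
    (p3 : 0 ≤ a3 * E3 + (a3 * a4 * E3 - a3 * b4 * w3 + b3 * b4 * E4))
    (p4 : 0 ≤ a4 * E4 + (a4 * a5 * E4 - a4 * b5 * w4 + b4 * b5 * E5))
    (p5 : 0 ≤ a5 * E5 + (a5 * a1 * E5 - a5 * b1 * w5 + b5 * b1 * E1))
    (r1 : 0 ≤ b2 * E2 + (a1 * a2 * E1 - a1 * b2 * w1 + b1 * b2 * E2))
    (r2 : 0 ≤ b3 * E3 + (a2 * a3 * E2 - a2 * b3 * w2 + b2 * b3 * E3))
    (r3 : 0 ≤ b4 * E4 + (a3 * a4 * E3 - a3 * b4 * w3 + b3 * b4 * E4))
    (r4 : 0 ≤ b5 * E5 + (a4 * a5 * E4 - a4 * b5 * w4 + b4 * b5 * E5))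
    (r5 : 0 ≤ b1 * E1 + (a5 * a1 * E5 - a5 * b1 * w5 + b5 * b1 * E1))
    (hs : c1 + c2 + c3 + c4 + c5 < 4 - A)
    (hG : (2 * c1 - (A - E2 - E4) * a1 - (A - E1 - E4) * b2) + (c2 - w4 * b3 * (1 + (a1 + b5)))
      + (c3 - w1 * a3 * (1 + a1)) + (c4 - w1 * b5 * (1 + (b2 + a3)))
      + (c5 - w3 * a5 * (1 + (b2 + a3)))
      + (E1 * a2 * (1 + b5) - a5 * a2 * w5 + E2 * b1 * (1 + a3) - b1 * b3 * w2 + b3 * a5 * E4) ≤ 0) :
    c1 = 0 ∧ c2 = 0 ∧ c3 = 0 ∧ c4 = 0 ∧ c5 = 0 := by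
  obtain ⟨k1, ka1, kb2⟩ := side_facts hE1 hE2 pw1 ab1 ab2 p1 r1
  obtain ⟨k2, ka2, kb3⟩ := side_facts hE2 hE3 pw2 ab2 ab3 p2 r2
  obtain ⟨k3, ka3, kb4⟩ := side_facts hE3 hE4 pw3 ab3 ab4 p3 r3
  obtain ⟨k4, ka4, kb5⟩ := side_facts hE4 hE5 pw4 ab4 ab5 p4 r4
  obtain ⟨k5, ka5, kb1⟩ := side_facts hE5 hE1 pw5 ab5 ab1 p5 r5
  rw [← hc1] at k1 ka1 kb2
  rw [← hc2] at k2 ka2 kb3
  rw [← hc3] at k3 ka3 kb4
  rw [← hc4] at k4 ka4 kb5
  rw [← hc5] at k5 ka5 kb1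
  -- the parameters
  obtain ⟨τ, hτ⟩ : ∃ τ, τ = 4 - A := ⟨_, rfl⟩
  obtain ⟨s, hsdef⟩ : ∃ s, s = c1 + c2 + c3 + c4 + c5 := ⟨_, rfl⟩
  have hsτ : s < τ := by rw [hsdef, hτ]; exact hs
  have hs0 : 0 ≤ s := by linarith only [hsdef, k1, k2, k3, k4, k5]
  have hτ0 : 0 < τ := by linarith only [hs0, hsτ]
  have hτ1 : τ < 1 := by linarith only [hτ, hA3]
  have hg : 0 ≤ τ ^ 2 - 3 * τ + 1 := by rw [hτ]; linarith only [hgold]
  have hτ2 : τ ≤ 191 / 500 := by nlinarith only [hg, hτ1, hτ0]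
  have hκ : 0 < τ - s + τ * s := by linarith only [mul_nonneg hτ0.le hs0, hsτ]
  have w1' : w1 ≤ 1 - τ := by linarith only [hw1, hτ, hE1, hE2, hE4]
  have w2' : w2 ≤ 1 - τ := by linarith only [hw2, hτ, hE2, hE3, hE5]
  have w3' : w3 ≤ 1 - τ := by linarith only [hw3, hτ, hE3, hE4, hE1]
  have w4' : w4 ≤ 1 - τ := by linarith only [hw4, hτ, hE4, hE5, hE2]
  have w5' : w5 ≤ 1 - τ := by linarith only [hw5, hτ, hE5, hE1, hE3]
  -- lower bounds for the coordinates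
  have lb1 : -a1 ≤ c5 := by linarith only [ab1, kb1]
  have lb3 : -a3 ≤ c2 := by linarith only [ab3, kb3]
  have lb5 : -b5 ≤ c5 := by linarith only [ab5, ka5]
  have lb2 : -b2 ≤ c2 := by linarith only [ab2, ka2]
  -- the terms T3, T4
  have T3 := T_bound (x := a3) (y := a1) hτ0 hτ1 hs0 k3 pw1 w1' ka3
    (by linarith only [lb1, hsdef, hsτ, hτ1, k1, k2, k3, k4])
    (by linarith only [ka1, hsdef, k2, k3, k4, k5])
  have T4 := T_bound (x := b5) (y := b2 + a3) hτ0 hτ1 hs0 k4 pw1 w1' kb5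
    (by linarith only [lb2, lb3, hsdef, hsτ, hτ2, k1, k2, k3, k4, k5])
    (by linarith only [kb2, ka3, hsdef, k2, k4, k5])
  have T2 := T_bound (x := b3) (y := a1 + b5) hτ0 hτ1 hs0 k2 pw4 w4' kb3
    (by linarith only [lb1, lb5, hsdef, hsτ, hτ2, k1, k2, k3, k4, k5])
    (by linarith only [ka1, kb5, hsdef, k2, k3, k5])
  have T5 := T_bound (x := a5) (y := b2 + a3) hτ0 hτ1 hs0 k5 pw3 w3' ka5
    (by linarith only [lb2, lb3, hsdef, hsτ, hτ2, k1, k2, k3, k4, k5])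
    (by linarith only [kb2, ka3, hsdef, k2, k4, k5])
  -- the term T1
  obtain ⟨z, hz⟩ : ∃ z, z = max a1 0 := ⟨_, rfl⟩
  obtain ⟨x, hx⟩ : ∃ x, x = max b2 0 := ⟨_, rfl⟩
  obtain ⟨v, hv⟩ : ∃ v, v = max b5 0 := ⟨_, rfl⟩
  obtain ⟨u, hu⟩ : ∃ u, u = max a3 0 := ⟨_, rfl⟩
  have hz0 : 0 ≤ z := by rw [hz]; exact le_max_right _ _
  have hx0 : 0 ≤ x := by rw [hx]; exact le_max_right _ _
  have hv0 : 0 ≤ v := by rw [hv]; exact le_max_right _ _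
  have hu0 : 0 ≤ u := by rw [hu]; exact le_max_right _ _
  have hz1 : a1 ≤ z := by rw [hz]; exact le_max_left _ _
  have hx1 : b2 ≤ x := by rw [hx]; exact le_max_left _ _
  have hv1 : b5 ≤ v := by rw [hv]; exact le_max_left _ _
  have hu1 : a3 ≤ u := by rw [hu]; exact le_max_left _ _
  have hz2 : z ≤ c1 := by rw [hz]; exact max_le ka1 k1
  have hx2 : x ≤ c1 := by rw [hx]; exact max_le kb2 k1
  have hv2 : v ≤ c4 := by rw [hv]; exact max_le kb5 k4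
  have hu2 : u ≤ c3 := by rw [hu]; exact max_le ka3 k3
  obtain ⟨n1, hn1⟩ : ∃ n, n = max (-b1) 0 := ⟨_, rfl⟩
  obtain ⟨n2, hn2⟩ : ∃ n, n = max (-a2) 0 := ⟨_, rfl⟩
  have n10 : 0 ≤ n1 := by rw [hn1]; exact le_max_right _ _
  have n20 : 0 ≤ n2 := by rw [hn2]; exact le_max_right _ _
  have n11 : -b1 ≤ n1 := by rw [hn1]; exact le_max_left _ _
  have n21 : -a2 ≤ n2 := by rw [hn2]; exact le_max_left _ _
  have n1z : n1 ≤ z := by rw [hn1]; exact max_le (by linarith only [ab1, hz1]) hz0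
  have n2x : n2 ≤ x := by rw [hn2]; exact max_le (by linarith only [ab2, hx1]) hx0
  have T1 := T1_bound hτ hτ0 hτ1 hE1 hE2 hE4 pw1 w1'
    (by linarith only [hw1, pw1, hE1]) (by linarith only [hw1, pw1, hE2]) ab1 ab2 n10 n11
    n20 n21 hc1 p1 r1
  rw [← hz, ← hx] at T1
  -- the term R
  have R := R_bound (u := u) (v := v) hτ0 hτ2 hE1 hE2 hE3 hE4 hE5
    (by linarith only [hw3, pw3, hE3, hτ, hτ0])
    (by linarith only [hw4, pw4, hE5, hτ, hτ0]) pw5 w5' pw2 w2' hn1 hn2 (by linarith only [n1z, hz2])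
    (by linarith only [n2x, hx2]) (by linarith only [hc2, p2]) (by linarith only [hc5, r5])
    (by linarith only [hc5, p5]) (by linarith only [hc2, r2]) kb5 ka3 ab3 ab5
    (by linarith only [lb3, hsdef, hsτ, hτ1, k1, k3, k4, k5])
    (by linarith only [lb5, hsdef, hsτ, hτ1, k1, k2, k3, k4])
    k1 k2 k3 k4 k5 (le_of_eq hsdef.symm) hsτ.le
    (fun h => ⟨neg_bound hτ0 hτ1 hE5 hE1 w5' (by linarith only [kb1, hsdef, hsτ, hτ1, k1, k2, k3, k4])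
        ab1 p5 h (side_sign hE5 hE1 pw5 ab5 ab1 p5 h), by linarith only [ab5, h]⟩)
    (fun h => ⟨neg_bound' hτ0 hτ1 hE2 hE3 w2' (by linarith only [ka2, hsdef, hsτ, hτ1, k1, k3, k4, k5])
        ab2 r2 h (side_sign' hE2 hE3 pw2 ab2 ab3 r2 h), by linarith only [ab3, h]⟩)
    (fun h => side_sign hE2 hE3 pw2 ab2 ab3 p2 h)
    (fun h => side_sign' hE5 hE1 pw5 ab5 ab1 r5 h) hu1 hv1
  -- the side 2
  obtain ⟨y, k2', hy0, hyc, hny, hT2, hk2, hy2⟩ : ∃ y k : ℝ, 0 ≤ y ∧ y ≤ c2 ∧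
      n2 * (1 - (2 - τ) * y) ≤ x * y ∧
      y * (τ - (1 - τ) * (z + v)) + k ≤ c2 - w4 * b3 * (1 + (a1 + b5)) ∧ 0 ≤ k ∧
      (c2 ≤ 0 ∨ 0 < k ∨ 0 < x) := by
    rcases le_or_gt 0 a2 with ha | ha
    · have n2e : n2 = 0 := by rw [hn2]; exact max_eq_right (by linarith only [ha])
      refine ⟨0, (τ - s + τ * s) * c2, le_refl _, k2, ?_, ?_, mul_nonneg hκ.le k2, ?_⟩
      · rw [n2e]; linarith
      · linarith only [T2]
      · rcases eq_or_lt_of_le k2 with h | h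
        · left; exact h.symm.le
        · right; left; exact mul_pos hκ h
    · have n2e : n2 = -a2 := by rw [hn2]; exact max_eq_left (by linarith only [ha])
      have hb3 := side_sign hE2 hE3 pw2 ab2 ab3 p2 ha
      have hb2 : 0 < b2 := by linarith only [ab2, ha]
      have hxe : x = b2 := by rw [hx]; exact max_eq_left hb2.le
      have hnb := neg_bound hτ0 hτ1 hE2 hE3 w2'
        (by linarith only [kb3, hsdef, hsτ, hτ1, k1, k3, k4, k5]) ab3 p2 ha hb3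
      refine ⟨b3 * E3, 0, mul_nonneg hb3.le (by linarith only [hE3]), by linarith only [hc2, p2],
        ?_, ?_, le_refl _, ?_⟩
      · rw [n2e, hxe]; exact hnb
      · have := T2_bound hτ1 hE3 hb3 rfl (by linarith only [hc2, p2] : b3 * E3 ≤ c2) pw4 w4'
          (by linarith only [hz1, hv1] : a1 + b5 ≤ z + v)
          (by linarith only [lb1, lb5, hsdef, hsτ, hτ2, k1, k2, k3, k4, k5])
        linarith only [this]
      · right; right; rw [hxe]; exact hb2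
  -- the side 5
  obtain ⟨t, k5', ht0, htc, hnt, hT5, hk5, ht2⟩ : ∃ t k : ℝ, 0 ≤ t ∧ t ≤ c5 ∧
      n1 * (1 - (2 - τ) * t) ≤ z * t ∧
      t * (τ - (1 - τ) * (x + u)) + k ≤ c5 - w3 * a5 * (1 + (b2 + a3)) ∧ 0 ≤ k ∧
      (c5 ≤ 0 ∨ 0 < k ∨ 0 < z) := by
    rcases le_or_gt 0 b1 with ha | ha
    · have n1e : n1 = 0 := by rw [hn1]; exact max_eq_right (by linarith only [ha])
      refine ⟨0, (τ - s + τ * s) * c5, le_refl _, k5, ?_, ?_, mul_nonneg hκ.le k5, ?_⟩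
      · rw [n1e]; linarith
      · linarith only [T5]
      · rcases eq_or_lt_of_le k5 with h | h
        · left; exact h.symm.le
        · right; left; exact mul_pos hκ h
    · have n1e : n1 = -b1 := by rw [hn1]; exact max_eq_left (by linarith only [ha])
      have ha5 := side_sign' hE5 hE1 pw5 ab5 ab1 r5 ha
      have ha1 : 0 < a1 := by linarith only [ab1, ha]
      have hze : z = a1 := by rw [hz]; exact max_eq_left ha1.le
      have hnb := neg_bound' hτ0 hτ1 hE5 hE1 w5'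
        (by linarith only [ka5, hsdef, hsτ, hτ1, k1, k2, k3, k4]) ab5 r5 ha ha5
      refine ⟨a5 * E5, 0, mul_nonneg ha5.le (by linarith only [hE5]), by linarith only [hc5, r5],
        ?_, ?_, le_refl _, ?_⟩
      · rw [n1e, hze]; exact hnb
      · have := T2_bound hτ1 hE5 ha5 rfl (by linarith only [hc5, r5] : a5 * E5 ≤ c5) pw3 w3'
          (by linarith only [hx1, hu1] : b2 + a3 ≤ x + u)
          (by linarith only [lb2, lb3, hsdef, hsτ, hτ2, k1, k2, k3, k4, k5])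
        linarith only [this]
      · right; right; rw [hze]; exact ha1
  have hcomb := combine hτ0 hτ1 hg hsτ hE1 hE2 hz0 hx0 hy0 hv0 ht0 hu0 n10 n20
    (by linarith only [hz2, hyc, hv2, htc, hu2, hsdef])
    (by linarith only [hx2, hyc, hv2, htc, hu2, hsdef]) hny hnt T1 R hT2 hT5
    (T3 := c3 - w1 * a3 * (1 + a1)) (T4 := c4 - w1 * b5 * (1 + (b2 + a3)))
  have hF0 : 0 ≤ (τ - s) * (z + x + y + t) :=
    mul_nonneg (by linarith only [hsτ]) (by linarith only [hz0, hx0, hy0, ht0])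
  have hκ3 : 0 ≤ (τ - s + τ * s) * c3 := mul_nonneg hκ.le k3
  have hκ4 : 0 ≤ (τ - s + τ * s) * c4 := mul_nonneg hκ.le k4
  have z3 : (τ - s + τ * s) * c3 = 0 := by
    linarith only [hcomb, hG, hF0, hκ3, hκ4, T3, T4, hk2, hk5]
  have z4 : (τ - s + τ * s) * c4 = 0 := by
    linarith only [hcomb, hG, hF0, hκ3, hκ4, T3, T4, hk2, hk5]
  have zF : (τ - s) * (z + x + y + t) = 0 := by
    linarith only [hcomb, hG, hF0, hκ3, hκ4, T3, T4, hk2, hk5]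
  have zk2 : k2' = 0 := by
    linarith only [hcomb, hG, hF0, hκ3, hκ4, T3, T4, hk2, hk5]
  have zk5 : k5' = 0 := by
    linarith only [hcomb, hG, hF0, hκ3, hκ4, T3, T4, hk2, hk5]
  have e3 : c3 = 0 := (mul_eq_zero.mp z3).resolve_left hκ.ne'
  have e4 : c4 = 0 := (mul_eq_zero.mp z4).resolve_left hκ.ne'
  have eF : z + x + y + t = 0 := (mul_eq_zero.mp zF).resolve_left (by linarith only [hsτ])
  have ez : z = 0 := by linarith only [eF, hz0, hx0, hy0, ht0]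
  have ex : x = 0 := by linarith only [eF, hz0, hx0, hy0, ht0]
  have e2 : c2 = 0 := by
    rcases hy2 with h | h | h
    · exact le_antisymm h k2
    · exact absurd zk2 h.ne'
    · exact absurd ex h.ne'
  have e5 : c5 = 0 := by
    rcases ht2 with h | h | h
    · exact le_antisymm h k5
    · exact absurd zk5 h.ne'
    · exact absurd ez h.ne'
  refine ⟨?_, e2, e3, e4, e5⟩
  have ha1 : a1 ≤ 0 := by linarith only [hz1, ez]
  have hb2 : b2 ≤ 0 := by linarith only [hx1, ex]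
  have ha1' : a1 = 0 := by
    rcases lt_or_eq_of_le ha1 with h | h
    · have := side_sign hE1 hE2 pw1 ab1 ab2 p1 h
      linarith only [this, hb2]
    · exact h
  have hb2' : b2 = 0 := by
    rcases lt_or_eq_of_le hb2 with h | h
    · have := side_sign' hE1 hE2 pw1 ab1 ab2 r1 h
      linarith only [this, ha1]
    · exact h
  rw [hc1, ha1', hb2']
  ring

end Pool.Agent.MP_83ee93_co
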