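import Pool.Agent.Lib.MP_83ee93_co.Ring5

/-!
# MP_83ee93_co: identities for nested pentagons
-/

set_option autoImplicit false

open MeasureTheory

namespace Pool.Agent.MP_83ee93_co

/-- The point with coordinates `α`, `β` at the vertex `p` with neighbours `l` and `r`. -/
def out (l p r : ℝ × ℝ) (α β : ℝ) : ℝ × ℝ :=
  (p.1 + α * (p.1 - l.1) - β * (r.1 - p.1), p.2 + α * (p.2 - l.2) - β * (r.2 - p.2))

theorem eq_out {l p r v : ℝ × ℝ} {e : ℝ} (he : e = D l p r) (h0 : e ≠ 0) :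
    v = out l p r (-D p r v / e) (-D l p v / e) := by
  have h1 : e * v.1 = e * p.1 + -D p r v * (p.1 - l.1) - -D l p v * (r.1 - p.1) := by
    rw [he]; unfold D; ring
  have h2 : e * v.2 = e * p.2 + -D p r v * (p.2 - l.2) - -D l p v * (r.2 - p.2) := by
    rw [he]; unfold D; ring
  unfold out
  ext
  · simp only
    field_simp
    linarith
  · simp only
    field_simp
    linarith

/-- The triangle `v v' p`. -/
theorem side_left (l p r r' : ℝ × ℝ) (α β α' β' : ℝ) :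
    D (out l p r α β) (out p r r' α' β') p = α * D l p r + (α * α' * D l p r
      - α * β' * (D l p r' - D l p r) + β * β' * D p r r') := by
  unfold out D
  ring

/-- The triangle `v v' r`. -/
theorem side_right (l p r r' : ℝ × ℝ) (α β α' β' : ℝ) :
    D (out l p r α β) (out p r r' α' β') r = β' * D p r r' + (α * α' * D l p r
      - α * β' * (D l p r' - D l p r) + β * β' * D p r r') := by
  unfold out D
  ring

/-- The change of the sum of three ears. -/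
theorem gain_ident (p0 p1 p2 p3 p4 : ℝ × ℝ) (a1 a2 a3 a4 a5 b1 b2 b3 b4 b5 : ℝ)
    {A E1 E2 E3 E4 E5 w1 w2 w3 w4 w5 c1 c2 c3 c4 c5 : ℝ}
    (hA : A = total p0 p1 p2 p3 p4) (hE1 : E1 = D p4 p0 p1) (hE2 : E2 = D p0 p1 p2)
    (hE3 : E3 = D p1 p2 p3) (hE4 : E4 = D p2 p3 p4) (hE5 : E5 = D p3 p4 p0)
    (hw1 : w1 = A - E1 - E2 - E4) (hw2 : w2 = A - E2 - E3 - E5) (hw3 : w3 = A - E3 - E4 - E1)
    (hw4 : w4 = A - E4 - E5 - E2) (hw5 : w5 = A - E5 - E1 - E3)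
    (hc1 : c1 = a1 * E1 + b2 * E2 + (a1 * a2 * E1 - a1 * b2 * w1 + b1 * b2 * E2))
    (hc2 : c2 = a2 * E2 + b3 * E3 + (a2 * a3 * E2 - a2 * b3 * w2 + b2 * b3 * E3))
    (hc3 : c3 = a3 * E3 + b4 * E4 + (a3 * a4 * E3 - a3 * b4 * w3 + b3 * b4 * E4))
    (hc4 : c4 = a4 * E4 + b5 * E5 + (a4 * a5 * E4 - a4 * b5 * w4 + b4 * b5 * E5))
    (hc5 : c5 = a5 * E5 + b1 * E1 + (a5 * a1 * E5 - a5 * b1 * w5 + b5 * b1 * E1)) :
    D (out p3 p4 p0 a5 b5) (out p4 p0 p1 a1 b1) (out p0 p1 p2 a2 b2)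
      + D (out p4 p0 p1 a1 b1) (out p0 p1 p2 a2 b2) (out p1 p2 p3 a3 b3)
      + D (out p1 p2 p3 a3 b3) (out p2 p3 p4 a4 b4) (out p3 p4 p0 a5 b5) - (E1 + E2 + E4)
    = (2 * c1 - (A - E2 - E4) * a1 - (A - E1 - E4) * b2) + (c2 - w4 * b3 * (1 + (a1 + b5)))
      + (c3 - w1 * a3 * (1 + a1)) + (c4 - w1 * b5 * (1 + (b2 + a3)))
      + (c5 - w3 * a5 * (1 + (b2 + a3)))
      + (E1 * a2 * (1 + b5) - a5 * a2 * w5 + E2 * b1 * (1 + a3) - b1 * b3 * w2 + b3 * a5 * E4) := by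
  subst hc1 hc2 hc3 hc4 hc5 hw1 hw2 hw3 hw4 hw5 hA hE1 hE2 hE3 hE4 hE5
  unfold out total D
  ring

/-- The change of the area. -/
theorem area_ident (p0 p1 p2 p3 p4 : ℝ × ℝ) (a1 a2 a3 a4 a5 b1 b2 b3 b4 b5 : ℝ)
    {A E1 E2 E3 E4 E5 w1 w2 w3 w4 w5 c1 c2 c3 c4 c5 : ℝ}
    (hA : A = total p0 p1 p2 p3 p4) (hE1 : E1 = D p4 p0 p1) (hE2 : E2 = D p0 p1 p2)
    (hE3 : E3 = D p1 p2 p3) (hE4 : E4 = D p2 p3 p4) (hE5 : E5 = D p3 p4 p0)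
    (hw1 : w1 = A - E1 - E2 - E4) (hw2 : w2 = A - E2 - E3 - E5) (hw3 : w3 = A - E3 - E4 - E1)
    (hw4 : w4 = A - E4 - E5 - E2) (hw5 : w5 = A - E5 - E1 - E3)
    (hc1 : c1 = a1 * E1 + b2 * E2 + (a1 * a2 * E1 - a1 * b2 * w1 + b1 * b2 * E2))
    (hc2 : c2 = a2 * E2 + b3 * E3 + (a2 * a3 * E2 - a2 * b3 * w2 + b2 * b3 * E3))
    (hc3 : c3 = a3 * E3 + b4 * E4 + (a3 * a4 * E3 - a3 * b4 * w3 + b3 * b4 * E4))
    (hc4 : c4 = a4 * E4 + b5 * E5 + (a4 * a5 * E4 - a4 * b5 * w4 + b4 * b5 * E5))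
    (hc5 : c5 = a5 * E5 + b1 * E1 + (a5 * a1 * E5 - a5 * b1 * w5 + b5 * b1 * E1)) :
    total (out p4 p0 p1 a1 b1) (out p0 p1 p2 a2 b2) (out p1 p2 p3 a3 b3) (out p2 p3 p4 a4 b4)
      (out p3 p4 p0 a5 b5) = A + (c1 + c2 + c3 + c4 + c5) := by
  subst hc1 hc2 hc3 hc4 hc5 hw1 hw2 hw3 hw4 hw5 hA hE1 hE2 hE3 hE4 hE5
  unfold out total D
  ring

end Pool.Agent.MP_83ee93_co
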