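import Pool.Agent.Lib.MP_83ee93_co.Order

/-!
# MP_83ee93_co: pentagons of least area with large ears
-/

set_option autoImplicit false

open MeasureTheory

namespace Pool.Agent.MP_83ee93_co

/-- Twice the area of a convex pentagon. -/
def total (a b c d e : ℝ × ℝ) : ℝ := D a b c + D a c d + D a d e

/-- A weakly convex pentagon in `F` all of whose ears have area at least `M / 2`. -/
def Adm (F : Set (ℝ × ℝ)) (M : ℝ) (a b c d e : ℝ × ℝ) : Prop :=
  (a ∈ F ∧ b ∈ F ∧ c ∈ F ∧ d ∈ F ∧ e ∈ F) ∧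
  (M ≤ D e a b ∧ M ≤ D a b c ∧ M ≤ D b c d ∧ M ≤ D c d e ∧ M ≤ D d e a) ∧
  (0 ≤ D a b d ∧ 0 ≤ D b c e ∧ 0 ≤ D c d a ∧ 0 ≤ D d e b ∧ 0 ≤ D e a c)

variable {F : Set (ℝ × ℝ)} {M : ℝ} {a b c d e : ℝ × ℝ}

theorem Adm.rot (h : Adm F M a b c d e) : Adm F M b c d e a := by
  obtain ⟨⟨m1, m2, m3, m4, m5⟩, ⟨e1, e2, e3, e4, e5⟩, ⟨f1, f2, f3, f4, f5⟩⟩ := h
  exact ⟨⟨m2, m3, m4, m5, m1⟩, ⟨e2, e3, e4, e5, e1⟩, ⟨f2, f3, f4, f5, f1⟩⟩

theorem total_rot (a b c d e : ℝ × ℝ) : total b c d e a = total a b c d e := by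
  unfold total D; ring

theorem total_eq1 (a b c d e : ℝ × ℝ) : total a b c d e = D e a b + D b c d + D d e b := by
  unfold total D; ring

theorem total_eq2 (a b c d e : ℝ × ℝ) : total a b c d e = D d e a + D b c d + D a b d := by
  unfold total D; ring

theorem total_eq3 (a b c d e : ℝ × ℝ) : total a b c d e = D a b c + D c d e + D e a c := by
  unfold total D; ring

theorem ident1 (a b c d e : ℝ × ℝ) :
    (D d e a - D d e b) * D e a c = D e a b * D d e a - D a b c * D d e a - D e a b * D c d e := by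
  unfold D; ring

theorem ident2 (a b c d e : ℝ × ℝ) :
    D c d a * D d e b = D b c d * D d e a + D a b d * D c d e := by
  unfold D; ring

theorem ident2' (a b c d : ℝ × ℝ) : D c d a + D a b c = D b c d + D a b d := by
  unfold D; ring

theorem ident3 (a b c d e : ℝ × ℝ) :
    D e a c * D a b d = D d e a * D a b c + D c d a * D e a b := by
  unfold D; ring

theorem ident3' (a c d e : ℝ × ℝ) : D e a c + D c d e = D d e a + D c d a := by
  unfold D; ring

theorem ear_mono_real {M E1 E2 E3 E4 E5 x y z w t : ℝ} (hM : 0 < M) (e1 : M ≤ E1) (e2 : M ≤ E2)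
    (e3 : M ≤ E3) (e4 : M ≤ E4) (e5 : M ≤ E5) (f1 : 0 ≤ w) (f3 : 0 ≤ z) (f4 : 0 ≤ x)
    (f5 : 0 ≤ y) (ht : t < 4 * M) (t1 : t = E1 + E3 + x) (t2 : t = E5 + E3 + w)
    (i1 : (E5 - x) * y = E1 * E5 - E2 * E5 - E1 * E4) (i2 : z * x = E3 * E5 + w * E4)
    (i2' : z + E2 = E3 + w) (i3 : y * w = E5 * E2 + z * E1) (i3' : y + E4 = E5 + z) :
    E5 ≤ x := by
  have hx1 : M ≤ x := by
    by_contra hcon
    push Not at hcon
    have h1 : M * (z + E2) ≤ z * x := by
      rw [i2, i2']
      nlinarith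
    nlinarith
  have hw1 : M ≤ w := by
    by_contra hcon
    push Not at hcon
    have h1 : M * (y + E4) ≤ y * w := by
      rw [i3, i3']
      nlinarith
    nlinarith
  have g1 : E1 < 2 * M := by linarith
  have g5 : E5 < 2 * M := by linarith
  by_contra hcon
  push Not at hcon
  have h1 : 0 ≤ (E5 - x) * y := mul_nonneg (by linarith) f5
  rw [i1] at h1
  have h2 : M * E5 ≤ E2 * E5 := mul_le_mul_of_nonneg_right e2 (by linarith)
  have h3 : E1 * M ≤ E1 * E4 := mul_le_mul_of_nonneg_left e4 (by linarith)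
  -- (E1 - M) (E5 - M) ≥ M ^ 2
  have h4 : M * M ≤ (E1 - M) * (E5 - M) := by nlinarith
  have h5 : (E1 - M) * (E5 - M) < M * M :=
    mul_lt_mul'' (by linarith) (by linarith) (by linarith) (by linarith)
  linarith

/-- In a pentagon of area less than four times its least ear, the distance from the line `d e`
increases from `a` to `b`. -/
theorem ear_mono (hM : 0 < M) (h : Adm F M a b c d e) (ht : total a b c d e < 4 * M) :
    D d e a ≤ D d e b := by
  obtain ⟨-, ⟨e1, e2, e3, e4, e5⟩, ⟨f1, f2, f3, f4, f5⟩⟩ := h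
  exact ear_mono_real hM e1 e2 e3 e4 e5 f1 f3 f4 f5 ht (total_eq1 a b c d e)
    (total_eq2 a b c d e) (ident1 a b c d e) (ident2 a b c d e) (ident2' a b c d)
    (ident3 a b c d e) (ident3' a c d e)

/-- A pentagon of least area. -/
def IsMin (F : Set (ℝ × ℝ)) (M : ℝ) (a b c d e : ℝ × ℝ) : Prop :=
  Adm F M a b c d e ∧ ∀ a' b' c' d' e', Adm F M a' b' c' d' e' →
    total a b c d e ≤ total a' b' c' d' e'

theorem IsMin.rot (h : IsMin F M a b c d e) : IsMin F M b c d e a := by
  refine ⟨h.1.rot, ?_⟩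
  intro a' b' c' d' e' h'
  rw [total_rot]
  exact h.2 a' b' c' d' e' h'

theorem D_combo1 (a b x y : ℝ × ℝ) (s : ℝ) :
    D ((1 - s) • a + s • b) x y = (1 - s) * D a x y + s * D b x y := by
  simp [D]
  ring

theorem D_combo2 (a b x y : ℝ × ℝ) (s : ℝ) :
    D x ((1 - s) • a + s • b) y = (1 - s) * D x a y + s * D x b y := by
  simp [D]
  ring

theorem D_combo3 (a b x y : ℝ × ℝ) (s : ℝ) :
    D x y ((1 - s) • a + s • b) = (1 - s) * D x y a + s * D x y b := by
  simp [D]
  ring

/-- In a pentagon of least area, one of the ears at `a` and at `b` is as small as possible. -/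
theorem IsMin.tight (hc : Convex ℝ F) (hM : 0 < M) (h : IsMin F M a b c d e)
    (ht : total a b c d e < 4 * M) : D e a b = M ∨ D a b c = M := by
  by_contra hcon
  push Not at hcon
  obtain ⟨n1, n2⟩ := hcon
  have hmono := ear_mono hM h.1 ht
  have hadm := h.1
  obtain ⟨⟨m1, m2, m3, m4, m5⟩, ⟨e1, e2, e3, e4, e5⟩, ⟨f1, f2, f3, f4, f5⟩⟩ := h.1
  have l1 : M < D e a b := lt_of_le_of_ne e1 (Ne.symm n1)
  have l2 : M < D a b c := lt_of_le_of_ne e2 (Ne.symm n2)
  -- choose the step
  obtain ⟨s, hs0, hs1, k1, k2⟩ : ∃ s : ℝ, 0 < s ∧ s ≤ 1 ∧ M ≤ (1 - s) * D e a b ∧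
      M ≤ (1 - s) * D a b c := by
    have p1 : 0 < D e a b := by linarith
    have p2 : 0 < D a b c := by linarith
    refine ⟨min (1 - M / D e a b) (1 - M / D a b c), ?_, ?_, ?_, ?_⟩
    · apply lt_min
      · rw [sub_pos, div_lt_one (by linarith)]; exact l1
      · rw [sub_pos, div_lt_one (by linarith)]; exact l2
    · apply (min_le_left _ _).trans
      have : 0 ≤ M / D e a b := by positivity
      linarith
    · have h1 : min (1 - M / D e a b) (1 - M / D a b c) ≤ 1 - M / D e a b := min_le_left _ _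
      have h2 : M / D e a b ≤ 1 - min (1 - M / D e a b) (1 - M / D a b c) := by linarith
      rwa [div_le_iff₀ (by linarith)] at h2
    · have h1 : min (1 - M / D e a b) (1 - M / D a b c) ≤ 1 - M / D a b c := min_le_right _ _
      have h2 : M / D a b c ≤ 1 - min (1 - M / D e a b) (1 - M / D a b c) := by linarith
      rwa [div_le_iff₀ (by linarith)] at h2
  have hs1' : 0 ≤ 1 - s := by linarith
  have q1 : 0 ≤ D b c d := by linarith
  have hadm' : Adm F M ((1 - s) • a + s • b) b c d e := by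
    refine ⟨⟨?_, m2, m3, m4, m5⟩, ⟨?_, ?_, e3, e4, ?_⟩, ⟨?_, f2, ?_, f4, ?_⟩⟩
    · exact hc m1 m2 hs1' hs0.le (by ring)
    · rw [D_combo2, D_self_right]; linarith
    · rw [D_combo1, D_self_left]; linarith
    · rw [D_combo3]
      nlinarith
    · rw [D_combo1, D_self_left]
      have := mul_nonneg hs1' f1
      linarith
    · rw [D_combo3]
      have h1 : D c d b = D b c d := D_rot _ _ _
      rw [h1]
      have := mul_nonneg hs1' f3
      have := mul_nonneg hs0.le q1
      linarith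
    · rw [D_combo2]
      have h1 : D e b c = D b c e := (D_rot _ _ _).symm
      rw [h1]
      have := mul_nonneg hs1' f5
      have := mul_nonneg hs0.le f2
      linarith
  have h1 := h.2 _ _ _ _ _ hadm'
  have h2 : total ((1 - s) • a + s • b) b c d e = total a b c d e - s * D e a b := by
    simp only [total, D_combo1]
    unfold D
    ring
  rw [h2] at h1
  nlinarith

/-- Some rotation of a pentagon of least area has least ears at `a`, `b` and `d`. -/
theorem IsMin.exists_tight (hc : Convex ℝ F) (hM : 0 < M) (h : IsMin F M a b c d e)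
    (ht : total a b c d e < 4 * M) :
    ∃ a b c d e, Adm F M a b c d e ∧ D e a b = M ∧ D a b c = M ∧ D c d e = M := by
  have r1 := h.rot
  have r2 := r1.rot
  have r3 := r2.rot
  have r4 := r3.rot
  have t1 : total b c d e a < 4 * M := by rw [total_rot]; exact ht
  have t2 : total c d e a b < 4 * M := by rw [total_rot]; exact t1
  have t3 : total d e a b c < 4 * M := by rw [total_rot]; exact t2
  have t4 : total e a b c d < 4 * M := by rw [total_rot]; exact t3
  rcases h.tight hc hM ht with u0 | u0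
  · -- ear a
    rcases r1.tight hc hM t1 with u1 | u1
    · -- ears a, b
      rcases r3.tight hc hM t3 with u3 | u3
      · exact ⟨a, b, c, d, e, h.1, u0, u1, u3⟩
      · -- ears a, b, e ; then c or d
        rcases r2.tight hc hM t2 with u2 | u2
        · exact ⟨e, a, b, c, d, r4.1, u3, u0, u2⟩
        · exact ⟨a, b, c, d, e, h.1, u0, u1, u2⟩
    · -- ears a, c
      rcases r3.tight hc hM t3 with u3 | u3
      · -- ears a, c, d
        exact ⟨c, d, e, a, b, r2.1, u1, u3, u0⟩
      · exact ⟨e, a, b, c, d, r4.1, u3, u0, u1⟩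
  · -- ear b
    rcases r2.tight hc hM t2 with u2 | u2
    · -- ears b, c
      rcases r4.tight hc hM t4 with u4 | u4
      · exact ⟨b, c, d, e, a, r1.1, u0, u2, u4⟩
      · -- ears b, c, a
        rcases r3.tight hc hM t3 with u3 | u3
        · exact ⟨a, b, c, d, e, h.1, u4, u0, u3⟩
        · exact ⟨b, c, d, e, a, r1.1, u0, u2, u3⟩
    · -- ears b, d
      rcases r4.tight hc hM t4 with u4 | u4
      · exact ⟨d, e, a, b, c, r3.1, u2, u4, u0⟩
      · exact ⟨a, b, c, d, e, h.1, u4, u0, u2⟩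

end Pool.Agent.MP_83ee93_co
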