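import Pool.Agent.Lib.MP_83ee93_co.Critical

/-!
# MP_83ee93_co: different critical pentagons are not affinely equivalent
-/

set_option autoImplicit false

open MeasureTheory

namespace Pool.Agent.MP_83ee93_co

/-- The sum of the squares of the areas of all triangles with vertices in `X`. -/
noncomputable def QF (X : Finset (ℝ × ℝ)) : ℝ := ∑ a ∈ X, ∑ b ∈ X, ∑ c ∈ X, D a b c ^ 2

theorem sum_five (v0 v1 v2 v3 v4 : ℝ × ℝ) (f : ℝ × ℝ → ℝ × ℝ → ℝ × ℝ → ℝ)
    (hf : ∀ a b c, f a b c = D a b c ^ 2) :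
    ∑ i : Fin 5, ∑ j : Fin 5, ∑ k : Fin 5, f (![v0, v1, v2, v3, v4] i) (![v0, v1, v2, v3, v4] j)
      (![v0, v1, v2, v3, v4] k) = 6 * (D v0 v1 v2 ^ 2 + D v0 v1 v3 ^ 2 + D v0 v1 v4 ^ 2
      + D v0 v2 v3 ^ 2 + D v0 v2 v4 ^ 2 + D v0 v3 v4 ^ 2 + D v1 v2 v3 ^ 2 + D v1 v2 v4 ^ 2
      + D v1 v3 v4 ^ 2 + D v2 v3 v4 ^ 2) := by
  have s1 : ∀ a b c, f b a c = f a b c := by
    intro a b c; rw [hf, hf, D_swap]; ring
  have s2 : ∀ a b c, f a c b = f a b c := by
    intro a b c; rw [hf, hf, D_swap']; ring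
  have z1 : ∀ a b, f a a b = 0 := by
    intro a b; rw [hf, D_self_left]; ring
  have z2 : ∀ a b, f a b b = 0 := by
    intro a b; rw [hf, D_self_right]; ring
  have z3 : ∀ a b, f a b a = 0 := by
    intro a b; rw [hf, D_self_mid]; ring
  simp only [Fin.sum_univ_five, Matrix.cons_val_zero, Matrix.cons_val_one, Matrix.cons_val, z1,
    z2, z3]
  have g : ∀ a b c, f a c b = f a b c ∧ f b a c = f a b c ∧ f b c a = f a b c ∧
      f c a b = f a b c ∧ f c b a = f a b c := by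
    intro a b c
    refine ⟨s2 _ _ _, s1 _ _ _, ?_, ?_, ?_⟩
    · rw [s2 b a c, s1]
    · rw [s1 a c b, s2]
    · rw [s2 c a b, s1 a c b, s2]
  obtain ⟨a1, a2, a3, a4, a5⟩ := g v0 v1 v2
  obtain ⟨b1, b2, b3, b4, b5⟩ := g v0 v1 v3
  obtain ⟨c1, c2, c3, c4, c5⟩ := g v0 v1 v4
  obtain ⟨d1, d2, d3, d4, d5⟩ := g v0 v2 v3
  obtain ⟨e1, e2, e3, e4, e5⟩ := g v0 v2 v4
  obtain ⟨f1, f2, f3, f4, f5⟩ := g v0 v3 v4
  obtain ⟨g1, g2, g3, g4, g5⟩ := g v1 v2 v3
  obtain ⟨h1, h2, h3, h4, h5⟩ := g v1 v2 v4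
  obtain ⟨i1, i2, i3, i4, i5⟩ := g v1 v3 v4
  obtain ⟨j1, j2, j3, j4, j5⟩ := g v2 v3 v4
  simp only [a1, a2, a3, a4, a5, b1, b2, b3, b4, b5, c1, c2, c3, c4, c5, d1, d2, d3, d4, d5,
    e1, e2, e3, e4, e5, f1, f2, f3, f4, f5, g1, g2, g3, g4, g5, h1, h2, h3, h4, h5,
    i1, i2, i3, i4, i5, j1, j2, j3, j4, j5]
  simp only [hf]
  ring

theorem QF_vert {q t : ℝ} (hq : 1 + √5 ≤ q) (ht : |t| ≤ q / 2 - 2 / q - 1) :
    QF (Finset.univ.image (vert q t)) = 6 * (12 + 4 * (1 + 2 / q) ^ 2 + 2 * q ^ 2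
      + 2 * (q / 2 + 1 + 2 / q) ^ 2 + 2 * (q / 2 + 1 - 2 / q) ^ 2 + 4 * t ^ 2) := by
  have hv : Ordered (vert q t) := D_vert_ordered hq ht
  have hq0 := (q_pos hq).ne'
  unfold QF
  rw [Finset.sum_image hv.injective.injOn]
  simp_rw [Finset.sum_image hv.injective.injOn]
  have h := sum_five (-1, 0) (1, 0) (q / 2, 1) (t, 1 + 2 / q) (-q / 2, 1)
    (fun a b c => D a b c ^ 2) (fun _ _ _ => rfl)
  refine Eq.trans h ?_
  simp only [D]
  field_simp
  ring

theorem sq_D_image {T : (ℝ × ℝ) ≃ᵃ[ℝ] (ℝ × ℝ)} (hT : ∀ X, area (T '' X) = area X)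
    (a b c : ℝ × ℝ) : D (T a) (T b) (T c) ^ 2 = D a b c ^ 2 := by
  have h := hT (convexHull ℝ {a, b, c})
  rw [image_convexHull_triple, area_triangle, area_triangle] at h
  have h1 : |D (T a) (T b) (T c)| = |D a b c| := by linarith
  rw [← sq_abs, h1, sq_abs]

theorem QF_image {T : (ℝ × ℝ) ≃ᵃ[ℝ] (ℝ × ℝ)} (hT : ∀ X, area (T '' X) = area X)
    (X : Finset (ℝ × ℝ)) : QF (X.image T) = QF X := by
  unfold QF
  rw [Finset.sum_image T.injective.injOn]
  simp_rw [Finset.sum_image T.injective.injOn, sq_D_image hT]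

theorem inequiv_aux {q t q' t' κ : ℝ} (hq : 1 + √5 ≤ q) (ht : |t| ≤ q / 2 - 2 / q - 1)
    (hq' : 1 + √5 ≤ q') (hq4' : q' < 4) (ht' : |t'| ≤ q' / 2 - 2 / q' - 1)
    (T : (ℝ × ℝ) ≃ᵃ[ℝ] (ℝ × ℝ)) (hκ : 1 ≤ κ) (hs : ∀ X, area (T '' X) = κ * area X)
    (h : T '' pentagon q t = pentagon q' t') : q = q' ∧ |t| = |t'| := by
  have hv' : Ordered (vert q' t') := D_vert_ordered hq' ht'
  have hX : (Finset.univ.image (vert q t)).image T = Finset.univ.image (vert q' t') := by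
    apply five_points hq' hq4' ht'
    · rw [Finset.coe_image, coe_vert, ← h]
      apply Set.image_mono
      rw [pentagon_eq]
      exact subset_convexHull ℝ _
    · rw [card_image_equiv, card_vert hq ht]
    · apply (large_vert hq ht).image
      intro X
      rw [hs]
      have := area_nonneg X
      nlinarith
  -- the scale is one
  have hmem : ∀ i, ∃ x ∈ Finset.univ.image (vert q t), T x = vert q' t' i := by
    intro i
    have : vert q' t' i ∈ (Finset.univ.image (vert q t)).image T := by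
      rw [hX]; simp
    rw [Finset.mem_image] at this
    exact this
  obtain ⟨x, hx, hx'⟩ := hmem 4
  obtain ⟨y, hy, hy'⟩ := hmem 0
  obtain ⟨z, hz, hz'⟩ := hmem 1
  have n1 : x ≠ y := by
    rintro rfl
    rw [hx'] at hy'
    exact absurd (hv'.injective hy') (by decide)
  have n2 : x ≠ z := by
    rintro rfl
    rw [hx'] at hz'
    exact absurd (hv'.injective hz') (by decide)
  have n3 : y ≠ z := by
    rintro rfl
    rw [hy'] at hz'
    exact absurd (hv'.injective hz') (by decide)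
  have h1 := large_vert hq ht x hx y hy z hz n1 n2 n3
  have h2 := hs (convexHull ℝ {x, y, z})
  rw [image_convexHull_triple, hx', hy', hz', area_triangle] at h2
  have h3 : D (vert q' t' 4) (vert q' t' 0) (vert q' t' 1) = 2 := ear0_vert
  rw [h3] at h2
  norm_num at h2
  have hκ1 : κ = 1 := by
    apply le_antisymm _ hκ
    nlinarith
  have hT : ∀ X, area (T '' X) = area X := by
    intro X; rw [hs, hκ1, one_mul]
  have hA := hT (pentagon q t)
  rw [h, area_pentagon hq' ht', area_pentagon hq ht] at hA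
  have hqq : q' = q := by linarith
  refine ⟨hqq.symm, ?_⟩
  have hQ := QF_image hT (Finset.univ.image (vert q t))
  rw [hX, QF_vert hq' ht', QF_vert hq ht, hqq] at hQ
  exact (sq_eq_sq_iff_abs_eq_abs t t').mp (by linarith)

/-- Different critical pentagons are not affinely equivalent, except for mirror images. -/
theorem inequiv {q t q' t' : ℝ} (hq : 1 + √5 ≤ q) (hq4 : q < 4) (ht : |t| ≤ q / 2 - 2 / q - 1)
    (hq' : 1 + √5 ≤ q') (hq4' : q' < 4) (ht' : |t'| ≤ q' / 2 - 2 / q' - 1)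
    (T : (ℝ × ℝ) ≃ᵃ[ℝ] (ℝ × ℝ)) (h : T '' pentagon q t = pentagon q' t') :
    q = q' ∧ |t| = |t'| := by
  obtain ⟨κ, hκ, hs⟩ := exists_area_scale T
  rcases le_or_gt 1 κ with h1 | h1
  · exact inequiv_aux hq ht hq' hq4' ht' T h1 hs h
  · have hs' : ∀ X, area (T.symm '' X) = κ⁻¹ * area X := by
      intro X
      have := hs (T.symm '' X)
      rw [symm_image_image] at this
      rw [this]
      field_simp
    have h' : T.symm '' pentagon q' t' = pentagon q t := by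
      rw [← h, image_symm_image]
    obtain ⟨g1, g2⟩ := inequiv_aux hq' ht' hq hq4 ht T.symm
      ((one_le_inv₀ hκ).mpr h1.le) hs' h'
    exact ⟨g1.symm, g2.symm⟩

/-- The reflection maps a critical pentagon to the one with the opposite parameter. -/
theorem mirror (q t : ℝ) : ∃ T : (ℝ × ℝ) ≃ᵃ[ℝ] (ℝ × ℝ), T '' pentagon q t = pentagon q (-t) := by
  refine ⟨((LinearEquiv.neg ℝ : ℝ ≃ₗ[ℝ] ℝ).prodCongr (LinearEquiv.refl ℝ ℝ)).toAffineEquiv, ?_⟩
  rw [pentagon_eq, pentagon_eq, image_hull]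
  congr 1
  ext p
  simp only [Set.mem_image, Set.mem_range, exists_exists_eq_and]
  constructor
  · rintro ⟨i, rfl⟩
    fin_cases i
    · exact ⟨1, by ext <;> simp [vert]⟩
    · exact ⟨0, by ext <;> simp [vert]⟩
    · exact ⟨4, by ext <;> simp [vert, neg_div]⟩
    · exact ⟨3, by ext <;> simp [vert]⟩
    · exact ⟨2, by ext <;> simp [vert, neg_div]⟩
  · rintro ⟨i, rfl⟩
    fin_cases i
    · exact ⟨1, by ext <;> simp [vert]⟩
    · exact ⟨0, by ext <;> simp [vert]⟩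
    · exact ⟨4, by ext <;> simp [vert, neg_div]⟩
    · exact ⟨3, by ext <;> simp [vert]⟩
    · exact ⟨2, by ext <;> simp [vert, neg_div]⟩

end Pool.Agent.MP_83ee93_co
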