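import Pool.Agent.Lib.MP_83ee93_co.Serve
import Pool.Agent.Lib.MP_83ee93_co.Ident

/-!
# MP_83ee93_co: a pentagon in a critical pentagon is the critical pentagon
-/

set_option autoImplicit false

open MeasureTheory

namespace Pool.Agent.MP_83ee93_co

theorem out_zero (l p r : ℝ × ℝ) : out l p r 0 0 = p := by
  unfold out
  ext <;> simp

theorem nested_eq {v b : Fin 5 → ℝ × ℝ} (hb : Big b) (ht : tot b < 8) (hv : tot v < 8)
    (he0 : ear v 0 = 2) (he1 : ear v 1 = 2) (he3 : ear v 3 = 2)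
    (hin : ∀ i j, 0 ≤ D (v i) (v (i + 1)) (b j)) (hs : ∀ i, 0 ≤ phi b i (v i)) : v = b := by
  obtain ⟨e0, e1, e2, e3, e4⟩ := hb.ears
  obtain ⟨h6, hg⟩ := hb.golden
  have w0 := hb.w_nonneg ht 0
  have w1 := hb.w_nonneg ht 1
  have w2 := hb.w_nonneg ht 2
  have w3 := hb.w_nonneg ht 3
  have w4 := hb.w_nonneg ht 4
  change 0 ≤ tot b - D (b 4) (b 0) (b 1) - D (b 0) (b 1) (b 2) - D (b 2) (b 3) (b 4) at w0
  change 0 ≤ tot b - D (b 0) (b 1) (b 2) - D (b 1) (b 2) (b 3) - D (b 3) (b 4) (b 0) at w1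
  change 0 ≤ tot b - D (b 1) (b 2) (b 3) - D (b 2) (b 3) (b 4) - D (b 4) (b 0) (b 1) at w2
  change 0 ≤ tot b - D (b 2) (b 3) (b 4) - D (b 3) (b 4) (b 0) - D (b 0) (b 1) (b 2) at w3
  change 0 ≤ tot b - D (b 3) (b 4) (b 0) - D (b 4) (b 0) (b 1) - D (b 1) (b 2) (b 3) at w4
  have s0 := hs 0
  have s1 := hs 1
  have s2 := hs 2
  have s3 := hs 3
  have s4 := hs 4
  rw [phi0] at s0
  rw [phi1] at s1
  rw [phi2] at s2
  rw [phi3] at s3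
  rw [phi4] at s4
  have p0 : 0 ≤ D (v 0) (v 1) (b 0) := hin 0 0
  have p1 : 0 ≤ D (v 1) (v 2) (b 1) := hin 1 1
  have p2 : 0 ≤ D (v 2) (v 3) (b 2) := hin 2 2
  have p3 : 0 ≤ D (v 3) (v 4) (b 3) := hin 3 3
  have p4 : 0 ≤ D (v 4) (v 0) (b 4) := hin 4 4
  have r0 : 0 ≤ D (v 0) (v 1) (b 1) := hin 0 1
  have r1 : 0 ≤ D (v 1) (v 2) (b 2) := hin 1 2
  have r2 : 0 ≤ D (v 2) (v 3) (b 3) := hin 2 3
  have r3 : 0 ≤ D (v 3) (v 4) (b 4) := hin 3 4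
  have r4 : 0 ≤ D (v 4) (v 0) (b 0) := hin 4 0
  rw [ear0] at he0
  rw [ear1] at he1
  rw [ear3] at he3
  suffices hall : v 0 = b 0 ∧ v 1 = b 1 ∧ v 2 = b 2 ∧ v 3 = b 3 ∧ v 4 = b 4 by
    funext i
    fin_cases i
    · exact hall.1
    · exact hall.2.1
    · exact hall.2.2.1
    · exact hall.2.2.2.1
    · exact hall.2.2.2.2
  unfold tot at *
  generalize v 0 = v0 at *
  generalize v 1 = v1 at *
  generalize v 2 = v2 at *
  generalize v 3 = v3 at *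
  generalize v 4 = v4 at *
  generalize b 0 = b0 at *
  generalize b 1 = b1 at *
  generalize b 2 = b2 at *
  generalize b 3 = b3 at *
  generalize b 4 = b4 at *
  obtain ⟨E1, hE1⟩ : ∃ E, E = D b4 b0 b1 := ⟨_, rfl⟩
  obtain ⟨E2, hE2⟩ : ∃ E, E = D b0 b1 b2 := ⟨_, rfl⟩
  obtain ⟨E3, hE3⟩ : ∃ E, E = D b1 b2 b3 := ⟨_, rfl⟩
  obtain ⟨E4, hE4⟩ : ∃ E, E = D b2 b3 b4 := ⟨_, rfl⟩
  obtain ⟨E5, hE5⟩ : ∃ E, E = D b3 b4 b0 := ⟨_, rfl⟩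
  obtain ⟨A, hA⟩ : ∃ A, A = total b0 b1 b2 b3 b4 := ⟨_, rfl⟩
  rw [← hE1] at e0
  rw [← hE2] at e1
  rw [← hE3] at e2
  rw [← hE4] at e3
  rw [← hE5] at e4
  rw [← hA, ← hE1, ← hE2, ← hE4] at w0
  rw [← hA, ← hE2, ← hE3, ← hE5] at w1
  rw [← hA, ← hE3, ← hE4, ← hE1] at w2
  rw [← hA, ← hE4, ← hE5, ← hE2] at w3
  rw [← hA, ← hE5, ← hE1, ← hE3] at w4
  rw [← hA] at ht h6 hg
  have z1 : E1 ≠ 0 := by linarith only [e0]
  have z2 : E2 ≠ 0 := by linarith only [e1]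
  have z3 : E3 ≠ 0 := by linarith only [e2]
  have z4 : E4 ≠ 0 := by linarith only [e3]
  have z5 : E5 ≠ 0 := by linarith only [e4]
  obtain ⟨x1, hx1⟩ : ∃ x, x = -D b0 b1 v0 / E1 := ⟨_, rfl⟩
  obtain ⟨y1, hy1⟩ : ∃ x, x = -D b4 b0 v0 / E1 := ⟨_, rfl⟩
  obtain ⟨x2, hx2⟩ : ∃ x, x = -D b1 b2 v1 / E2 := ⟨_, rfl⟩
  obtain ⟨y2, hy2⟩ : ∃ x, x = -D b0 b1 v1 / E2 := ⟨_, rfl⟩
  obtain ⟨x3, hx3⟩ : ∃ x, x = -D b2 b3 v2 / E3 := ⟨_, rfl⟩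
  obtain ⟨y3, hy3⟩ : ∃ x, x = -D b1 b2 v2 / E3 := ⟨_, rfl⟩
  obtain ⟨x4, hx4⟩ : ∃ x, x = -D b3 b4 v3 / E4 := ⟨_, rfl⟩
  obtain ⟨y4, hy4⟩ : ∃ x, x = -D b2 b3 v3 / E4 := ⟨_, rfl⟩
  obtain ⟨x5, hx5⟩ : ∃ x, x = -D b4 b0 v4 / E5 := ⟨_, rfl⟩
  obtain ⟨y5, hy5⟩ : ∃ x, x = -D b3 b4 v4 / E5 := ⟨_, rfl⟩
  have o1 : v0 = out b4 b0 b1 x1 y1 := by rw [hx1, hy1]; exact eq_out hE1 z1
  have o2 : v1 = out b0 b1 b2 x2 y2 := by rw [hx2, hy2]; exact eq_out hE2 z2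
  have o3 : v2 = out b1 b2 b3 x3 y3 := by rw [hx3, hy3]; exact eq_out hE3 z3
  have o4 : v3 = out b2 b3 b4 x4 y4 := by rw [hx4, hy4]; exact eq_out hE4 z4
  have o5 : v4 = out b3 b4 b0 x5 y5 := by rw [hx5, hy5]; exact eq_out hE5 z5
  have ab1 : 0 ≤ x1 + y1 := by
    rw [hx1, hy1, ← add_div]; exact div_nonneg (by linarith only [s0]) (by linarith only [e0])
  have ab2 : 0 ≤ x2 + y2 := by
    rw [hx2, hy2, ← add_div]; exact div_nonneg (by linarith only [s1]) (by linarith only [e1])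
  have ab3 : 0 ≤ x3 + y3 := by
    rw [hx3, hy3, ← add_div]; exact div_nonneg (by linarith only [s2]) (by linarith only [e2])
  have ab4 : 0 ≤ x4 + y4 := by
    rw [hx4, hy4, ← add_div]; exact div_nonneg (by linarith only [s3]) (by linarith only [e3])
  have ab5 : 0 ≤ x5 + y5 := by
    rw [hx5, hy5, ← add_div]; exact div_nonneg (by linarith only [s4]) (by linarith only [e4])
  obtain ⟨W1, hW1⟩ : ∃ W, W = A - E1 - E2 - E4 := ⟨_, rfl⟩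
  obtain ⟨W2, hW2⟩ : ∃ W, W = A - E2 - E3 - E5 := ⟨_, rfl⟩
  obtain ⟨W3, hW3⟩ : ∃ W, W = A - E3 - E4 - E1 := ⟨_, rfl⟩
  obtain ⟨W4, hW4⟩ : ∃ W, W = A - E4 - E5 - E2 := ⟨_, rfl⟩
  obtain ⟨W5, hW5⟩ : ∃ W, W = A - E5 - E1 - E3 := ⟨_, rfl⟩
  have k1 : D b4 b0 b2 - D b4 b0 b1 = W1 := by
    rw [hW1, hA, hE1, hE2, hE4]; unfold total D; ring
  have k2 : D b0 b1 b3 - D b0 b1 b2 = W2 := by
    rw [hW2, hA, hE2, hE3, hE5]; unfold total D; ring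
  have k3 : D b1 b2 b4 - D b1 b2 b3 = W3 := by
    rw [hW3, hA, hE3, hE4, hE1]; unfold total D; ring
  have k4 : D b2 b3 b0 - D b2 b3 b4 = W4 := by
    rw [hW4, hA, hE4, hE5, hE2]; unfold total D; ring
  have k5 : D b3 b4 b1 - D b3 b4 b0 = W5 := by
    rw [hW5, hA, hE5, hE1, hE3]; unfold total D; ring
  obtain ⟨c1, hc1⟩ : ∃ c, c = x1 * E1 + y2 * E2 + (x1 * x2 * E1 - x1 * y2 * W1 + y1 * y2 * E2) :=
    ⟨_, rfl⟩
  obtain ⟨c2, hc2⟩ : ∃ c, c = x2 * E2 + y3 * E3 + (x2 * x3 * E2 - x2 * y3 * W2 + y2 * y3 * E3) :=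
    ⟨_, rfl⟩
  obtain ⟨c3, hc3⟩ : ∃ c, c = x3 * E3 + y4 * E4 + (x3 * x4 * E3 - x3 * y4 * W3 + y3 * y4 * E4) :=
    ⟨_, rfl⟩
  obtain ⟨c4, hc4⟩ : ∃ c, c = x4 * E4 + y5 * E5 + (x4 * x5 * E4 - x4 * y5 * W4 + y4 * y5 * E5) :=
    ⟨_, rfl⟩
  obtain ⟨c5, hc5⟩ : ∃ c, c = x5 * E5 + y1 * E1 + (x5 * x1 * E5 - x5 * y1 * W5 + y5 * y1 * E1) :=
    ⟨_, rfl⟩
  have hG := gain_ident b0 b1 b2 b3 b4 x1 x2 x3 x4 x5 y1 y2 y3 y4 y5 hA hE1 hE2 hE3 hE4 hE5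
    hW1 hW2 hW3 hW4 hW5 hc1 hc2 hc3 hc4 hc5
  have hT := area_ident b0 b1 b2 b3 b4 x1 x2 x3 x4 x5 y1 y2 y3 y4 y5 hA hE1 hE2 hE3 hE4 hE5
    hW1 hW2 hW3 hW4 hW5 hc1 hc2 hc3 hc4 hc5
  rw [← o1, ← o2, ← o3, ← o4, ← o5] at hG hT
  rw [he0, he1, he3] at hG
  rw [hT] at hv
  have q1 := side_left b4 b0 b1 b2 x1 y1 x2 y2
  have q2 := side_left b0 b1 b2 b3 x2 y2 x3 y3
  have q3 := side_left b1 b2 b3 b4 x3 y3 x4 y4
  have q4 := side_left b2 b3 b4 b0 x4 y4 x5 y5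
  have q5 := side_left b3 b4 b0 b1 x5 y5 x1 y1
  have t1 := side_right b4 b0 b1 b2 x1 y1 x2 y2
  have t2 := side_right b0 b1 b2 b3 x2 y2 x3 y3
  have t3 := side_right b1 b2 b3 b4 x3 y3 x4 y4
  have t4 := side_right b2 b3 b4 b0 x4 y4 x5 y5
  have t5 := side_right b3 b4 b0 b1 x5 y5 x1 y1
  rw [← o1, ← o2, k1, ← hE1, ← hE2] at q1 t1
  rw [← o2, ← o3, k2, ← hE2, ← hE3] at q2 t2
  rw [← o3, ← o4, k3, ← hE3, ← hE4] at q3 t3
  rw [← o4, ← o5, k4, ← hE4, ← hE5] at q4 t4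
  rw [← o5, ← o1, k5, ← hE5, ← hE1] at q5 t5
  rw [q1] at p0
  rw [q2] at p1
  rw [q3] at p2
  rw [q4] at p3
  rw [q5] at p4
  rw [t1] at r0
  rw [t2] at r1
  rw [t3] at r2
  rw [t4] at r3
  rw [t5] at r4
  have main := nested_gain (E1 := E1 / 2) (E2 := E2 / 2) (E3 := E3 / 2) (E4 := E4 / 2)
    (E5 := E5 / 2) (A := A / 2) (a1 := x1) (a2 := x2) (a3 := x3) (a4 := x4) (a5 := x5)
    (b1 := y1) (b2 := y2) (b3 := y3) (b4 := y4) (b5 := y5) (w1 := W1 / 2) (w2 := W2 / 2)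
    (w3 := W3 / 2) (w4 := W4 / 2) (w5 := W5 / 2) (c1 := c1 / 2) (c2 := c2 / 2) (c3 := c3 / 2)
    (c4 := c4 / 2) (c5 := c5 / 2)
    (by linarith only [e0]) (by linarith only [e1]) (by linarith only [e2])
    (by linarith only [e3]) (by linarith only [e4]) (by linarith only [h6])
    (by linarith only [hg]) (by rw [hW1]; ring) (by rw [hW2]; ring) (by rw [hW3]; ring)
    (by rw [hW4]; ring) (by rw [hW5]; ring)
    (by linarith only [w0, hW1]) (by linarith only [w1, hW2]) (by linarith only [w2, hW3])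
    (by linarith only [w3, hW4]) (by linarith only [w4, hW5])
    (by rw [hc1]; ring) (by rw [hc2]; ring) (by rw [hc3]; ring) (by rw [hc4]; ring)
    (by rw [hc5]; ring) ab1 ab2 ab3 ab4 ab5
    (by linarith only [p0]) (by linarith only [p1]) (by linarith only [p2])
    (by linarith only [p3]) (by linarith only [p4])
    (by linarith only [r0]) (by linarith only [r1]) (by linarith only [r2])
    (by linarith only [r3]) (by linarith only [r4])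
    (by linarith only [hv]) (by linarith only [hG, e0, e1, e3])
  obtain ⟨m1, m2, m3, m4, m5⟩ := main
  have m1 : c1 = 0 := by linarith only [m1]
  have m2 : c2 = 0 := by linarith only [m2]
  have m3 : c3 = 0 := by linarith only [m3]
  have m4 : c4 = 0 := by linarith only [m4]
  have m5 : c5 = 0 := by linarith only [m5]
  -- the coordinates vanish
  have X1 : x1 * E1 ≤ 0 := by linarith only [r0, hc1, m1]
  have X2 : x2 * E2 ≤ 0 := by linarith only [r1, hc2, m2]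
  have X3 : x3 * E3 ≤ 0 := by linarith only [r2, hc3, m3]
  have X4 : x4 * E4 ≤ 0 := by linarith only [r3, hc4, m4]
  have X5 : x5 * E5 ≤ 0 := by linarith only [r4, hc5, m5]
  have Y1 : y1 * E1 ≤ 0 := by linarith only [p4, hc5, m5]
  have Y2 : y2 * E2 ≤ 0 := by linarith only [p0, hc1, m1]
  have Y3 : y3 * E3 ≤ 0 := by linarith only [p1, hc2, m2]
  have Y4 : y4 * E4 ≤ 0 := by linarith only [p2, hc3, m3]
  have Y5 : y5 * E5 ≤ 0 := by linarith only [p3, hc4, m4]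
  have key : ∀ x y E : ℝ, 2 ≤ E → x * E ≤ 0 → y * E ≤ 0 → 0 ≤ x + y → x = 0 ∧ y = 0 := by
    intro x y E hE hx hy hxy
    have hx' : x ≤ 0 := by
      by_contra hcon
      push Not at hcon
      have : 0 < x * E := mul_pos hcon (by linarith only [hE])
      linarith only [this, hx]
    have hy' : y ≤ 0 := by
      by_contra hcon
      push Not at hcon
      have : 0 < y * E := mul_pos hcon (by linarith only [hE])
      linarith only [this, hy]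
    exact ⟨by linarith only [hx', hy', hxy], by linarith only [hx', hy', hxy]⟩
  obtain ⟨i1, j1⟩ := key _ _ _ e0 X1 Y1 ab1
  obtain ⟨i2, j2⟩ := key _ _ _ e1 X2 Y2 ab2
  obtain ⟨i3, j3⟩ := key _ _ _ e2 X3 Y3 ab3
  obtain ⟨i4, j4⟩ := key _ _ _ e3 X4 Y4 ab4
  obtain ⟨i5, j5⟩ := key _ _ _ e4 X5 Y5 ab5
  rw [i1, j1, out_zero] at o1
  rw [i2, j2, out_zero] at o2
  rw [i3, j3, out_zero] at o3
  rw [i4, j4, out_zero] at o4
  rw [i5, j5, out_zero] at o5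
  exact ⟨o1, o2, o3, o4, o5⟩

end Pool.Agent.MP_83ee93_co
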