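import Pool.Agent.Lib.MP_83ee93_co.Config

/-!
# MP_83ee93_co: five points without small triangles form a convex pentagon, six points always
have a small triangle
-/

set_option autoImplicit false

open MeasureTheory

namespace Pool.Agent.MP_83ee93_co

/-- A convex quadrilateral in counterclockwise order. -/
def Q4 (a b c d : ℝ × ℝ) : Prop := 0 < D a b c ∧ 0 < D a b d ∧ 0 < D a c d ∧ 0 < D b c d

/-- A convex pentagon in counterclockwise order. -/
def P5 (a b c d e : ℝ × ℝ) : Prop :=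
  0 < D a b c ∧ 0 < D a b d ∧ 0 < D a b e ∧ 0 < D a c d ∧ 0 < D a c e ∧ 0 < D a d e ∧
  0 < D b c d ∧ 0 < D b c e ∧ 0 < D b d e ∧ 0 < D c d e

theorem Q4.rot {a b c d : ℝ × ℝ} (h : Q4 a b c d) : Q4 b c d a := by
  obtain ⟨h1, h2, h3, h4⟩ := h
  refine ⟨h4, ?_, ?_, ?_⟩
  · rw [D_rot]; exact h1
  · rw [D_rot]; exact h2
  · rw [D_rot]; exact h3

theorem P5.rot {a b c d e : ℝ × ℝ} (h : P5 a b c d e) : P5 b c d e a := by
  obtain ⟨h1, h2, h3, h4, h5, h6, h7, h8, h9, h10⟩ := h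
  refine ⟨h7, h8, ?_, h9, ?_, ?_, h10, ?_, ?_, ?_⟩ <;> rw [D_rot] <;> assumption

variable {F : Set (ℝ × ℝ)}

section Fixed

variable {X : Finset (ℝ × ℝ)}

theorem noIn (hF : IsCompact F) (hc : Convex ℝ F) (hX : (X : Set (ℝ × ℝ)) ⊆ F)
    (hbig : AllBig F X) (hcard : 5 ≤ X.card) : NoIn (X : Set (ℝ × ℝ)) := by
  intro a ha b hb c hcx d hd h1 h2 h3 h4
  have n1 := ne_of_D h1.ne'
  have n2 := ne_of_D h2.ne'
  have n3 := ne_of_D h3.ne'
  have n4 := ne_of_D h4.ne'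
  obtain ⟨e, he, hne⟩ : ∃ e ∈ X, e ∉ ({a, b, c, d} : Finset (ℝ × ℝ)) := by
    apply Finset.exists_mem_notMem_of_card_lt_card
    calc ({a, b, c, d} : Finset (ℝ × ℝ)).card ≤ 4 := Finset.card_le_four
      _ < X.card := by omega
  simp only [Finset.mem_insert, Finset.mem_singleton, not_or] at hne
  obtain ⟨ea, eb, ec, ed⟩ := hne
  have he' : e ∈ (X : Set (ℝ × ℝ)) := he
  have z1 := hbig.ne_zero ha hb he' n1.1 (Ne.symm ea) (Ne.symm eb)
  have z2 := hbig.ne_zero hb hcx he' n1.2.2 (Ne.symm eb) (Ne.symm ec)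
  have z3 := hbig.ne_zero hcx ha he' n4.1 (Ne.symm ec) (Ne.symm ea)
  have z4 := hbig.ne_zero hd ha he' n2.2.1.symm (Ne.symm ed) (Ne.symm ea)
  have z5 := hbig.ne_zero hd hb he' n2.2.2.symm (Ne.symm ed) (Ne.symm eb)
  have z6 := hbig.ne_zero hd hcx he' n3.2.2.symm (Ne.symm ed) (Ne.symm ec)
  rcases lt_or_gt_of_ne z2 with s2 | s2
  · exact outside_contra hF hc hX hbig ha hb hcx hd he' h1 h2 h3 h4 s2
  rcases lt_or_gt_of_ne z3 with s3 | s3
  · exact outside_contra hF hc hX hbig hb hcx ha hd he' (by rw [D_rot]; exact h1) h3 h4 h2 s3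
  rcases lt_or_gt_of_ne z1 with s1 | s1
  · exact outside_contra hF hc hX hbig hcx ha hb hd he' (by rw [← D_rot]; exact h1) h4 h2 h3 s1
  -- the point `e` is inside the triangle `a b c`
  have e5 : D b d e = - D d b e := D_swap _ _ _
  have e4 : D a d e = - D d a e := D_swap _ _ _
  have e6 : D c d e = - D d c e := D_swap _ _ _
  rcases lt_or_gt_of_ne z4 with s4 | s4
  · rcases lt_or_gt_of_ne z5 with s5 | s5
    · rcases lt_or_gt_of_ne z6 with s6 | s6
      · -- all negative: impossible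
        have i1 : D c a d * D d b e = - (D a b d * D d c e + D b c d * D d a e) := by
          unfold D; ring
        nlinarith [mul_pos h4 (neg_pos.mpr s5), mul_pos h2 (neg_pos.mpr s6),
          mul_pos h3 (neg_pos.mpr s4)]
      · -- sector between c and a
        exact inside_contra hF hc hX hbig hb hcx ha hd he' (by rw [D_rot]; exact h1) h3 h4 h2 s3
          s6 (by linarith)
    · rcases lt_or_gt_of_ne z6 with s6 | s6
      · exact inside_contra hF hc hX hbig ha hb hcx hd he' h1 h2 h3 h4 s2 s5 (by linarith)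
      · exact inside_contra hF hc hX hbig hb hcx ha hd he' (by rw [D_rot]; exact h1) h3 h4 h2 s3
          s6 (by linarith)
  · rcases lt_or_gt_of_ne z5 with s5 | s5
    · exact inside_contra hF hc hX hbig hcx ha hb hd he' (by rw [← D_rot]; exact h1) h4 h2 h3 s1
          s4 (by linarith)
    · rcases lt_or_gt_of_ne z6 with s6 | s6
      · exact inside_contra hF hc hX hbig ha hb hcx hd he' h1 h2 h3 h4 s2 s5 (by linarith)
      · have i1 : D c a d * D d b e = - (D a b d * D d c e + D b c d * D d a e) := by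
          unfold D; ring
        nlinarith [mul_pos h4 s5, mul_pos h2 s6, mul_pos h3 s4]

/-- If `d` is beyond one side of a triangle, then it is on the inner side of the others. -/
theorem one_neg (hin : NoIn (X : Set (ℝ × ℝ))) (hbig : AllBig F X) {a b c d : ℝ × ℝ}
    (ha : a ∈ X) (hb : b ∈ X) (hcx : c ∈ X) (hd : d ∈ X) (h1 : 0 < D a b c)
    (h2 : D a b d < 0) (hdc : d ≠ c) : 0 < D b c d ∧ 0 < D c a d := by
  have n1 := ne_of_D h1.ne'
  have n2 := ne_of_D h2.ne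
  have z2 := hbig.ne_zero hb hcx hd n1.2.2 n2.2.2 hdc.symm
  have z3 := hbig.ne_zero hcx ha hd n1.2.1.symm hdc.symm n2.2.1
  have hadd := D_add a b c d
  rcases lt_or_gt_of_ne z2 with s2 | s2
  · rcases lt_or_gt_of_ne z3 with s3 | s3
    · linarith
    · -- b inside c a d
      exfalso
      refine hin c hcx a ha d hd b hb s3 ?_ ?_ ?_
      · rw [← D_rot]; exact h1
      · rw [D_swap']; linarith
      · have : D d c b = - D b c d := by unfold D; ring
        rw [this]; linarith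
  · rcases lt_or_gt_of_ne z3 with s3 | s3
    · exfalso
      refine hin b hb c hcx d hd a ha s2 ?_ ?_ ?_
      · rw [D_rot]; exact h1
      · have : D c d a = - D c a d := by unfold D; ring
        rw [this]; linarith
      · have : D d b a = - D a b d := by unfold D; ring
        rw [this]; linarith
    · exact ⟨s2, s3⟩

/-- Inserting a fifth point into a convex quadrilateral, beyond the side `a b`. -/
theorem insert_fifth (hin : NoIn (X : Set (ℝ × ℝ))) (hbig : AllBig F X) {a b c d e : ℝ × ℝ}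
    (ha : a ∈ X) (hb : b ∈ X) (hcx : c ∈ X) (hd : d ∈ X) (he : e ∈ X) (h : Q4 a b c d)
    (h2 : D a b e < 0) (hec : e ≠ c) (hed : e ≠ d) : P5 a e b c d := by
  obtain ⟨g1, g2, g3, g4⟩ := h
  obtain ⟨k1, k2⟩ := one_neg hin hbig ha hb hcx he g1 h2 hec
  obtain ⟨k3, k4⟩ := one_neg hin hbig ha hb hd he g2 h2 hed
  have n1 := ne_of_D k2.ne'
  have n2 := ne_of_D k3.ne'
  have n3 := ne_of_D g4.ne'
  have z : D c d e ≠ 0 := hbig.ne_zero hcx hd he n3.2.2 hec.symm hed.symm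
  have k5 : 0 < D c d e := by
    rcases lt_or_gt_of_ne z with s | s
    · exfalso
      have g5 : 0 < D c d a := by rw [D_rot]; exact g3
      obtain ⟨_, k6⟩ := one_neg hin hbig hcx hd ha he g5 s n1.2.2.symm
      have := D_swap a c e
      linarith
    · exact s
  refine ⟨?_, ?_, ?_, g1, g2, g3, ?_, ?_, ?_, g4⟩
  · rw [D_swap']; linarith
  · rw [D_rot]; exact k2
  · rw [D_rot]; exact k4
  · rw [← D_rot]; exact k1
  · rw [← D_rot]; exact k3
  · rw [← D_rot]; exact k5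

/-- Four points can be ordered into a convex quadrilateral. -/
theorem exists_quad (hin : NoIn (X : Set (ℝ × ℝ))) (hbig : AllBig F X) {a b c d : ℝ × ℝ}
    (ha : a ∈ X) (hb : b ∈ X) (hcx : c ∈ X) (hd : d ∈ X) (h1 : 0 < D a b c)
    (hda : d ≠ a) (hdb : d ≠ b) (hdc : d ≠ c) :
    Q4 a d b c ∨ Q4 a b d c ∨ Q4 a b c d := by
  have n1 := ne_of_D h1.ne'
  have z1 := hbig.ne_zero ha hb hd n1.1 hda.symm hdb.symm
  have z2 := hbig.ne_zero hb hcx hd n1.2.2 hdb.symm hdc.symm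
  have z3 := hbig.ne_zero hcx ha hd n1.2.1.symm hdc.symm hda.symm
  rcases lt_or_gt_of_ne z1 with s1 | s1
  · obtain ⟨k1, k2⟩ := one_neg hin hbig ha hb hcx hd h1 s1 hdc
    left
    refine ⟨?_, ?_, h1, ?_⟩
    · rw [D_swap']; linarith
    · rw [D_rot]; exact k2
    · rw [← D_rot]; exact k1
  rcases lt_or_gt_of_ne z2 with s2 | s2
  · have h1' : 0 < D b c a := by rw [D_rot]; exact h1
    obtain ⟨k1, k2⟩ := one_neg hin hbig hb hcx ha hd h1' s2 hda
    right; left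
    refine ⟨s1, h1, ?_, ?_⟩
    · rw [D_rot]; exact k1
    · rw [D_swap']; linarith
  rcases lt_or_gt_of_ne z3 with s3 | s3
  · right; right
    refine ⟨h1, s1, ?_, s2⟩
    have : D a c d = - D c a d := D_swap _ _ _
    rw [this]; linarith
  · exfalso
    exact hin a ha b hb c hcx d hd h1 s1 s2 s3

/-- A convex quadrilateral and a fifth point can be ordered into a convex pentagon. -/
theorem quad_to_pentagon (hin : NoIn (X : Set (ℝ × ℝ))) (hbig : AllBig F X)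
    {a b c d e : ℝ × ℝ} (ha : a ∈ X) (hb : b ∈ X) (hcx : c ∈ X) (hd : d ∈ X) (he : e ∈ X)
    (h : Q4 a b c d) (hea : e ≠ a) (heb : e ≠ b) (hec : e ≠ c) (hed : e ≠ d) :
    ∃ p q r s t, (p ∈ X ∧ q ∈ X ∧ r ∈ X ∧ s ∈ X ∧ t ∈ X) ∧ P5 p q r s t := by
  obtain ⟨g1, g2, g3, g4⟩ := h
  have n1 := ne_of_D g1.ne'
  have n2 := ne_of_D g2.ne'
  have n3 := ne_of_D g3.ne'
  have n4 := ne_of_D g4.ne'
  have z1 := hbig.ne_zero ha hb he n1.1 hea.symm heb.symm
  have z2 := hbig.ne_zero hb hcx he n4.1 heb.symm hec.symm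
  have z3 := hbig.ne_zero hcx hd he n4.2.2 hec.symm hed.symm
  have z4 := hbig.ne_zero hd ha he n2.2.1.symm hed.symm hea.symm
  have z5 := hbig.ne_zero ha hcx he n1.2.1 hea.symm hec.symm
  have hQ : Q4 a b c d := ⟨g1, g2, g3, g4⟩
  rcases lt_or_gt_of_ne z1 with s1 | s1
  · exact ⟨_, _, _, _, _, ⟨ha, he, hb, hcx, hd⟩,
      insert_fifth hin hbig ha hb hcx hd he hQ s1 hec hed⟩
  rcases lt_or_gt_of_ne z2 with s2 | s2
  · exact ⟨_, _, _, _, _, ⟨hb, he, hcx, hd, ha⟩,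
      insert_fifth hin hbig hb hcx hd ha he hQ.rot s2 hed hea⟩
  rcases lt_or_gt_of_ne z3 with s3 | s3
  · exact ⟨_, _, _, _, _, ⟨hcx, he, hd, ha, hb⟩,
      insert_fifth hin hbig hcx hd ha hb he hQ.rot.rot s3 hea heb⟩
  rcases lt_or_gt_of_ne z4 with s4 | s4
  · exact ⟨_, _, _, _, _, ⟨hd, he, ha, hb, hcx⟩,
      insert_fifth hin hbig hd ha hb hcx he hQ.rot.rot.rot s4 heb hec⟩
  exfalso
  rcases lt_or_gt_of_ne z5 with s5 | s5
  · refine hin a ha b hb c hcx e he g1 s1 s2 ?_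
    have : D c a e = - D a c e := D_swap _ _ _
    rw [this]; linarith
  · exact hin a ha c hcx d hd e he g3 s5 s3 s4

/-- Five points without small triangles contain a convex pentagon. -/
theorem exists_pentagon (hF : IsCompact F) (hc : Convex ℝ F) (hX : (X : Set (ℝ × ℝ)) ⊆ F)
    (hbig : AllBig F X) (hcard : 5 ≤ X.card) :
    ∃ p q r s t, (p ∈ X ∧ q ∈ X ∧ r ∈ X ∧ s ∈ X ∧ t ∈ X) ∧ P5 p q r s t := by
  have hin := noIn hF hc hX hbig hcard
  obtain ⟨Y, hY, hYc⟩ := Finset.exists_subset_card_eq hcard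
  let f := Y.equivFinOfCardEq hYc
  have hf : ∀ i, ((f.symm i : Y) : ℝ × ℝ) ∈ X := fun i => hY (f.symm i).2
  have hne : ∀ i j, i ≠ j → ((f.symm i : Y) : ℝ × ℝ) ≠ (f.symm j : Y) := by
    intro i j hij h
    exact hij (f.symm.injective (Subtype.ext h))
  obtain ⟨a, ha⟩ : ∃ a, a = ((f.symm 0 : Y) : ℝ × ℝ) := ⟨_, rfl⟩
  obtain ⟨b, hb⟩ : ∃ a, a = ((f.symm 1 : Y) : ℝ × ℝ) := ⟨_, rfl⟩
  obtain ⟨c, hcx⟩ : ∃ a, a = ((f.symm 2 : Y) : ℝ × ℝ) := ⟨_, rfl⟩
  obtain ⟨d, hd⟩ : ∃ a, a = ((f.symm 3 : Y) : ℝ × ℝ) := ⟨_, rfl⟩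
  obtain ⟨e, he⟩ : ∃ a, a = ((f.symm 4 : Y) : ℝ × ℝ) := ⟨_, rfl⟩
  have ma : a ∈ X := ha ▸ hf 0
  have mb : b ∈ X := hb ▸ hf 1
  have mc : c ∈ X := hcx ▸ hf 2
  have md : d ∈ X := hd ▸ hf 3
  have me : e ∈ X := he ▸ hf 4
  have ab : a ≠ b := by rw [ha, hb]; exact hne _ _ (by decide)
  have ac : a ≠ c := by rw [ha, hcx]; exact hne _ _ (by decide)
  have ad : a ≠ d := by rw [ha, hd]; exact hne _ _ (by decide)
  have ae : a ≠ e := by rw [ha, he]; exact hne _ _ (by decide)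
  have bc : b ≠ c := by rw [hb, hcx]; exact hne _ _ (by decide)
  have bd : b ≠ d := by rw [hb, hd]; exact hne _ _ (by decide)
  have be : b ≠ e := by rw [hb, he]; exact hne _ _ (by decide)
  have cd : c ≠ d := by rw [hcx, hd]; exact hne _ _ (by decide)
  have ce : c ≠ e := by rw [hcx, he]; exact hne _ _ (by decide)
  have de : d ≠ e := by rw [hd, he]; exact hne _ _ (by decide)
  have key : ∀ a b c : ℝ × ℝ, a ∈ X → b ∈ X → c ∈ X → 0 < D a b c → a ≠ d → a ≠ e → b ≠ d →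
      b ≠ e → c ≠ d → c ≠ e →
      ∃ p q r s t, (p ∈ X ∧ q ∈ X ∧ r ∈ X ∧ s ∈ X ∧ t ∈ X) ∧ P5 p q r s t := by
    intro a b c ma mb mc h ad ae bd be cd ce
    rcases exists_quad hin hbig ma mb mc md h ad.symm bd.symm cd.symm with hq | hq | hq
    · exact quad_to_pentagon hin hbig ma md mb mc me hq ae.symm de.symm be.symm ce.symm
    · exact quad_to_pentagon hin hbig ma mb md mc me hq ae.symm be.symm de.symm ce.symm
    · exact quad_to_pentagon hin hbig ma mb mc md me hq ae.symm be.symm ce.symm de.symm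
  rcases lt_or_gt_of_ne (hbig.ne_zero ma mb mc ab ac bc) with h | h
  · refine key b a c mb ma mc ?_ bd be ad ae cd ce
    rw [D_swap]; linarith
  · exact key a b c ma mb mc h ad ae bd be cd ce

/-- A sixth point beyond the side `a b` of a convex pentagon. -/
theorem sixth_contra (hF : IsCompact F) (hc : Convex ℝ F) (hX : (X : Set (ℝ × ℝ)) ⊆ F)
    (hbig : AllBig F X) {a b c d e x : ℝ × ℝ}
    (ha : a ∈ X) (hb : b ∈ X) (hcx : c ∈ X) (hd : d ∈ X) (he : e ∈ X) (hx : x ∈ X)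
    (h : P5 a b c d e) (hs : D a b x < 0) : False := by
  obtain ⟨h1, h2, h3, h4, h5, h6, h7, h8, h9, h10⟩ := h
  have n1 := ne_of_D h1.ne'
  have n4 := ne_of_D h4.ne'
  have n6 := ne_of_D h6.ne'
  have ns := ne_of_D hs.ne
  refine four_tri hF hc (hX ha) (hX hb) (hX hcx) (hX ha) (hX hcx) (hX hd) (hX ha) (hX hd) (hX he)
    (hX hx) (hX hb) (hX ha) ⟨c, a, n1.2.1.symm, ?_, ?_⟩ ⟨c, a, n1.2.1.symm, ?_, ?_⟩
    ⟨a, b, n1.1, ?_, ?_⟩ ⟨d, a, n6.1.symm, ?_, ?_⟩ ⟨a, b, n1.1, ?_, ?_⟩ ⟨a, b, n1.1, ?_, ?_⟩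
    (hbig a ha b hb c hcx n1.1 n1.2.1 n1.2.2)
    (hbig a ha c hcx d hd n4.1 n4.2.1 n4.2.2)
    (hbig a ha d hd e he n6.1 n6.2.1 n6.2.2)
    (hbig x hx b hb a ha ns.2.2.symm ns.2.1.symm ns.1.symm)
  all_goals
    simp only [D] at h1 h2 h3 h4 h5 h6 h7 h8 h9 h10 hs ⊢
    refine ⟨?_, ?_, ?_⟩ <;> nlinarith only [h1, h2, h3, h4, h5, h6, h7, h8, h9, h10, hs]

end Fixed

/-- Every convex figure has the small triangle property for six points. -/
theorem hasSmallTriangle_six (hF : IsCompact F) (hc : Convex ℝ F) : HasSmallTriangle F 6 := by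
  intro X hX hcard
  by_contra hcon
  push Not at hcon
  have hbig : AllBig F X := by
    intro a ha b hb c hcx h1 h2 h3
    have := hcon a ha b hb c hcx h1 h2 h3
    rw [area_triangle] at this
    linarith
  obtain ⟨p, q, r, s, t, ⟨hp, hq, hr, hs, ht⟩, hP⟩ :=
    exists_pentagon hF hc hX hbig (by omega)
  have hin := noIn hF hc hX hbig (by omega)
  obtain ⟨x, hx, hne⟩ : ∃ x ∈ X, x ∉ ({p, q, r, s, t} : Finset (ℝ × ℝ)) := by
    apply Finset.exists_mem_notMem_of_card_lt_card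
    calc ({p, q, r, s, t} : Finset (ℝ × ℝ)).card ≤ 5 := Finset.card_le_five
      _ < X.card := by omega
  simp only [Finset.mem_insert, Finset.mem_singleton, not_or] at hne
  obtain ⟨xp, xq, xr, xs, xt⟩ := hne
  obtain ⟨h1, h2, h3, h4, h5, h6, h7, h8, h9, h10⟩ := hP
  have hP : P5 p q r s t := ⟨h1, h2, h3, h4, h5, h6, h7, h8, h9, h10⟩
  have n1 := ne_of_D h1.ne'
  have n4 := ne_of_D h4.ne'
  have n6 := ne_of_D h6.ne'
  have z1 := hbig.ne_zero hp hq hx n1.1 (Ne.symm xp) (Ne.symm xq)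
  have z2 := hbig.ne_zero hq hr hx n1.2.2 (Ne.symm xq) (Ne.symm xr)
  have z3 := hbig.ne_zero hr hs hx n4.2.2 (Ne.symm xr) (Ne.symm xs)
  have z4 := hbig.ne_zero hs ht hx n6.2.2 (Ne.symm xs) (Ne.symm xt)
  have z5 := hbig.ne_zero ht hp hx n6.2.1.symm (Ne.symm xt) (Ne.symm xp)
  have z6 := hbig.ne_zero hp hr hx n1.2.1 (Ne.symm xp) (Ne.symm xr)
  have z7 := hbig.ne_zero hp hs hx n4.2.1 (Ne.symm xp) (Ne.symm xs)
  rcases lt_or_gt_of_ne z1 with s1 | s1
  · exact sixth_contra hF hc hX hbig hp hq hr hs ht hx hP s1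
  rcases lt_or_gt_of_ne z2 with s2 | s2
  · exact sixth_contra hF hc hX hbig hq hr hs ht hp hx hP.rot s2
  rcases lt_or_gt_of_ne z3 with s3 | s3
  · exact sixth_contra hF hc hX hbig hr hs ht hp hq hx hP.rot.rot s3
  rcases lt_or_gt_of_ne z4 with s4 | s4
  · exact sixth_contra hF hc hX hbig hs ht hp hq hr hx hP.rot.rot.rot s4
  rcases lt_or_gt_of_ne z5 with s5 | s5
  · exact sixth_contra hF hc hX hbig ht hp hq hr hs hx hP.rot.rot.rot.rot s5
  rcases lt_or_gt_of_ne z6 with s6 | s6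
  · refine hin p hp q hq r hr x hx h1 s1 s2 ?_
    have : D r p x = - D p r x := D_swap _ _ _
    rw [this]; linarith
  rcases lt_or_gt_of_ne z7 with s7 | s7
  · refine hin p hp r hr s hs x hx h4 s6 s3 ?_
    have : D s p x = - D p s x := D_swap _ _ _
    rw [this]; linarith
  · exact hin p hp s hs t ht x hx h6 s7 s4 s5

end Pool.Agent.MP_83ee93_co
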