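import Pool.Agent.Lib.MP_83ee93_co.Gain
import Pool.Agent.Lib.MP_83ee93_co.Converse

/-!
# MP_83ee93_co: convex pentagons with cyclic indices
-/

set_option autoImplicit false

open MeasureTheory

namespace Pool.Agent.MP_83ee93_co

/-- Twice the area of the triangle cut off at the vertex `j`. -/
def ear (b : Fin 5 → ℝ × ℝ) (j : Fin 5) : ℝ := D (b (j + 4)) (b j) (b (j + 1))

/-- Twice the area of the pentagon. -/
def tot (b : Fin 5 → ℝ × ℝ) : ℝ := total (b 0) (b 1) (b 2) (b 3) (b 4)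

/-- Twice the signed area of the triangle over the side `j`, positive outside the pentagon. -/
def gf (b : Fin 5 → ℝ × ℝ) (j : Fin 5) (x : ℝ × ℝ) : ℝ := - D (b j) (b (j + 1)) x

/-- The affine functional that vanishes at `b j` and on its parallel to `b (j - 1) b (j + 1)`. -/
def phi (b : Fin 5 → ℝ × ℝ) (j : Fin 5) (x : ℝ × ℝ) : ℝ := gf b (j + 4) x + gf b j x

/-- All triangles of the convex pentagon `b` have area at least one. -/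
structure Big (b : Fin 5 → ℝ × ℝ) : Prop where
  hear : ∀ j, 2 ≤ ear b j
  hcore : ∀ j, 2 ≤ D (b j) (b (j + 1)) (b (j + 3))

/-- The rotated pentagon. -/
def rotb (b : Fin 5 → ℝ × ℝ) (s : Fin 5) : Fin 5 → ℝ × ℝ := fun i => b (i + s)

theorem rotb_apply (b : Fin 5 → ℝ × ℝ) (s i : Fin 5) : rotb b s i = b (i + s) := rfl

theorem tot_rotb (b : Fin 5 → ℝ × ℝ) (s : Fin 5) : tot (rotb b s) = tot b := by
  fin_cases s
  · change total (b 0) (b 1) (b 2) (b 3) (b 4) = total (b 0) (b 1) (b 2) (b 3) (b 4)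
    rfl
  · change total (b 1) (b 2) (b 3) (b 4) (b 0) = total (b 0) (b 1) (b 2) (b 3) (b 4)
    unfold total D; ring
  · change total (b 2) (b 3) (b 4) (b 0) (b 1) = total (b 0) (b 1) (b 2) (b 3) (b 4)
    unfold total D; ring
  · change total (b 3) (b 4) (b 0) (b 1) (b 2) = total (b 0) (b 1) (b 2) (b 3) (b 4)
    unfold total D; ring
  · change total (b 4) (b 0) (b 1) (b 2) (b 3) = total (b 0) (b 1) (b 2) (b 3) (b 4)
    unfold total D; ring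

theorem ear_rotb (b : Fin 5 → ℝ × ℝ) (s j : Fin 5) : ear (rotb b s) j = ear b (j + s) := by
  unfold ear rotb
  rw [add_right_comm j 4 s, add_right_comm j 1 s]

theorem gf_rotb (b : Fin 5 → ℝ × ℝ) (s j : Fin 5) (x : ℝ × ℝ) :
    gf (rotb b s) j x = gf b (j + s) x := by
  unfold gf rotb
  rw [add_right_comm j 1 s]

theorem phi_rotb (b : Fin 5 → ℝ × ℝ) (s j : Fin 5) (x : ℝ × ℝ) :
    phi (rotb b s) j x = phi b (j + s) x := by
  unfold phi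
  rw [gf_rotb, gf_rotb, add_right_comm j 4 s]

theorem Big.rotb {b : Fin 5 → ℝ × ℝ} (h : Big b) (s : Fin 5) : Big (rotb b s) := by
  constructor
  · intro j
    rw [ear_rotb]
    exact h.hear _
  · intro j
    unfold MP_83ee93_co.rotb
    rw [add_right_comm j 1 s, add_right_comm j 3 s]
    exact h.hcore _

/-- Ears of the pentagon `b` written out. -/
theorem ear0 (b : Fin 5 → ℝ × ℝ) : ear b 0 = D (b 4) (b 0) (b 1) := rfl
theorem ear1 (b : Fin 5 → ℝ × ℝ) : ear b 1 = D (b 0) (b 1) (b 2) := rfl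
theorem ear2 (b : Fin 5 → ℝ × ℝ) : ear b 2 = D (b 1) (b 2) (b 3) := rfl
theorem ear3 (b : Fin 5 → ℝ × ℝ) : ear b 3 = D (b 2) (b 3) (b 4) := rfl
theorem ear4 (b : Fin 5 → ℝ × ℝ) : ear b 4 = D (b 3) (b 4) (b 0) := rfl

theorem gf0 (b : Fin 5 → ℝ × ℝ) (x : ℝ × ℝ) : gf b 0 x = -D (b 0) (b 1) x := rfl
theorem gf1 (b : Fin 5 → ℝ × ℝ) (x : ℝ × ℝ) : gf b 1 x = -D (b 1) (b 2) x := rfl
theorem gf2 (b : Fin 5 → ℝ × ℝ) (x : ℝ × ℝ) : gf b 2 x = -D (b 2) (b 3) x := rfl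
theorem gf3 (b : Fin 5 → ℝ × ℝ) (x : ℝ × ℝ) : gf b 3 x = -D (b 3) (b 4) x := rfl
theorem gf4 (b : Fin 5 → ℝ × ℝ) (x : ℝ × ℝ) : gf b 4 x = -D (b 4) (b 0) x := rfl

theorem phi0 (b : Fin 5 → ℝ × ℝ) (x : ℝ × ℝ) :
    phi b 0 x = -D (b 4) (b 0) x - D (b 0) (b 1) x := by
  change -D (b 4) (b 0) x + -D (b 0) (b 1) x = _; ring
theorem phi1 (b : Fin 5 → ℝ × ℝ) (x : ℝ × ℝ) :
    phi b 1 x = -D (b 0) (b 1) x - D (b 1) (b 2) x := by
  change -D (b 0) (b 1) x + -D (b 1) (b 2) x = _; ring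
theorem phi2 (b : Fin 5 → ℝ × ℝ) (x : ℝ × ℝ) :
    phi b 2 x = -D (b 1) (b 2) x - D (b 2) (b 3) x := by
  change -D (b 1) (b 2) x + -D (b 2) (b 3) x = _; ring
theorem phi3 (b : Fin 5 → ℝ × ℝ) (x : ℝ × ℝ) :
    phi b 3 x = -D (b 2) (b 3) x - D (b 3) (b 4) x := by
  change -D (b 2) (b 3) x + -D (b 3) (b 4) x = _; ring
theorem phi4 (b : Fin 5 → ℝ × ℝ) (x : ℝ × ℝ) :
    phi b 4 x = -D (b 3) (b 4) x - D (b 4) (b 0) x := by
  change -D (b 3) (b 4) x + -D (b 4) (b 0) x = _; ring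

/-- The cores written out. -/
theorem Big.cores {b : Fin 5 → ℝ × ℝ} (h : Big b) :
    2 ≤ D (b 0) (b 1) (b 3) ∧ 2 ≤ D (b 1) (b 2) (b 4) ∧ 2 ≤ D (b 2) (b 3) (b 0) ∧
      2 ≤ D (b 3) (b 4) (b 1) ∧ 2 ≤ D (b 4) (b 0) (b 2) :=
  ⟨h.hcore 0, h.hcore 1, h.hcore 2, h.hcore 3, h.hcore 4⟩

theorem Big.ears {b : Fin 5 → ℝ × ℝ} (h : Big b) :
    2 ≤ D (b 4) (b 0) (b 1) ∧ 2 ≤ D (b 0) (b 1) (b 2) ∧ 2 ≤ D (b 1) (b 2) (b 3) ∧
      2 ≤ D (b 2) (b 3) (b 4) ∧ 2 ≤ D (b 3) (b 4) (b 0) :=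
  ⟨h.hear 0, h.hear 1, h.hear 2, h.hear 3, h.hear 4⟩

/-- A pentagon in convex position all of whose triangles are large. -/
theorem Big.adm {b : Fin 5 → ℝ × ℝ} (h : Big b) {F : Set (ℝ × ℝ)} (hF : ∀ i, b i ∈ F) :
    Adm F 2 (b 0) (b 1) (b 2) (b 3) (b 4) := by
  obtain ⟨e0, e1, e2, e3, e4⟩ := h.ears
  obtain ⟨c0, c1, c2, c3, c4⟩ := h.cores
  exact ⟨⟨hF 0, hF 1, hF 2, hF 3, hF 4⟩, ⟨e0, e1, e2, e3, e4⟩,
    ⟨by linarith, by linarith, by linarith, by linarith, by linarith⟩⟩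

/-- The golden bound for the area. -/
theorem Big.golden {b : Fin 5 → ℝ × ℝ} (h : Big b) :
    6 < tot b ∧ 0 ≤ tot b ^ 2 - 10 * tot b + 20 := by
  obtain ⟨e0, e1, e2, e3, e4⟩ := h.ears
  obtain ⟨c0, c1, c2, c3, c4⟩ := h.cores
  have hg : tot b ^ 2 - (D (b 4) (b 0) (b 1) + D (b 0) (b 1) (b 2) + D (b 1) (b 2) (b 3)
      + D (b 2) (b 3) (b 4) + D (b 3) (b 4) (b 0)) * tot b
      + (D (b 4) (b 0) (b 1) * D (b 0) (b 1) (b 2) + D (b 0) (b 1) (b 2) * D (b 1) (b 2) (b 3)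
      + D (b 1) (b 2) (b 3) * D (b 2) (b 3) (b 4) + D (b 2) (b 3) (b 4) * D (b 3) (b 4) (b 0)
      + D (b 3) (b 4) (b 0) * D (b 4) (b 0) (b 1)) = 0 := by
    unfold tot total D; ring
  have t0 : tot b = D (b 4) (b 0) (b 1) + D (b 2) (b 3) (b 4) + D (b 1) (b 2) (b 4) := by
    unfold tot total D; ring
  have t1 : tot b = D (b 0) (b 1) (b 2) + D (b 3) (b 4) (b 0) + D (b 2) (b 3) (b 0) := by
    unfold tot total D; ring
  have t2 : tot b = D (b 1) (b 2) (b 3) + D (b 4) (b 0) (b 1) + D (b 3) (b 4) (b 1) := by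
    unfold tot total D; ring
  have t3 : tot b = D (b 2) (b 3) (b 4) + D (b 0) (b 1) (b 2) + D (b 4) (b 0) (b 2) := by
    unfold tot total D; ring
  have t4 : tot b = D (b 3) (b 4) (b 0) + D (b 1) (b 2) (b 3) + D (b 0) (b 1) (b 3) := by
    unfold tot total D; ring
  obtain ⟨T, hT⟩ : ∃ T, T = tot b := ⟨_, rfl⟩
  obtain ⟨E0, hE0⟩ : ∃ E, E = D (b 4) (b 0) (b 1) := ⟨_, rfl⟩
  obtain ⟨E1, hE1⟩ : ∃ E, E = D (b 0) (b 1) (b 2) := ⟨_, rfl⟩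
  obtain ⟨E2, hE2⟩ : ∃ E, E = D (b 1) (b 2) (b 3) := ⟨_, rfl⟩
  obtain ⟨E3, hE3⟩ : ∃ E, E = D (b 2) (b 3) (b 4) := ⟨_, rfl⟩
  obtain ⟨E4, hE4⟩ : ∃ E, E = D (b 3) (b 4) (b 0) := ⟨_, rfl⟩
  rw [← hT, ← hE0, ← hE1, ← hE2, ← hE3, ← hE4] at hg
  rw [← hT] at t0 t1 t2 t3 t4 ⊢
  rw [← hE0] at e0 t0 t2
  rw [← hE1] at e1 t1 t3
  rw [← hE2] at e2 t2 t4
  rw [← hE3] at e3 t0 t3
  rw [← hE4] at e4 t1 t4
  have x0 : E0 ≤ T - 4 := by linarith only [t0, e3, c1]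
  have x1 : E1 ≤ T - 4 := by linarith only [t1, e4, c2]
  have x2 : E2 ≤ T - 4 := by linarith only [t2, e0, c3]
  have x3 : E3 ≤ T - 4 := by linarith only [t3, e1, c4]
  have x4 : E4 ≤ T - 4 := by linarith only [t4, e2, c0]
  have p0 := mul_nonneg (sub_nonneg.mpr e0) (sub_nonneg.mpr x1)
  have p1 := mul_nonneg (sub_nonneg.mpr e1) (sub_nonneg.mpr x2)
  have p2 := mul_nonneg (sub_nonneg.mpr e2) (sub_nonneg.mpr x3)
  have p3 := mul_nonneg (sub_nonneg.mpr e3) (sub_nonneg.mpr x4)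
  have p4 := mul_nonneg (sub_nonneg.mpr e4) (sub_nonneg.mpr x0)
  have hq : 0 ≤ T ^ 2 - 10 * T + 20 := by nlinarith only [p0, p1, p2, p3, p4, hg, e0, e1, e2, e3, e4]
  have h6 : 6 ≤ T := by linarith only [t0, e0, e3, c1]
  refine ⟨?_, hq⟩
  rcases lt_or_eq_of_le h6 with h | h
  · exact h
  · rw [← h] at hq
    norm_num at hq

end Pool.Agent.MP_83ee93_co
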