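import Pool.Agent.Lib.MP_83ee93_co.Area

/-!
# MP_83ee93_co: families of separated triangles in a convex figure
-/

set_option autoImplicit false

open MeasureTheory

namespace Pool.Agent.MP_83ee93_co

theorem D_combo (u v a b : ℝ × ℝ) (s t : ℝ) (h : s + t = 1) :
    D u v (s • a + t • b) = s * D u v a + t * D u v b := by
  have : t = 1 - s := by linarith
  subst this
  simp [D]
  ring

theorem convex_D_nonneg (u v : ℝ × ℝ) : Convex ℝ {p | 0 ≤ D u v p} := by
  intro a ha b hb s t hs ht h
  simp only [Set.mem_ofPred_eq] at *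
  rw [D_combo u v a b s t h]
  positivity

theorem convex_D_nonpos (u v : ℝ × ℝ) : Convex ℝ {p | D u v p ≤ 0} := by
  intro a ha b hb s t hs ht h
  simp only [Set.mem_ofPred_eq] at *
  rw [D_combo u v a b s t h]
  have := mul_nonneg hs (neg_nonneg.mpr ha)
  have := mul_nonneg ht (neg_nonneg.mpr hb)
  linarith

/-- Lines are null sets. -/
theorem volume_line {u v : ℝ × ℝ} (h : u ≠ v) : volume {p | D u v p = 0} = 0 := by
  let f : (ℝ × ℝ) →ₗ[ℝ] ℝ :=
    (v.1 - u.1) • LinearMap.snd ℝ ℝ ℝ - (v.2 - u.2) • LinearMap.fst ℝ ℝ ℝ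
  have hf : LinearMap.ker f ≠ ⊤ := by
    intro hk
    have h1 : f (-(v.2 - u.2), v.1 - u.1) = 0 := by
      have : (-(v.2 - u.2), v.1 - u.1) ∈ LinearMap.ker f := by rw [hk]; trivial
      exact LinearMap.mem_ker.mp this
    simp only [f, LinearMap.sub_apply, LinearMap.smul_apply, LinearMap.snd_apply,
      LinearMap.fst_apply, smul_eq_mul] at h1
    have h2 : v.1 - u.1 = 0 := by nlinarith [sq_nonneg (v.1 - u.1), sq_nonneg (v.2 - u.2)]
    have h3 : v.2 - u.2 = 0 := by nlinarith [sq_nonneg (v.1 - u.1), sq_nonneg (v.2 - u.2)]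
    apply h
    ext
    · linarith
    · linarith
  have h1 : {p | D u v p = 0} = (fun p => -u + p) ⁻¹' (LinearMap.ker f : Set (ℝ × ℝ)) := by
    ext p
    simp only [Set.mem_ofPred_eq, Set.mem_preimage, SetLike.mem_coe, LinearMap.mem_ker, f,
      LinearMap.sub_apply, LinearMap.smul_apply, LinearMap.snd_apply, LinearMap.fst_apply,
      smul_eq_mul, D, Prod.fst_add, Prod.snd_add, Prod.fst_neg, Prod.snd_neg]
    constructor <;> intro h <;> linarith
  rw [h1, measure_preimage_add]
  exact Measure.addHaar_submodule _ _ hf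

/-- The triangles `a b c` and `a' b' c'` are separated by a line. -/
def SepT (a b c a' b' c' : ℝ × ℝ) : Prop :=
  ∃ u v : ℝ × ℝ, u ≠ v ∧ (0 ≤ D u v a ∧ 0 ≤ D u v b ∧ 0 ≤ D u v c) ∧
    (D u v a' ≤ 0 ∧ D u v b' ≤ 0 ∧ D u v c' ≤ 0)

theorem aedisjoint_of_sepT {a b c a' b' c' : ℝ × ℝ} (h : SepT a b c a' b' c') :
    AEDisjoint volume (convexHull ℝ {a, b, c}) (convexHull ℝ {a', b', c'}) := by
  obtain ⟨u, v, huv, ⟨h1, h2, h3⟩, h4, h5, h6⟩ := h
  have hA : convexHull ℝ {a, b, c} ⊆ {p | 0 ≤ D u v p} := by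
    apply convexHull_min _ (convex_D_nonneg u v)
    intro p hp
    simp only [Set.mem_insert_iff, Set.mem_singleton_iff] at hp
    rcases hp with rfl | rfl | rfl <;> assumption
  have hB : convexHull ℝ {a', b', c'} ⊆ {p | D u v p ≤ 0} := by
    apply convexHull_min _ (convex_D_nonpos u v)
    intro p hp
    simp only [Set.mem_insert_iff, Set.mem_singleton_iff] at hp
    rcases hp with rfl | rfl | rfl <;> assumption
  refine measure_mono_null ?_ (volume_line huv)
  rintro p ⟨hp1, hp2⟩
  exact le_antisymm (hB hp2) (hA hp1)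

/-- The total area of pairwise separated triangles with vertices in `F` is at most `|F|`. -/
theorem sum_le_area {n : ℕ} {F : Set (ℝ × ℝ)} (hF : IsCompact F) (hc : Convex ℝ F)
    (a b c : Fin n → ℝ × ℝ) (ha : ∀ i, a i ∈ F) (hb : ∀ i, b i ∈ F) (hcc : ∀ i, c i ∈ F)
    (hsep : ∀ i j, i < j → SepT (a i) (b i) (c i) (a j) (b j) (c j)) :
    ∑ i, |D (a i) (b i) (c i)| / 2 ≤ area F := by
  have hfin : volume F ≠ ⊤ := hF.measure_lt_top.ne
  have hmeas : ∀ i, NullMeasurableSet (convexHull ℝ {a i, b i, c i}) volume := by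
    intro i
    have : IsCompact (convexHull ℝ ({a i, b i, c i} : Set (ℝ × ℝ))) :=
      Set.Finite.isCompact_convexHull (𝕜 := ℝ) (Set.toFinite _)
    exact this.measurableSet.nullMeasurableSet
  have hsub : ∀ i, convexHull ℝ {a i, b i, c i} ⊆ F := by
    intro i
    apply convexHull_min _ hc
    intro p hp
    simp only [Set.mem_insert_iff, Set.mem_singleton_iff] at hp
    rcases hp with rfl | rfl | rfl
    · exact ha i
    · exact hb i
    · exact hcc i
  have hdisj : Pairwise (Function.onFun (AEDisjoint volume)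
      (fun i => convexHull ℝ {a i, b i, c i})) := by
    intro i j hij
    rcases lt_or_gt_of_ne hij with h | h
    · exact aedisjoint_of_sepT (hsep i j h)
    · exact (aedisjoint_of_sepT (hsep j i h)).symm
  have h1 := measure_iUnion₀ hdisj hmeas
  rw [tsum_fintype] at h1
  have h2 : volume (⋃ i, convexHull ℝ {a i, b i, c i}) ≤ volume F :=
    measure_mono (Set.iUnion_subset hsub)
  rw [h1] at h2
  have h3 := ENNReal.toReal_mono hfin h2
  rw [ENNReal.toReal_sum] at h3
  · calc ∑ i, |D (a i) (b i) (c i)| / 2 = ∑ i, area (convexHull ℝ {a i, b i, c i}) := by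
          simp_rw [area_triangle]
      _ ≤ area F := h3
  · intro i _
    exact ((measure_mono (hsub i)).trans_lt hF.measure_lt_top).ne

end Pool.Agent.MP_83ee93_co
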