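import Pool.Agent.Lib.MP_83ee93_co.Ring5

/-!
# MP_83ee93_co: which points of a small figure lie beyond the vertices of a pentagon
-/

set_option autoImplicit false

open MeasureTheory

namespace Pool.Agent.MP_83ee93_co

variable {b : Fin 5 → ℝ × ℝ} {F : Set (ℝ × ℝ)}

theorem Big.w0 (h : Big b) (ht : tot b < 8) : 0 ≤ tot b - ear b 0 - ear b 1 - ear b 3 := by
  have hadm := (h.adm (F := Set.univ) (fun _ => trivial)).rot
  have h1 := ear_mono (by norm_num) hadm
    (by rw [total_rot]; change tot b < 4 * 2; linarith)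
  rw [ear0, ear1, ear3]
  have t0 : tot b = D (b 0) (b 1) (b 2) + D (b 2) (b 3) (b 4) + D (b 4) (b 0) (b 2) := by
    unfold tot total D; ring
  linarith

theorem Big.w_nonneg (h : Big b) (ht : tot b < 8) (j : Fin 5) :
    0 ≤ tot b - ear b j - ear b (j + 1) - ear b (j + 3) := by
  have := (h.rotb j).w0 (by rw [tot_rotb]; exact ht)
  rw [tot_rotb, ear_rotb, ear_rotb, ear_rotb, zero_add, add_comm 1 j, add_comm 3 j] at this
  exact this

/-- The area beyond a side. -/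
theorem Big.cap0 (h : Big b) (hF : IsCompact F) (hc : Convex ℝ F) (hb : ∀ i, b i ∈ F)
    {x : ℝ × ℝ} (hx : x ∈ F) : tot b + gf b 0 x ≤ 2 * area F := by
  rcases le_or_gt (gf b 0 x) 0 with hs | hs
  · have := total_le hF hc (by norm_num) (h.adm hb)
    change tot b ≤ 2 * area F at this
    linarith
  obtain ⟨e0, e1, e2, e3, e4⟩ := h.ears
  obtain ⟨c0, c1, c2, c3, c4⟩ := h.cores
  have hs' : D (b 0) (b 1) x < 0 := by rw [gf0] at hs; linarith
  have n0 : b 0 ≠ b 1 := (ne_of_D (by linarith : D (b 0) (b 1) (b 2) ≠ 0)).1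
  have n1 : b 2 ≠ b 0 := (ne_of_D (by linarith : D (b 0) (b 1) (b 2) ≠ 0)).2.1.symm
  have n2 : b 3 ≠ b 0 := (ne_of_D (by linarith : D (b 0) (b 1) (b 3) ≠ 0)).2.1.symm
  have key := sum_le_area hF hc ![b 0, b 0, b 0, x] ![b 1, b 2, b 3, b 1] ![b 2, b 3, b 4, b 0]
    (by intro i; fin_cases i <;> simp [hb, hx]) (by intro i; fin_cases i <;> simp [hb])
    (by intro i; fin_cases i <;> simp [hb])
    (by
      have s01 : SepT (b 0) (b 1) (b 2) (b 0) (b 2) (b 3) := by
        refine ⟨b 2, b 0, n1, ?_, ?_⟩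
        all_goals
          simp only [D] at *
          refine ⟨?_, ?_, ?_⟩ <;> nlinarith only [e0, e1, e2, e3, e4, c0, c1, c2, c3, c4]
      have s02 : SepT (b 0) (b 1) (b 2) (b 0) (b 3) (b 4) := by
        refine ⟨b 2, b 0, n1, ?_, ?_⟩
        all_goals
          simp only [D] at *
          refine ⟨?_, ?_, ?_⟩ <;> nlinarith only [e0, e1, e2, e3, e4, c0, c1, c2, c3, c4]
      have s12 : SepT (b 0) (b 2) (b 3) (b 0) (b 3) (b 4) := by
        refine ⟨b 3, b 0, n2, ?_, ?_⟩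
        all_goals
          simp only [D] at *
          refine ⟨?_, ?_, ?_⟩ <;> nlinarith only [e0, e1, e2, e3, e4, c0, c1, c2, c3, c4]
      have s03 : SepT (b 0) (b 1) (b 2) x (b 1) (b 0) := by
        refine ⟨b 0, b 1, n0, ?_, ?_⟩
        all_goals
          simp only [D] at *
          refine ⟨?_, ?_, ?_⟩ <;> nlinarith only [e0, e1, e2, e3, e4, c0, c1, c2, c3, c4, hs']
      have s13 : SepT (b 0) (b 2) (b 3) x (b 1) (b 0) := by
        refine ⟨b 0, b 1, n0, ?_, ?_⟩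
        all_goals
          simp only [D] at *
          refine ⟨?_, ?_, ?_⟩ <;> nlinarith only [e0, e1, e2, e3, e4, c0, c1, c2, c3, c4, hs']
      have s23 : SepT (b 0) (b 3) (b 4) x (b 1) (b 0) := by
        refine ⟨b 0, b 1, n0, ?_, ?_⟩
        all_goals
          simp only [D] at *
          refine ⟨?_, ?_, ?_⟩ <;> nlinarith only [e0, e1, e2, e3, e4, c0, c1, c2, c3, c4, hs']
      intro i j hij
      fin_cases i <;> fin_cases j <;> simp at hij ⊢ <;> assumption)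
  simp only [Fin.sum_univ_four, Matrix.cons_val_zero, Matrix.cons_val_one, Matrix.cons_val] at key
  have a0 : D (b 0) (b 1) (b 2) ≤ |D (b 0) (b 1) (b 2)| := le_abs_self _
  have a1 : D (b 0) (b 2) (b 3) ≤ |D (b 0) (b 2) (b 3)| := le_abs_self _
  have a2 : D (b 0) (b 3) (b 4) ≤ |D (b 0) (b 3) (b 4)| := le_abs_self _
  have a3 : D x (b 1) (b 0) ≤ |D x (b 1) (b 0)| := le_abs_self _
  have a4 : D x (b 1) (b 0) = gf b 0 x := by rw [gf0]; unfold D; ring
  have a5 : tot b = D (b 0) (b 1) (b 2) + D (b 0) (b 2) (b 3) + D (b 0) (b 3) (b 4) := rfl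
  linarith

theorem Big.cap (h : Big b) (hF : IsCompact F) (hc : Convex ℝ F) (hb : ∀ i, b i ∈ F)
    {x : ℝ × ℝ} (hx : x ∈ F) (j : Fin 5) : tot b + gf b j x ≤ 2 * area F := by
  have := (h.rotb j).cap0 hF hc (fun i => hb _) hx
  rwa [tot_rotb, gf_rotb, zero_add] at this

/-- No point of `F` is beyond two adjacent vertices. -/
theorem Big.adjacent0 (h : Big b) (hF : IsCompact F) (hc : Convex ℝ F) (hb : ∀ i, b i ∈ F)
    (hA : area F < 4) {x : ℝ × ℝ} (hx : x ∈ F) (h0 : 0 ≤ phi b 0 x) (h1 : 0 ≤ phi b 1 x) :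
    False := by
  have hcap := h.cap0 hF hc hb hx
  obtain ⟨h6, hg⟩ := h.golden
  have id1 : (tot b - ear b 3) * gf b 0 x = ear b 1 * phi b 0 x + ear b 0 * phi b 1 x
      + ear b 0 * ear b 1 := by
    rw [ear0, ear1, ear3, gf0, phi0, phi1]
    unfold tot total D
    ring
  have e0 := h.hear 0
  have e1 := h.hear 1
  have e3 := h.hear 3
  have t0 : tot b = ear b 3 + ear b 1 + D (b 4) (b 0) (b 2) := by
    rw [ear1, ear3]; unfold tot total D; ring
  have c4 := h.cores.2.2.2.2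
  have p1 : 0 ≤ ear b 1 * phi b 0 x := mul_nonneg (by linarith) h0
  have p2 : 0 ≤ ear b 0 * phi b 1 x := mul_nonneg (by linarith) h1
  have p3 : 4 ≤ ear b 0 * ear b 1 := by nlinarith
  have p4 : (tot b - ear b 3) * gf b 0 x < (tot b - ear b 3) * (8 - tot b) := by
    apply mul_lt_mul_of_pos_left _ (by linarith)
    linarith
  have p5 : (tot b - ear b 3) * (8 - tot b) ≤ (tot b - 2) * (8 - tot b) := by
    apply mul_le_mul_of_nonneg_right (by linarith)
    by_contra hcon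
    push Not at hcon
    have : gf b 0 x < 0 := by linarith
    nlinarith
  nlinarith

/-- No point of `F` is beyond two vertices that are not adjacent. -/
theorem Big.opposite0 (h : Big b) (hF : IsCompact F) (hc : Convex ℝ F) (hb : ∀ i, b i ∈ F)
    (hA : area F < 4) {x : ℝ × ℝ} (hx : x ∈ F) (h0 : 0 ≤ phi b 0 x) (h2 : 0 ≤ phi b 2 x) :
    False := by
  have hcap := h.cap hF hc hb hx 0
  have hcap4 := h.cap hF hc hb hx 4
  obtain ⟨h6, hg⟩ := h.golden
  have ht := total_le hF hc (by norm_num) (h.adm hb)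
  change tot b ≤ 2 * area F at ht
  have ht8 : tot b < 8 := by linarith
  have w0 := h.w_nonneg ht8 0
  have w1 := h.w_nonneg ht8 1
  have w3 := h.w_nonneg ht8 3
  have e0 := h.hear 0
  have e1 := h.hear 1
  have e2 := h.hear 2
  have e3 := h.hear 3
  have e4 := h.hear 4
  change 0 ≤ tot b - ear b 0 - ear b 1 - ear b 3 at w0
  change 0 ≤ tot b - ear b 1 - ear b 2 - ear b 4 at w1
  change 0 ≤ tot b - ear b 3 - ear b 4 - ear b 1 at w3
  have id1 : ear b 0 * phi b 2 x = -(ear b 0 + gf b 4 x) * (ear b 1 +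
      (tot b - ear b 1 - ear b 2 - ear b 4)) + gf b 0 x * ((tot b - ear b 0 - ear b 1 - ear b 3)
      - (tot b - ear b 3 - ear b 4 - ear b 1)) - ear b 0 * ear b 2 := by
    rw [ear0, ear1, ear2, ear3, ear4, gf0, gf4, phi2]
    unfold tot total D
    ring
  have hphi : phi b 0 x = gf b 4 x + gf b 0 x := rfl
  rw [hphi] at h0
  obtain ⟨T, hT⟩ : ∃ T, T = tot b := ⟨_, rfl⟩
  obtain ⟨W0, hW0⟩ : ∃ W, W = tot b - ear b 0 - ear b 1 - ear b 3 := ⟨_, rfl⟩
  obtain ⟨W1, hW1⟩ : ∃ W, W = tot b - ear b 1 - ear b 2 - ear b 4 := ⟨_, rfl⟩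
  obtain ⟨W3, hW3⟩ : ∃ W, W = tot b - ear b 3 - ear b 4 - ear b 1 := ⟨_, rfl⟩
  rw [← hW0, ← hW1, ← hW3] at id1
  rw [← hW0] at w0
  rw [← hW1] at w1
  rw [← hW3] at w3
  have u0 : W0 ≤ T - 6 := by rw [hW0, hT]; linarith
  have u3 : W3 ≤ T - 6 := by rw [hW3, hT]; linarith
  rw [← hT] at hcap hcap4 ht8 h6
  obtain ⟨g, hg0⟩ : ∃ g, g = gf b 0 x := ⟨_, rfl⟩
  obtain ⟨g', hg4⟩ : ∃ g, g = gf b 4 x := ⟨_, rfl⟩
  rw [← hg0] at id1 hcap h0
  rw [← hg4] at id1 hcap4 h0
  have k0 : 0 ≤ ear b 0 * phi b 2 x := mul_nonneg (by linarith) h2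
  have k1 : 2 * (ear b 0 + g') ≤ (ear b 0 + g') * (ear b 1 + W1) := by
    rw [mul_comm]
    apply mul_le_mul_of_nonneg_left (by linarith) (by linarith)
  have k2 : 2 * ear b 0 ≤ ear b 0 * ear b 2 := by nlinarith
  rcases le_or_gt 0 g with hgs | hgs
  · have k3 : g * (W0 - W3) ≤ g * 2 := mul_le_mul_of_nonneg_left (by linarith) hgs
    nlinarith
  · have k3 : g * (W0 - W3) ≤ (-g) * 2 := by
      have : g * (W0 - W3) = (-g) * (W3 - W0) := by ring
      rw [this]
      apply mul_le_mul_of_nonneg_left (by linarith) (by linarith)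
    nlinarith

end Pool.Agent.MP_83ee93_co
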